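import Pool.Agent.H517.E.Om

/-!
# Control by one place: part TABS
-/

set_option autoImplicit false
set_option linter.unusedSectionVars false

namespace Pool.Agent.H517.E

open NumberField IsDedekindDomain Module Pool.Agent.W401.Cheb Pool.Agent.NH7.Sch


/-- an abstract fixed point lemma -/
lemma fix_lem (p : ℕ) [Fact p.Prime] {D F : Type} [Group D] [AddCommGroup F] [Module (ZMod p) F]
    (T : D →* Module.End (ZMod p) F) (X : Submodule (ZMod p) F) (N : Subgroup D) [N.FiniteIndex]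
    (a : ℕ) (hN : ∀ δ : D, δ ^ p ^ a ∈ N) (hX : ∀ δ : D, ∀ x ∈ X, T δ x ∈ X)
    (hNX : ∀ δ ∈ N, ∀ x ∈ X, T δ x = x) (hfix : ∀ x ∈ X, (∀ δ : D, T δ x = x) → x = 0) :
    ∀ x ∈ X, x = 0 := by
  intro x hx
  by_contra hx0
  -- the orbit is finite
  have hO : (Set.range fun δ : D => T δ x).Finite := by
    have h1 : (Set.range fun q : D ⧸ N => T q.out x).Finite := Set.finite_range _
    refine h1.subset ?_
    rintro _ ⟨δ, rfl⟩
    refine ⟨(QuotientGroup.mk δ : D ⧸ N), ?_⟩
    have h2 : δ⁻¹ * (QuotientGroup.mk δ : D ⧸ N).out ∈ N := by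
      rw [← QuotientGroup.eq]
      exact (QuotientGroup.out_eq' _).symm
    have h3 := hNX _ h2 x hx
    have h4 : (QuotientGroup.mk δ : D ⧸ N).out = δ * (δ⁻¹ * (QuotientGroup.mk δ : D ⧸ N).out) := by
      rw [mul_inv_cancel_left]
    show T (QuotientGroup.mk δ : D ⧸ N).out x = T δ x
    rw [h4, map_mul, Module.End.mul_apply, h3]
  obtain ⟨S, hS⟩ : ∃ S, S = Submodule.span (ZMod p) (Set.range fun δ : D => T δ x) := ⟨_, rfl⟩
  have hSfin : Finite S := by
    have : Module.Finite (ZMod p) S := by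
      rw [hS]
      exact Module.Finite.span_of_finite _ hO
    exact Module.finite_of_finite (ZMod p)
  have hSX : S ≤ X := by
    rw [hS, Submodule.span_le]
    rintro _ ⟨δ, rfl⟩
    exact hX δ x hx
  have hxS : x ∈ S := by
    rw [hS]
    refine Submodule.subset_span ⟨1, ?_⟩
    show T 1 x = x
    rw [map_one]
    rfl
  have hTS : ∀ δ : D, ∀ y ∈ S, T δ y ∈ S := by
    intro δ y hy
    rw [hS] at hy ⊢
    induction hy using Submodule.span_induction with
    | mem y hy =>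
      obtain ⟨δ', rfl⟩ := hy
      refine Submodule.subset_span ⟨δ * δ', ?_⟩
      show T (δ * δ') x = T δ (T δ' x)
      rw [map_mul]
      rfl
    | zero => rw [map_zero]; exact Submodule.zero_mem _
    | add y z _ _ hy hz => rw [map_add]; exact Submodule.add_mem _ hy hz
    | smul r y _ hy => rw [map_smul]; exact Submodule.smul_mem _ _ hy
  let act : MulAction D S :=
    { smul := fun δ s => ⟨T δ s, hTS δ s s.2⟩
      one_smul := by
        intro s
        apply Subtype.ext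
        show T 1 (s : F) = s
        rw [map_one]
        rfl
      mul_smul := by
        intro δ δ' s
        apply Subtype.ext
        show T (δ * δ') (s : F) = T δ (T δ' (s : F))
        rw [map_mul]
        rfl }
  have hact : ∀ (δ : D) (s : S), ((δ • s : S) : F) = T δ (s : F) := fun _ _ => rfl
  have hP : IsPGroup p (MulAction.toPermHom D S).range := by
    rintro ⟨g, δ, rfl⟩
    refine ⟨a, ?_⟩
    apply Subtype.ext
    show (MulAction.toPermHom D S δ) ^ p ^ a = 1
    rw [← map_pow]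
    ext s
    show ((δ ^ p ^ a • s : S) : F) = s
    rw [hact]
    exact hNX _ (hN δ) _ (hSX s.2)
  have hcard : p ∣ Nat.card S := by
    have h1 : addOrderOf (⟨x, hxS⟩ : S) = p := by
      apply addOrderOf_eq_prime
      · apply Subtype.ext
        show p • x = 0
        rw [← Nat.cast_smul_eq_nsmul (ZMod p), CharP.cast_eq_zero, zero_smul]
      · intro h0
        exact hx0 (congrArg Subtype.val h0)
    have h2 := addOrderOf_dvd_natCard (⟨x, hxS⟩ : S)
    rw [h1] at h2
    exact h2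
  have h0 : (0 : S) ∈ MulAction.fixedPoints (MulAction.toPermHom D S).range S := by
    rintro ⟨g, δ, rfl⟩
    apply Subtype.ext
    show T δ (0 : F) = 0
    rw [map_zero]
  obtain ⟨b, hb, hb0⟩ := hP.exists_fixed_point_of_prime_dvd_card_of_fixed_point S hcard h0
  apply hb0
  apply Subtype.ext
  symm
  refine hfix b (hSX b.2) fun δ => ?_
  have h2 := hb ⟨MulAction.toPermHom D S δ, δ, rfl⟩
  exact congrArg Subtype.val h2

theorem t_abs (h : T_ext) : T_abs := by
  intro p _ G _ _ _ M D I ε hMn hMo hidx hDM hIM hIc hctl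
  obtain ⟨a, ha⟩ := hidx
  have hfi : M.FiniteIndex := ⟨by rw [ha]; exact pow_ne_zero _ (Fact.out : p.Prime).ne_zero⟩
  have hcj : ∀ (δ : G) (σ : M), δ⁻¹ * (σ : G) * δ ∈ M := by
    intro δ σ
    have := hMn.conj_mem σ.1 σ.2 δ⁻¹
    rwa [inv_inv] at this
  -- the action
  let T0 : D → Module.End (ZMod p) (M → ZMod p) := fun δ =>
    { toFun := fun f σ => (ε δ : ZMod p) * f ⟨(δ : G)⁻¹ * σ * δ, hcj δ σ⟩
      map_add' := by
        intro f g
        funext σ
        show _ * (f _ + g _) = _ * f _ + _ * g _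
        rw [mul_add]
      map_smul' := by
        intro r f
        funext σ
        show _ * (r * f _) = r * (_ * f _)
        ring }
  have hT0 : ∀ (δ : D) (f : M → ZMod p) (σ : M),
      T0 δ f σ = (ε δ : ZMod p) * f ⟨(δ : G)⁻¹ * σ * δ, hcj δ σ⟩ := fun _ _ _ => rfl
  let T : D →* Module.End (ZMod p) (M → ZMod p) :=
    { toFun := T0
      map_one' := by
        refine LinearMap.ext fun f => funext fun σ => ?_
        rw [hT0]
        have e1 : (⟨((1 : D) : G)⁻¹ * σ * ((1 : D) : G), hcj ((1 : D) : G) σ⟩ : M) = σ := by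
          apply Subtype.ext
          show ((1 : D) : G)⁻¹ * (σ : G) * ((1 : D) : G) = σ
          simp
        rw [e1]
        simp
      map_mul' := by
        intro δ δ'
        refine LinearMap.ext fun f => funext fun σ => ?_
        rw [Module.End.mul_apply, hT0, hT0, hT0]
        have e1 : (⟨((δ * δ' : D) : G)⁻¹ * σ * ((δ * δ' : D) : G), hcj _ σ⟩ : M) =
            ⟨(δ' : G)⁻¹ * ((δ : G)⁻¹ * σ * δ) * δ', hcj δ' ⟨(δ : G)⁻¹ * σ * δ, hcj δ σ⟩⟩ := by
          apply Subtype.ext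
          show ((δ * δ' : D) : G)⁻¹ * (σ : G) * ((δ * δ' : D) : G) =
            (δ' : G)⁻¹ * ((δ : G)⁻¹ * σ * δ) * δ'
          rw [Subgroup.coe_mul]
          group
        rw [e1, Subgroup.coe_mul, map_mul, Units.val_mul]
        ring }
  have hT : ∀ (δ : D) (f : M → ZMod p) (σ : M),
      T δ f σ = (ε δ : ZMod p) * f ⟨(δ : G)⁻¹ * σ * δ, hcj δ σ⟩ := fun _ _ _ => rfl
  let X : Submodule (ZMod p) (M → ZMod p) :=
    { carrier := {c | Cy (ε.comp M.subtype) c ∧ (∀ σ : M, (σ : G) ∈ I → c σ = 0) ∧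
        ∀ σ : M, (σ : G) ∈ D → c σ = 0}
      add_mem' := by
        rintro c c' ⟨⟨h1, h2⟩, h3, h4⟩ ⟨⟨h1', h2'⟩, h3', h4'⟩
        refine ⟨⟨h1.add h1', fun σ τ => ?_⟩, fun σ hσ => ?_, fun σ hσ => ?_⟩
        · show c (σ * τ) + c' (σ * τ) = (c σ + c' σ) + _ * (c τ + c' τ)
          rw [h2, h2']
          ring
        · show c σ + c' σ = 0
          rw [h3 σ hσ, h3' σ hσ, add_zero]
        · show c σ + c' σ = 0
          rw [h4 σ hσ, h4' σ hσ, add_zero]
      zero_mem' := by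
        refine ⟨⟨continuous_const, fun σ τ => ?_⟩, fun σ _ => rfl, fun σ _ => rfl⟩
        show (0 : ZMod p) = 0 + _ * 0
        rw [mul_zero, add_zero]
      smul_mem' := by
        rintro r c ⟨⟨h1, h2⟩, h3, h4⟩
        refine ⟨⟨continuous_const.mul h1, fun σ τ => ?_⟩, fun σ hσ => ?_, fun σ hσ => ?_⟩
        · show r * c (σ * τ) = r * c σ + _ * (r * c τ)
          rw [h2]
          ring
        · show r * c σ = 0
          rw [h3 σ hσ, mul_zero]
        · show r * c σ = 0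
          rw [h4 σ hσ, mul_zero] }
  have hXm : ∀ c, c ∈ X ↔ (Cy (ε.comp M.subtype) c ∧ (∀ σ : M, (σ : G) ∈ I → c σ = 0) ∧
      ∀ σ : M, (σ : G) ∈ D → c σ = 0) := fun _ => Iff.rfl
  have key : ∀ c ∈ X, c = 0 := by
    refine fix_lem p T X (M.subgroupOf D) a ?_ ?_ ?_ ?_
    · intro δ
      rw [Subgroup.mem_subgroupOf, Subgroup.coe_pow, ← ha]
      exact Subgroup.pow_index_mem M _
    · intro δ c hc
      obtain ⟨⟨h1, h2⟩, h3, h4⟩ := (hXm c).1 hc
      refine (hXm _).2 ⟨⟨?_, fun σ τ => ?_⟩, fun σ hσ => ?_, fun σ hσ => ?_⟩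
      · have h5 : Continuous fun σ : M => (⟨(δ : G)⁻¹ * σ * δ, hcj δ σ⟩ : M) :=
          Continuous.subtype_mk ((continuous_const.mul continuous_subtype_val).mul
            continuous_const) _
        exact continuous_const.mul (h1.comp h5)
      · rw [hT, hT, hT]
        have e1 : (⟨(δ : G)⁻¹ * ((σ * τ : M) : G) * δ, hcj δ (σ * τ)⟩ : M) =
            ⟨(δ : G)⁻¹ * σ * δ, hcj δ σ⟩ * ⟨(δ : G)⁻¹ * τ * δ, hcj δ τ⟩ := by
          apply Subtype.ext
          show (δ : G)⁻¹ * ((σ * τ : M) : G) * δ =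
            ((δ : G)⁻¹ * σ * δ) * ((δ : G)⁻¹ * τ * δ)
          rw [Subgroup.coe_mul]
          group
        rw [e1, h2]
        have e2 : (ε.comp M.subtype) ⟨(δ : G)⁻¹ * σ * δ, hcj δ σ⟩ = (ε.comp M.subtype) σ := by
          show ε ((δ : G)⁻¹ * σ * δ) = ε σ
          rw [map_mul, map_mul, map_inv, mul_comm (ε (δ : G))⁻¹, mul_assoc, inv_mul_cancel,
            mul_one]
        rw [e2]
        ring
      · rw [hT, h3, mul_zero]
        show (δ : G)⁻¹ * σ * δ ∈ I
        have := hIc (δ : G)⁻¹ σ hσ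
        rwa [inv_inv] at this
      · rw [hT, h4, mul_zero]
        show (δ : G)⁻¹ * σ * δ ∈ D
        exact D.mul_mem (D.mul_mem (D.inv_mem δ.2) hσ) δ.2
    · intro δ hδ c hc
      obtain ⟨⟨h1, h2⟩, h3, h4⟩ := (hXm c).1 hc
      rw [Subgroup.mem_subgroupOf] at hδ
      funext σ
      rw [hT]
      have e1 : (⟨(δ : G)⁻¹ * σ * δ, hcj δ σ⟩ : M) = (⟨δ, hδ⟩ : M)⁻¹ * (σ * ⟨δ, hδ⟩) := by
        apply Subtype.ext
        show (δ : G)⁻¹ * σ * δ = (δ : G)⁻¹ * (σ * δ)
        rw [mul_assoc]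
      rw [e1, h2, h2, h4 (⟨δ, hδ⟩ : M)⁻¹ (D.inv_mem δ.2), h4 ⟨δ, hδ⟩ δ.2, mul_zero, add_zero,
        zero_add]
      have e2 : (ε.comp M.subtype) (⟨δ, hδ⟩ : M)⁻¹ = (ε δ)⁻¹ := by
        rw [map_inv]
        rfl
      rw [e2, ← mul_assoc, Units.mul_inv, one_mul]
    · intro c hc hfix
      obtain ⟨hcy, h3, h4⟩ := (hXm c).1 hc
      obtain ⟨c', h5, h6, h7⟩ := h p G M D ε hMn hMo hDM c hcy h4 (by
        intro δ hδ σ τ hστ
        have h8 := congrFun (hfix ⟨δ, hδ⟩) σ
        rw [hT] at h8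
        rw [← h8]
        congr 2
        exact Subtype.ext hστ)
      have h9 := hctl c' h5 (fun σ hσ => by
        have := h7 ⟨σ, hIM σ hσ⟩
        rw [h3 ⟨σ, hIM σ hσ⟩ hσ] at this
        exact this) h6
      funext σ
      rw [← h7 σ]
      exact h9 σ
  intro c hcy h1 h2 σ
  have := key c ((hXm c).2 ⟨hcy, h1, h2⟩)
  rw [this]
  rfl

end Pool.Agent.H517.E
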