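import Pool.Agent.H517.E.Om
import Pool.Graph.R_pool_sql_team_seeded_3dad9d7b.NH7.GU.UntP

/-!
# Control by one place: part TCUB
-/

set_option autoImplicit false
set_option linter.unusedSectionVars false

namespace Pool.Agent.H517.E

open NumberField IsDedekindDomain Module Pool.Agent.W401.Cheb Pool.Agent.NH7.Sch


section cub

open FractionalIdeal

variable {K : Type} [Field K] [NumberField K]

/-- the multiplicity of `v` in the principal fractional ideal of `κ` -/
theorem count_od (v : HeightOneSpectrum (𝓞 K)) (κ : Kˣ) :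
    FractionalIdeal.count K v (spanSingleton (nonZeroDivisors (𝓞 K)) (κ : K)) = - od v κ := by
  classical
  obtain ⟨n, d, hd, hnd⟩ := IsFractionRing.div_surjective (A := 𝓞 K) (κ : K)
  have hd0 : d ≠ 0 := nonZeroDivisors.ne_zero hd
  have hn0 : n ≠ 0 := by
    rintro rfl
    rw [map_zero, zero_div] at hnd
    exact κ.ne_zero hnd.symm
  have h0 : spanSingleton (nonZeroDivisors (𝓞 K)) (κ : K) ≠ 0 := by
    rw [Ne, spanSingleton_eq_zero_iff]; exact κ.ne_zero
  have h1 : spanSingleton (nonZeroDivisors (𝓞 K)) (κ : K)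
      = spanSingleton (nonZeroDivisors (𝓞 K)) ((algebraMap (𝓞 K) K) d)⁻¹ * ↑(Ideal.span {n}) := by
    rw [coeIdeal_span_singleton, spanSingleton_mul_spanSingleton, ← hnd, div_eq_mul_inv, mul_comm]
  rw [FractionalIdeal.count_well_defined K v h0 h1]
  have h2 := val_od v κ
  rw [← hnd, map_div₀, HeightOneSpectrum.valuation_of_algebraMap,
    HeightOneSpectrum.valuation_of_algebraMap, HeightOneSpectrum.intValuation_if_neg v hn0,
    HeightOneSpectrum.intValuation_if_neg v hd0, ← WithZero.exp_sub, WithZero.exp_inj] at h2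
  rw [← h2]
  ring

/-- the fractional ideal with given orders -/
theorem exists_frac (e : HeightOneSpectrum (𝓞 K) → ℤ) (he : ∀ᶠ v in Filter.cofinite, e v = 0) :
    ∃ I : FractionalIdeal (nonZeroDivisors (𝓞 K)) K, I ≠ 0 ∧ ∀ v, FractionalIdeal.count K v I = e v := by
  refine ⟨∏ᶠ v : HeightOneSpectrum (𝓞 K), (v.asIdeal : FractionalIdeal (nonZeroDivisors (𝓞 K)) K) ^ e v,
    ?_, fun v => FractionalIdeal.count_finprod K v e he⟩
  refine finprod_induction (fun I => I ≠ 0) one_ne_zero (fun _ _ h1 h2 => mul_ne_zero h1 h2) ?_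
  intro v
  exact zpow_ne_zero _ (coeIdeal_ne_zero.mpr v.ne_bot)

end cub

theorem t_cub : T_cub := by
  intro p hp K _ _ hunit hcl κ hκ
  choose e he using hκ
  have hp0 : (p : ℤ) ≠ 0 := by exact_mod_cast hp.out.ne_zero
  have hfin : ∀ᶠ v in Filter.cofinite, (fun v => - e v) v = 0 := by
    have h1 := FractionalIdeal.finite_factors (K := K)
      (FractionalIdeal.spanSingleton (nonZeroDivisors (𝓞 K)) (κ : K))
    filter_upwards [h1] with v hv
    rw [count_od, he v] at hv
    have h2 : (p : ℤ) * e v = 0 := by linarith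
    rcases mul_eq_zero.mp h2 with h3 | h3
    · exact absurd h3 hp0
    · simp [h3]
  obtain ⟨I, hI, hIv⟩ := exists_frac _ hfin
  have hs0 : FractionalIdeal.spanSingleton (nonZeroDivisors (𝓞 K)) (κ : K) ≠ 0 := by
    rw [Ne, FractionalIdeal.spanSingleton_eq_zero_iff]; exact κ.ne_zero
  have hIp : I ^ p = FractionalIdeal.spanSingleton (nonZeroDivisors (𝓞 K)) (κ : K) := by
    rw [← FractionalIdeal.finprod_heightOneSpectrum_factorization' (K := K) (pow_ne_zero p hI),
      ← FractionalIdeal.finprod_heightOneSpectrum_factorization' (K := K) hs0]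
    refine finprod_congr fun v => ?_
    rw [count_od, FractionalIdeal.count_pow, hIv v, he v]
    congr 1
    ring
  have hcop : p.Coprime (Fintype.card (ClassGroup (𝓞 K))) :=
    (Nat.Prime.coprime_iff_not_dvd hp.out).mpr hcl
  have hpr := FractionalIdeal.isPrincipal.of_isPrincipal_pow_of_coprime hcop I (by
    rw [hIp, FractionalIdeal.coe_spanSingleton]
    exact ⟨⟨(κ : K), rfl⟩⟩)
  obtain ⟨x, hx⟩ := (FractionalIdeal.isPrincipal_iff I).mp hpr
  have hx0 : x ≠ 0 := by
    rintro rfl
    rw [FractionalIdeal.spanSingleton_zero] at hx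
    exact hI hx
  have hxv : ∀ v : HeightOneSpectrum (𝓞 K), od v (Units.mk0 x hx0) = e v := by
    intro v
    have h1 := count_od v (Units.mk0 x hx0)
    rw [Units.val_mk0, ← hx, hIv v] at h1
    linarith
  obtain ⟨u, hu⟩ := Pool.Agent.NH7.GU.UntP.exists_unit (κ * ((Units.mk0 x hx0) ^ p)⁻¹) (fun v => by
    rw [od_mul, od_inv, od_pow, hxv v, he v, add_neg_cancel])
  obtain ⟨u', rfl⟩ := hunit u
  refine ⟨Pool.Agent.NH7.GU.UntP.U K u' * Units.mk0 x hx0, ?_⟩
  rw [mul_pow, ← map_pow, hu, inv_mul_cancel_right]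

end Pool.Agent.H517.E
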