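import Pool.Agent.H517.E.Om

/-!
# Control by one place: part TEXT
-/

set_option autoImplicit false
set_option linter.unusedSectionVars false

namespace Pool.Agent.H517.E

open NumberField IsDedekindDomain Module Pool.Agent.W401.Cheb Pool.Agent.NH7.Sch


theorem t_ext : T_ext := by
  intro p _ G _ _ _ M D ε hM hop hD c₀ hc₀ hcD hconj
  obtain ⟨hcont, hco⟩ := hc₀
  choose d hdD hdM using hD
  have hone : c₀ 1 = 0 := hcD 1 D.one_mem
  obtain ⟨c, hc⟩ : ∃ c : G → ZMod p, ∀ g, c g = (ε (d g) : ZMod p) * c₀ ⟨(d g)⁻¹ * g, hdM g⟩ :=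
    ⟨_, fun g => rfl⟩
  have hind : ∀ (g δ : G) (_ : δ ∈ D) (h : δ⁻¹ * g ∈ M),
      c g = (ε δ : ZMod p) * c₀ ⟨δ⁻¹ * g, h⟩ := by
    intro g δ hδ h
    have hη : δ⁻¹ * d g ∈ M := by
      have : δ⁻¹ * d g = (δ⁻¹ * g) * ((d g)⁻¹ * g)⁻¹ := by group
      rw [this]
      exact M.mul_mem h (M.inv_mem (hdM g))
    have hηD : δ⁻¹ * d g ∈ D := D.mul_mem (D.inv_mem hδ) (hdD g)
    have e1 : (⟨δ⁻¹ * g, h⟩ : M) = ⟨δ⁻¹ * d g, hη⟩ * ⟨(d g)⁻¹ * g, hdM g⟩ := by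
      apply Subtype.ext
      change δ⁻¹ * g = (δ⁻¹ * d g) * ((d g)⁻¹ * g)
      group
    have e2 : (ε δ : ZMod p) * (((ε.comp M.subtype) ⟨δ⁻¹ * d g, hη⟩ : (ZMod p)ˣ) : ZMod p) =
        (ε (d g) : ZMod p) := by
      have : (ε.comp M.subtype) ⟨δ⁻¹ * d g, hη⟩ = ε (δ⁻¹ * d g) := rfl
      rw [this, ← Units.val_mul, ← map_mul, mul_inv_cancel_left]
    rw [e1, hco, hcD _ hηD, zero_add, ← mul_assoc, e2, hc]
  have hcoc : ∀ g g', c (g * g') = c g + (ε g : ZMod p) * c g' := by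
    intro g g'
    have hτ : (d g')⁻¹ * ((d g)⁻¹ * g) * d g' ∈ M := by
      have := hM.conj_mem _ (hdM g) (d g')⁻¹
      rwa [inv_inv] at this
    have e0 : (d g * d g')⁻¹ * (g * g') =
        ((d g')⁻¹ * ((d g)⁻¹ * g) * d g') * ((d g')⁻¹ * g') := by group
    have hm : (d g * d g')⁻¹ * (g * g') ∈ M := by
      rw [e0]
      exact M.mul_mem hτ (hdM g')
    have e1 : (⟨(d g * d g')⁻¹ * (g * g'), hm⟩ : M) =
        ⟨(d g')⁻¹ * ((d g)⁻¹ * g) * d g', hτ⟩ * ⟨(d g')⁻¹ * g', hdM g'⟩ := by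
      apply Subtype.ext
      exact e0
    have e2 := hconj (d g') (hdD g') ⟨(d g)⁻¹ * g, hdM g⟩
      ⟨(d g')⁻¹ * ((d g)⁻¹ * g) * d g', hτ⟩ rfl
    have e3 : (ε.comp M.subtype) ⟨(d g')⁻¹ * ((d g)⁻¹ * g) * d g', hτ⟩ = (ε (d g))⁻¹ * ε g := by
      change ε ((d g')⁻¹ * ((d g)⁻¹ * g) * d g') = _
      simp only [map_mul, map_inv]
      rw [mul_comm ((ε (d g'))⁻¹) _, mul_assoc, inv_mul_cancel, mul_one]
    rw [hind (g * g') (d g * d g') (D.mul_mem (hdD g) (hdD g')) hm, e1, hco, e3, hc g, hc g',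
      ← e2, map_mul]
    simp only [Units.val_mul]
    have e4 : (ε (d g) : ZMod p) * (((ε (d g))⁻¹ : (ZMod p)ˣ) : ZMod p) = 1 := by
      rw [← Units.val_mul, mul_inv_cancel, Units.val_one]
    linear_combination ((ε (d g') : ZMod p) * (ε g : ZMod p) * c₀ ⟨(d g')⁻¹ * g', hdM g'⟩) * e4
  have hcM : ∀ σ : M, c σ = c₀ σ := by
    intro σ
    have hm : (1 : G)⁻¹ * (σ : G) ∈ M := by
      rw [inv_one, one_mul]
      exact σ.2
    have e1 : (⟨(1 : G)⁻¹ * (σ : G), hm⟩ : M) = σ := by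
      apply Subtype.ext
      change (1 : G)⁻¹ * (σ : G) = σ
      rw [inv_one, one_mul]
    rw [hind σ 1 D.one_mem hm, e1, map_one, Units.val_one, one_mul]
  refine ⟨c, ⟨?_, hcoc⟩, ?_, hcM⟩
  · refine IsLocallyConstant.continuous ((IsLocallyConstant.iff_exists_open c).2 fun g => ?_)
    have hV : IsOpen ((Subtype.val : M → G) '' (c₀ ⁻¹' {0})) :=
      hop.isOpenMap_subtype_val _ (hcont.isOpen_preimage _ (isOpen_discrete _))
    refine ⟨(fun x => g⁻¹ * x) ⁻¹' ((Subtype.val : M → G) '' (c₀ ⁻¹' {0})),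
      hV.preimage (continuous_const.mul continuous_id), ?_, ?_⟩
    · refine ⟨1, hone, ?_⟩
      change (1 : G) = g⁻¹ * g
      rw [inv_mul_cancel]
    · rintro x ⟨m, hm, hx⟩
      have hx' : x = g * m := by
        have : (m : G) = g⁻¹ * x := hx
        rw [this, mul_inv_cancel_left]
      have hm' : c₀ m = 0 := hm
      rw [hx', hcoc, hcM, hm', mul_zero, add_zero]
  · intro σ hσ
    have hm : σ⁻¹ * σ ∈ M := by
      rw [inv_mul_cancel]
      exact M.one_mem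
    have e1 : (⟨σ⁻¹ * σ, hm⟩ : M) = 1 := by
      apply Subtype.ext
      exact inv_mul_cancel σ
    rw [hind σ σ hσ hm, e1, hone, mul_zero]

end Pool.Agent.H517.E
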