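import Pool.Agent.H517.E.Om

/-!
# Control by one place: part TFIL
-/

set_option autoImplicit false
set_option linter.unusedSectionVars false

namespace Pool.Agent.H517.E

open NumberField IsDedekindDomain Module Pool.Agent.W401.Cheb Pool.Agent.NH7.Sch


namespace FILN

variable {p : ℕ} [Fact p.Prime]

/-- Unipotent elements have order a power of `p`. -/
theorem unip {A : Type} [Ring A] [CharP A p] (u : A) (m : ℕ) (h : (u - 1) ^ m = 0) :
    u ^ (p ^ m) = 1 := by
  have hp : p.Prime := Fact.out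
  have h1 : (u - 1) ^ (p ^ m) = u ^ (p ^ m) - 1 ^ (p ^ m) :=
    sub_pow_char_pow_of_commute (p := p) (n := m) (Commute.one_right u)
  have h2 : (u - 1) ^ (p ^ m) = 0 :=
    pow_eq_zero_of_le (Nat.lt_pow_self hp.one_lt).le h
  rw [h2, one_pow] at h1
  exact (sub_eq_zero.1 h1.symm)

/-- A group acting through unipotent operators has a fixed vector. -/
theorem fixed {G : Type} [Group G] {V : Type} [AddCommGroup V] [Module (ZMod p) V] [Finite V]
    [Nontrivial V] (r : G →* Module.End (ZMod p) V) (G₁ : Subgroup G)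
    (h : ∀ σ ∈ G₁, ∃ m : ℕ, (r σ - 1) ^ m = 0) :
    ∃ x : V, x ≠ 0 ∧ ∀ σ ∈ G₁, r σ x = x := by
  have hp : p.Prime := Fact.out
  have hch : CharP (Module.End (ZMod p) V) p :=
    charP_of_injective_ringHom (algebraMap (ZMod p) (Module.End (ZMod p) V)).injective p
  let P : Subgroup (Module.End (ZMod p) V)ˣ := G₁.map r.toHomUnits
  have hP : IsPGroup p P := by
    rintro ⟨u, σ, hσ, rfl⟩
    obtain ⟨m, hm⟩ := h σ hσ
    refine ⟨m, ?_⟩
    apply Subtype.ext
    apply Units.ext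
    have := unip (r σ) m hm
    simpa using this
  have hcard : p ∣ Nat.card V := by
    have h1 : Nat.card V = Nat.card (ZMod p) ^ Module.finrank (ZMod p) V :=
      Module.natCard_eq_pow_finrank
    rw [h1, Nat.card_zmod]
    exact dvd_pow_self p (Module.finrank_pos).ne'
  have h0 : (0 : V) ∈ MulAction.fixedPoints P V := by
    intro g
    exact smul_zero g
  obtain ⟨b, hb, hb0⟩ := hP.exists_fixed_point_of_prime_dvd_card_of_fixed_point V hcard h0
  refine ⟨b, hb0.symm, ?_⟩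
  intro σ hσ
  exact hb ⟨r.toHomUnits σ, σ, hσ, rfl⟩

/-- Powers of an operator which is injective on a stable subspace. -/
theorem iter {V : Type} [AddCommGroup V] [Module (ZMod p) V] (f : Module.End (ZMod p) V)
    (W : Submodule (ZMod p) V) (hf : ∀ x ∈ W, f x ∈ W) (hn : ∀ x ∈ W, f x = 0 → x = 0) (k : ℕ) :
    ∀ x ∈ W, x ≠ 0 → (f ^ k) x ∈ W ∧ (f ^ k) x ≠ 0 := by
  induction k with
  | zero =>
    intro x hx hx0
    exact ⟨by simpa using hx, by simpa using hx0⟩
  | succ k ih =>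
    intro x hx hx0
    obtain ⟨h1, h2⟩ := ih x hx hx0
    rw [pow_succ', Module.End.mul_apply]
    exact ⟨hf _ h1, fun h => h2 (hn _ h1 h)⟩

/-- A common eigenvector. -/
theorem eig {G : Type} [Group G] {V : Type} [AddCommGroup V] [Module (ZMod p) V] [Finite V]
    [Nontrivial V] (r : G →* Module.End (ZMod p) V) (ε : G →* (ZMod p)ˣ)
    (h : ∀ σ, ∃ k l : ℕ, (r σ - 1) ^ k *
      (r σ - algebraMap (ZMod p) (Module.End (ZMod p) V) (ε σ : ZMod p)) ^ l = 0) :
    ∃ x : V, x ≠ 0 ∧ ((∀ σ, r σ x = x) ∨ (∀ σ, r σ x = (ε σ : ZMod p) • x)) := by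
  -- the fixed vectors of the kernel
  have hmul : ∀ (σ τ : G) (x : V), r (σ * τ) x = r σ (r τ x) := by
    intro σ τ x
    rw [map_mul, Module.End.mul_apply]
  let W : Submodule (ZMod p) V :=
    { carrier := {x | ∀ σ ∈ ε.ker, r σ x = x}
      add_mem' := by
        intro a b ha hb σ hσ
        rw [map_add, ha σ hσ, hb σ hσ]
      zero_mem' := by
        intro σ _
        exact map_zero _
      smul_mem' := by
        intro c x hx σ hσ
        rw [map_smul, hx σ hσ] }
  have hW : ∀ x, x ∈ W ↔ ∀ σ ∈ ε.ker, r σ x = x := fun x => Iff.rfl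
  obtain ⟨x₀, hx₀, hx₀W⟩ : ∃ x : V, x ≠ 0 ∧ ∀ σ ∈ ε.ker, r σ x = x := by
    refine fixed r ε.ker ?_
    intro σ hσ
    obtain ⟨k, l, hkl⟩ := h σ
    refine ⟨k + l, ?_⟩
    rw [MonoidHom.mem_ker] at hσ
    rw [hσ, Units.val_one, map_one] at hkl
    rw [pow_add, hkl]
  have hst : ∀ (g : G), ∀ x ∈ W, r g x ∈ W := by
    intro g x hx σ hσ
    have hc : g⁻¹ * σ * g ∈ ε.ker := by
      have := (MonoidHom.normal_ker ε).conj_mem σ hσ g⁻¹
      simpa using this
    have h1 : r (σ * g) x = r (g * (g⁻¹ * σ * g)) x := by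
      congr 2
      group
    rw [← hmul, h1, hmul, hx _ hc]
  obtain ⟨⟨u, g, rfl⟩, hg⟩ := IsCyclic.exists_generator (α := ε.range)
  have hg' : ∀ σ : G, ∃ i : ℤ, ε σ = ε g ^ i := by
    intro σ
    obtain ⟨i, hi⟩ := hg ⟨ε σ, σ, rfl⟩
    refine ⟨i, ?_⟩
    have := congrArg Subtype.val hi
    simpa using this.symm
  obtain ⟨k, l, hkl⟩ := h g
  -- an eigenvector of `g` in `W`
  obtain ⟨x, hxW, hx0, hx⟩ : ∃ x ∈ W, x ≠ 0 ∧ (r g x = x ∨ r g x = (ε g : ZMod p) • x) := by
    by_contra hcon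
    push Not at hcon
    have hA : ∀ x ∈ W, (r g - 1) x = 0 → x = 0 := by
      intro x hx h0
      by_contra hx0
      refine (hcon x hx hx0).1 ?_
      rw [LinearMap.sub_apply, Module.End.one_apply, sub_eq_zero] at h0
      exact h0
    have hB : ∀ x ∈ W, (r g - algebraMap (ZMod p) (Module.End (ZMod p) V) (ε g : ZMod p)) x = 0 →
        x = 0 := by
      intro x hx h0
      by_contra hx0
      refine (hcon x hx hx0).2 ?_
      rw [LinearMap.sub_apply, Module.algebraMap_end_apply, sub_eq_zero] at h0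
      exact h0
    have hA' : ∀ x ∈ W, (r g - 1) x ∈ W := by
      intro x hx
      rw [LinearMap.sub_apply, Module.End.one_apply]
      exact W.sub_mem (hst g x hx) hx
    have hB' : ∀ x ∈ W, (r g - algebraMap (ZMod p) (Module.End (ZMod p) V) (ε g : ZMod p)) x ∈ W := by
      intro x hx
      rw [LinearMap.sub_apply, Module.algebraMap_end_apply]
      exact W.sub_mem (hst g x hx) (W.smul_mem _ hx)
    obtain ⟨h1, h2⟩ := iter _ W hB' hB l x₀ hx₀W hx₀
    obtain ⟨h3, h4⟩ := iter _ W hA' hA k _ h1 h2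
    apply h4
    rw [← Module.End.mul_apply, hkl]
    rfl
  -- powers of `g`
  have hpow : ∀ a : (ZMod p)ˣ, r g x = (a : ZMod p) • x → ∀ i : ℤ, r (g ^ i) x = ((a ^ i : (ZMod p)ˣ) : ZMod p) • x := by
    intro a ha
    have hinv : r g⁻¹ x = ((a⁻¹ : (ZMod p)ˣ) : ZMod p) • x := by
      have h1 : r g⁻¹ (r g x) = x := by
        rw [← hmul, inv_mul_cancel, map_one, Module.End.one_apply]
      rw [ha, map_smul] at h1
      calc r g⁻¹ x = ((a⁻¹ : (ZMod p)ˣ) : ZMod p) • ((a : ZMod p) • r g⁻¹ x) := by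
            rw [smul_smul, Units.inv_mul, one_smul]
        _ = _ := by rw [h1]
    intro i
    induction i using Int.induction_on with
    | zero => simp
    | succ i ih =>
      rw [zpow_add_one, hmul, ha, map_smul, ih, smul_smul, zpow_add_one, Units.val_mul, mul_comm]
    | pred i ih =>
      rw [zpow_sub_one, hmul, hinv, map_smul, ih, smul_smul, zpow_sub_one, Units.val_mul, mul_comm]
  have hall : ∀ a : (ZMod p)ˣ, r g x = (a : ZMod p) • x → ∀ (σ : G) (i : ℤ), ε σ = ε g ^ i →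
      r σ x = ((a ^ i : (ZMod p)ˣ) : ZMod p) • x := by
    intro a ha σ i hi
    have hk : (g ^ i)⁻¹ * σ ∈ ε.ker := by
      rw [MonoidHom.mem_ker, map_mul, map_inv, map_zpow, hi, inv_mul_cancel]
    have h1 : r σ x = r (g ^ i * ((g ^ i)⁻¹ * σ)) x := by
      congr 2
      group
    rw [h1, hmul, hxW _ hk, hpow a ha i]
  refine ⟨x, hx0, ?_⟩
  rcases hx with hx | hx
  · left
    intro σ
    obtain ⟨i, hi⟩ := hg' σ
    have h1 : r g x = ((1 : (ZMod p)ˣ) : ZMod p) • x := by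
      rw [Units.val_one, one_smul, hx]
    have := hall 1 h1 σ i hi
    simpa using this
  · right
    intro σ
    obtain ⟨i, hi⟩ := hg' σ
    rw [hall (ε g) hx σ i hi, hi]

/-- Powers of intertwined operators. -/
theorem semi {V V' : Type} [AddCommGroup V] [Module (ZMod p) V] [AddCommGroup V']
    [Module (ZMod p) V'] (π : V →ₗ[ZMod p] V') (f : Module.End (ZMod p) V)
    (f' : Module.End (ZMod p) V') (h : ∀ x, π (f x) = f' (π x)) (k : ℕ) :
    ∀ x, π ((f ^ k) x) = (f' ^ k) (π x) := by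
  induction k with
  | zero => intro x; simp
  | succ k ih =>
    intro x
    rw [pow_succ', pow_succ', Module.End.mul_apply, Module.End.mul_apply, h, ih]

/-- An eigenvector modulo a stable subspace. -/
theorem eigq {G : Type} [Group G] {E : Type} [AddCommGroup E] [Module (ZMod p) E] [Finite E]
    (r : G →* Module.End (ZMod p) E) (ε : G →* (ZMod p)ˣ) (U : Submodule (ZMod p) E) (hU : U ≠ ⊤)
    (hs : ∀ σ, ∀ x ∈ U, r σ x ∈ U)
    (h : ∀ σ, ∃ k l : ℕ, (r σ - 1) ^ k *
      (r σ - algebraMap (ZMod p) (Module.End (ZMod p) E) (ε σ : ZMod p)) ^ l = 0) :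
    ∃ x : E, x ∉ U ∧ ((∀ σ, r σ x - x ∈ U) ∨ (∀ σ, r σ x - (ε σ : ZMod p) • x ∈ U)) := by
  have hnt : Nontrivial (E ⧸ U) := Submodule.Quotient.nontrivial_iff.2 hU
  have hfin : Finite (E ⧸ U) := Finite.of_surjective _ (Submodule.mkQ_surjective U)
  let r' : G →* Module.End (ZMod p) (E ⧸ U) :=
    { toFun := fun σ => U.mapQ U (r σ) (fun x hx => hs σ x hx)
      map_one' := by
        apply Submodule.linearMap_qext
        ext x
        simp
      map_mul' := by
        intro σ τ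
        apply Submodule.linearMap_qext
        ext x
        simp }
  have hr' : ∀ (σ : G) (x : E), r' σ (U.mkQ x) = U.mkQ (r σ x) := fun σ x => rfl
  obtain ⟨y, hy0, hy⟩ := eig r' ε (by
    intro σ
    obtain ⟨k, l, hkl⟩ := h σ
    refine ⟨k, l, ?_⟩
    apply LinearMap.ext
    intro y
    obtain ⟨x, rfl⟩ := Submodule.mkQ_surjective U y
    rw [Module.End.mul_apply,
      ← semi U.mkQ (r σ - algebraMap (ZMod p) (Module.End (ZMod p) E) (ε σ : ZMod p))
        (r' σ - algebraMap (ZMod p) (Module.End (ZMod p) (E ⧸ U)) (ε σ : ZMod p)) (by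
          intro x
          rw [LinearMap.sub_apply, LinearMap.sub_apply, Module.algebraMap_end_apply,
            Module.algebraMap_end_apply, map_sub, map_smul, hr']) l x,
      ← semi U.mkQ (r σ - 1) (r' σ - 1) (by
          intro x
          rw [LinearMap.sub_apply, LinearMap.sub_apply, Module.End.one_apply,
            Module.End.one_apply, map_sub, hr']) k,
      ← Module.End.mul_apply, hkl]
    simp)
  obtain ⟨x, rfl⟩ := Submodule.mkQ_surjective U y
  refine ⟨x, ?_, ?_⟩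
  · intro hx
    exact hy0 ((Submodule.Quotient.mk_eq_zero U).2 hx)
  · rcases hy with hy | hy
    · left
      intro σ
      have := hy σ
      rw [hr'] at this
      exact (Submodule.Quotient.eq U).1 this
    · right
      intro σ
      have := hy σ
      rw [hr', ← map_smul] at this
      exact (Submodule.Quotient.eq U).1 this

/-- The residual statement. -/
theorem resid {G : Type} [Group G] [TopologicalSpace G] (I D : Set G) (ε : G →* (ZMod p)ˣ)
    (h1 : Ctl (1 : G →* (ZMod p)ˣ) I D) (h2 : Ctl ε I D) (n : ℕ)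
    (ρ : G →* Matrix (Fin n) (Fin n) (ZMod p))
    (hρ : ∀ σ, ∃ k l : ℕ, (ρ σ).charpoly =
      (Polynomial.X - 1) ^ k * (Polynomial.X - Polynomial.C (ε σ : ZMod p)) ^ l)
    (c : G → Fin n → ZMod p) (hc : Continuous c)
    (hcc : ∀ σ τ, c (σ * τ) = c σ + (ρ σ).mulVec (c τ))
    (hI : ∀ σ ∈ I, c σ = 0) (hD : ∀ σ ∈ D, c σ = 0) : ∀ σ, c σ = 0 := by
  let U : Submodule (ZMod p) (Fin n → ZMod p) :=
    { carrier := {v | ∀ τ, v ⬝ᵥ c τ = 0}
      add_mem' := by
        intro a b ha hb τ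
        rw [add_dotProduct, ha τ, hb τ, add_zero]
      zero_mem' := by
        intro τ
        exact zero_dotProduct _
      smul_mem' := by
        intro a x hx τ
        rw [smul_dotProduct, hx τ, smul_zero] }
  have hUm : ∀ v, v ∈ U ↔ ∀ τ, v ⬝ᵥ c τ = 0 := fun v => Iff.rfl
  -- the action on row vectors
  let r : G →* Module.End (ZMod p) (Fin n → ZMod p) :=
    { toFun := fun σ => Matrix.toLinAlgEquiv' ((ρ σ⁻¹).transpose)
      map_one' := by
        rw [inv_one, map_one, Matrix.transpose_one, map_one]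
      map_mul' := by
        intro σ τ
        rw [mul_inv_rev, map_mul, Matrix.transpose_mul, map_mul] }
  have hr : ∀ σ v τ, (r σ v) ⬝ᵥ c τ = v ⬝ᵥ ((ρ σ⁻¹).mulVec (c τ)) := by
    intro σ v τ
    have : r σ v = ((ρ σ⁻¹).transpose).mulVec v := Matrix.toLinAlgEquiv'_apply _ _
    rw [this, Matrix.mulVec_transpose, Matrix.dotProduct_mulVec]
  have hstab : ∀ σ, ∀ v ∈ U, r σ v ∈ U := by
    intro σ v hv τ
    rw [hr]
    have h3 := hcc σ⁻¹ τ
    have h4 : (ρ σ⁻¹).mulVec (c τ) = c (σ⁻¹ * τ) - c σ⁻¹ := by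
      rw [h3, add_sub_cancel_left]
    rw [h4, dotProduct_sub, hv, hv, sub_zero]
  have hpoly : ∀ σ, ∃ k l : ℕ, (r σ - 1) ^ k *
      (r σ - algebraMap (ZMod p) (Module.End (ZMod p) (Fin n → ZMod p)) ((ε⁻¹ : G →* (ZMod p)ˣ) σ : ZMod p)) ^ l = 0 := by
    intro σ
    obtain ⟨k, l, hkl⟩ := hρ σ⁻¹
    refine ⟨k, l, ?_⟩
    have hCH : Polynomial.aeval ((ρ σ⁻¹).transpose) ((ρ σ⁻¹).transpose).charpoly = 0 :=
      Matrix.aeval_self_charpoly _
    rw [Matrix.charpoly_transpose, hkl, map_mul, map_pow, map_pow, map_sub, map_sub,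
      Polynomial.aeval_X, Polynomial.aeval_C, map_one] at hCH
    have h5 := congrArg (Matrix.toLinAlgEquiv' (R := ZMod p) (n := Fin n)) hCH
    rw [map_mul, map_pow, map_pow, map_sub, map_sub, map_one, map_zero, AlgEquiv.commutes] at h5
    have h6 : ((ε⁻¹ : G →* (ZMod p)ˣ) σ) = ε σ⁻¹ := by
      rw [MonoidHom.inv_apply, map_inv]
    rw [h6]
    exact h5
  -- the annihilator is everything
  have hU : U = ⊤ := by
    by_contra hU
    obtain ⟨x, hx, hx'⟩ := eigq r ε⁻¹ U hU hstab hpoly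
    apply hx
    have hcont : Continuous (fun τ => x ⬝ᵥ c τ) := by
      refine (continuous_of_discreteTopology (f := fun v : Fin n → ZMod p => x ⬝ᵥ v)).comp hc
    rcases hx' with hx' | hx'
    · refine h1 (fun τ => x ⬝ᵥ c τ) ⟨hcont, ?_⟩ ?_ ?_
      · intro σ τ
        have h3 := hx' σ⁻¹ τ
        rw [sub_dotProduct, hr, inv_inv, sub_eq_zero] at h3
        show x ⬝ᵥ c (σ * τ) = _
        rw [hcc, dotProduct_add, h3, MonoidHom.one_apply, Units.val_one, one_mul]
      · intro σ hσ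
        show x ⬝ᵥ c σ = 0
        rw [hI σ hσ, dotProduct_zero]
      · intro σ hσ
        show x ⬝ᵥ c σ = 0
        rw [hD σ hσ, dotProduct_zero]
    · refine h2 (fun τ => x ⬝ᵥ c τ) ⟨hcont, ?_⟩ ?_ ?_
      · intro σ τ
        have h3 := hx' σ⁻¹ τ
        rw [sub_dotProduct, hr, inv_inv, sub_eq_zero, smul_dotProduct, MonoidHom.inv_apply,
          map_inv, inv_inv, smul_eq_mul] at h3
        show x ⬝ᵥ c (σ * τ) = _
        rw [hcc, dotProduct_add, h3]
      · intro σ hσ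
        show x ⬝ᵥ c σ = 0
        rw [hI σ hσ, dotProduct_zero]
      · intro σ hσ
        show x ⬝ᵥ c σ = 0
        rw [hD σ hσ, dotProduct_zero]
  intro σ
  funext i
  have h7 : (Pi.single i 1 : Fin n → ZMod p) ∈ U := by
    rw [hU]
    exact Submodule.mem_top
  have h8 := h7 σ
  rw [single_dotProduct, one_mul] at h8
  exact h8

/-- Reduction modulo `p` is continuous. -/
theorem cont_toZMod : Continuous (PadicInt.toZMod (p := p)) := by
  refine continuous_of_continuousAt_zero (PadicInt.toZMod (p := p)) ?_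
  have h1 : ∀ᶠ x : ℤ_[p] in nhds 0, (0 : ZMod p) = PadicInt.toZMod x := by
    have h2 : ∀ᶠ x : ℤ_[p] in nhds 0, ‖x‖ < 1 := by
      have := Metric.ball_mem_nhds (0 : ℤ_[p]) one_pos
      filter_upwards [this] with x hx
      rwa [mem_ball_zero_iff] at hx
    filter_upwards [h2] with x hx
    symm
    have h3 : x ∈ IsLocalRing.maximalIdeal ℤ_[p] := by
      rw [IsLocalRing.mem_maximalIdeal, PadicInt.mem_nonunits]
      exact hx
    rw [← PadicInt.ker_toZMod] at h3
    exact h3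
  unfold ContinuousAt
  rw [map_zero]
  exact tendsto_const_nhds.congr' h1

/-- Division by `p`. -/
theorem lift {G : Type} [Group G] [TopologicalSpace G] (I D : Set G) (ε : G →* (ZMod p)ˣ)
    (h1 : Ctl (1 : G →* (ZMod p)ˣ) I D) (h2 : Ctl ε I D) (n : ℕ)
    (ρ : G →* Matrix (Fin n) (Fin n) ℤ_[p])
    (hρ : ∀ σ, ∃ k l : ℕ, (ρ σ).charpoly.map (PadicInt.toZMod (p := p)) =
      (Polynomial.X - 1) ^ k * (Polynomial.X - Polynomial.C (ε σ : ZMod p)) ^ l)
    (c : G → Fin n → ℤ_[p]) (hc : Continuous c)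
    (hcc : ∀ σ τ, c (σ * τ) = c σ + (ρ σ).mulVec (c τ))
    (hI : ∀ σ ∈ I, c σ = 0) (hD : ∀ σ ∈ D, c σ = 0) :
    ∃ c' : G → Fin n → ℤ_[p], Continuous c' ∧
      (∀ σ τ, c' (σ * τ) = c' σ + (ρ σ).mulVec (c' τ)) ∧
      (∀ σ ∈ I, c' σ = 0) ∧ (∀ σ ∈ D, c' σ = 0) ∧ ∀ σ, c σ = (p : ℤ_[p]) • c' σ := by
  have hp0 : (p : ℤ_[p]) ≠ 0 := PadicInt.prime_p.ne_zero
  have hres : ∀ σ, (fun i => PadicInt.toZMod (c σ i)) = (0 : Fin n → ZMod p) := by
    refine resid I D ε h1 h2 n ((PadicInt.toZMod (p := p)).mapMatrix.toMonoidHom.comp ρ) ?_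
      (fun σ i => PadicInt.toZMod (c σ i)) ?_ ?_ ?_ ?_
    · intro σ
      obtain ⟨k, l, hkl⟩ := hρ σ
      refine ⟨k, l, ?_⟩
      rw [← hkl, ← Matrix.charpoly_map]
      rfl
    · refine continuous_pi (fun i => ?_)
      exact cont_toZMod.comp ((continuous_apply i).comp hc)
    · intro σ τ
      funext i
      show PadicInt.toZMod (c (σ * τ) i) = PadicInt.toZMod (c σ i) +
        (((ρ σ).map (PadicInt.toZMod (p := p))).mulVec (fun j => PadicInt.toZMod (c τ j))) i
      rw [hcc, Pi.add_apply, map_add, RingHom.map_mulVec]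
      rfl
    · intro σ hσ
      funext i
      show PadicInt.toZMod (c σ i) = 0
      rw [hI σ hσ, Pi.zero_apply, map_zero]
    · intro σ hσ
      funext i
      show PadicInt.toZMod (c σ i) = 0
      rw [hD σ hσ, Pi.zero_apply, map_zero]
  have hdiv : ∀ σ i, ∃ y : ℤ_[p], c σ i = (p : ℤ_[p]) * y := by
    intro σ i
    have h3 : c σ i ∈ RingHom.ker (PadicInt.toZMod (p := p)) := congrFun (hres σ) i
    rw [PadicInt.ker_toZMod, PadicInt.maximalIdeal_eq_span_p, Ideal.mem_span_singleton] at h3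
    exact h3
  choose c' hc' using hdiv
  have hinj : Function.Injective (fun y : ℤ_[p] => (p : ℤ_[p]) * y) := mul_right_injective₀ hp0
  refine ⟨c', ?_, ?_, ?_, ?_, ?_⟩
  · refine continuous_pi (fun i => ?_)
    have hemb : Topology.IsClosedEmbedding (fun y : ℤ_[p] => (p : ℤ_[p]) * y) :=
      Continuous.isClosedEmbedding (continuous_const.mul continuous_id) hinj
    rw [hemb.isInducing.continuous_iff]
    have h4 : (fun y : ℤ_[p] => (p : ℤ_[p]) * y) ∘ (fun σ => c' σ i) = fun σ => c σ i := by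
      funext σ
      exact (hc' σ i).symm
    rw [h4]
    exact (continuous_apply i).comp hc
  · intro σ τ
    funext i
    apply hinj
    show (p : ℤ_[p]) * c' (σ * τ) i = (p : ℤ_[p]) * (c' σ i + (ρ σ).mulVec (c' τ) i)
    have h5 : c τ = (p : ℤ_[p]) • c' τ := by
      funext j
      exact hc' τ j
    rw [← hc', hcc, Pi.add_apply, hc' σ i, h5, Matrix.mulVec_smul, Pi.smul_apply, smul_eq_mul,
      mul_add]
  · intro σ hσ
    funext i
    apply hinj
    show (p : ℤ_[p]) * c' σ i = (p : ℤ_[p]) * 0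
    rw [← hc', hI σ hσ, mul_zero, Pi.zero_apply]
  · intro σ hσ
    funext i
    apply hinj
    show (p : ℤ_[p]) * c' σ i = (p : ℤ_[p]) * 0
    rw [← hc', hD σ hσ, mul_zero, Pi.zero_apply]
  · intro σ
    funext i
    exact hc' σ i

/-- An element divisible by all powers of `p` is zero. -/
theorem inf_div (x : ℤ_[p]) (h : ∀ m : ℕ, ∃ y : ℤ_[p], x = (p : ℤ_[p]) ^ m * y) : x = 0 := by
  have hp : p.Prime := Fact.out
  have h1 : ∀ m : ℕ, ‖x‖ ≤ ((p : ℝ)⁻¹) ^ m := by
    intro m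
    obtain ⟨y, hy⟩ := h m
    rw [hy, norm_mul, norm_pow, PadicInt.norm_p]
    exact mul_le_of_le_one_right (by positivity) (PadicInt.norm_le_one y)
  have h2 : Filter.Tendsto (fun m : ℕ => ((p : ℝ)⁻¹) ^ m) Filter.atTop (nhds 0) := by
    refine tendsto_pow_atTop_nhds_zero_of_lt_one (by positivity) ?_
    exact inv_lt_one_of_one_lt₀ (by exact_mod_cast hp.one_lt)
  have h3 : ‖x‖ ≤ 0 := ge_of_tendsto' h2 h1
  exact norm_le_zero_iff.1 h3

end FILN

theorem t_fil : T_fil := by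
  intro p _ G _ _ _ I D ε h1 h2 n ρ _ hρ c hc hcc hI hD
  have key : ∀ m : ℕ, ∃ c' : G → Fin n → ℤ_[p], Continuous c' ∧
      (∀ σ τ, c' (σ * τ) = c' σ + (ρ σ).mulVec (c' τ)) ∧
      (∀ σ ∈ I, c' σ = 0) ∧ (∀ σ ∈ D, c' σ = 0) ∧ ∀ σ, c σ = (p : ℤ_[p]) ^ m • c' σ := by
    intro m
    induction m with
    | zero => exact ⟨c, hc, hcc, hI, hD, fun σ => by rw [pow_zero, one_smul]⟩
    | succ m ih =>
      obtain ⟨c₁, hc₁, hcc₁, hI₁, hD₁, he₁⟩ := ih
      obtain ⟨c₂, hc₂, hcc₂, hI₂, hD₂, he₂⟩ :=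
        FILN.lift I D ε h1 h2 n ρ hρ c₁ hc₁ hcc₁ hI₁ hD₁
      refine ⟨c₂, hc₂, hcc₂, hI₂, hD₂, fun σ => ?_⟩
      rw [he₁, he₂, smul_smul, pow_succ]
  intro σ
  funext i
  refine FILN.inf_div _ (fun m => ?_)
  obtain ⟨c', _, _, _, _, he⟩ := key m
  refine ⟨c' σ i, ?_⟩
  rw [he σ]
  rfl

end Pool.Agent.H517.E
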