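import Pool.Agent.H517.E.Om

/-!
# Control by one place: part THIL
-/

set_option autoImplicit false
set_option linter.unusedSectionVars false

namespace Pool.Agent.H517.E

open NumberField IsDedekindDomain Module Pool.Agent.W401.Cheb Pool.Agent.NH7.Sch


section hil

variable {p : ℕ} [hp : Fact p.Prime]

theorem hil_pow_eq {L : Type*} [Field L] {ζ : L} (hζ : IsPrimitiveRoot ζ p) {a b : ℕ}
    (h : (a : ZMod p) = b) : ζ ^ a = ζ ^ b := by
  have h2 : a % p = b % p := (ZMod.natCast_eq_natCast_iff a b p).1 h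
  have e : ∀ n : ℕ, ζ ^ n = ζ ^ (n % p) := by
    intro n
    conv_lhs => rw [← Nat.mod_add_div n p, pow_add, pow_mul, hζ.pow_eq_one, one_pow, mul_one]
  rw [e a, e b, h2]

end hil

theorem t_hil : T_hil := by
  intro p hp K _ _ ζ hζ ε hε c hc
  obtain ⟨hcont, hcoc⟩ := hc
  have hp0 : NeZero p := ⟨hp.out.ne_zero⟩
  have hgal : IsGalois K (AlgebraicClosure K) := inferInstance
  have hc1 : c 1 = 0 := by
    have h := hcoc 1 1
    rw [mul_one, map_one, Units.val_one, one_mul] at h
    have h2 : c 1 + 0 = c 1 + c 1 := by rw [add_zero]; exact h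
    exact (add_left_cancel h2).symm
  -- the neighbourhood of one
  have hn1 : {σ : GK K | c σ = 0} ∈ nhds (1 : GK K) := by
    have : IsOpen (c ⁻¹' {0}) := (isOpen_discrete _).preimage hcont
    exact this.mem_nhds hc1
  have hn2 : {σ : GK K | σ ζ = ζ} ∈ nhds (1 : GK K) := by
    rw [krullTopology_mem_nhds_one_iff]
    have hint : IsIntegral K ζ := Algebra.IsIntegral.isIntegral ζ
    refine ⟨IntermediateField.adjoin K {ζ}, IntermediateField.adjoin.finiteDimensional hint, ?_⟩
    intro σ hσ
    exact (IntermediateField.mem_fixingSubgroup_iff _ _).1 hσ ζ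
      (IntermediateField.mem_adjoin_simple_self K ζ)
  obtain ⟨M, hfin, hnor, hM⟩ := (krullTopology_mem_nhds_one_iff_of_normal K (AlgebraicClosure K) _).1
    (Filter.inter_mem hn1 hn2)
  have hζM : ζ ∈ M := by
    rw [← InfiniteGalois.fixedField_fixingSubgroup M, IntermediateField.mem_fixedField_iff]
    intro σ hσ
    exact (hM hσ).2
  -- restriction
  have hsurj : Function.Surjective (AlgEquiv.restrictNormalHom M : GK K →* Gal(M/K)) :=
    AlgEquiv.restrictNormalHom_surjective (AlgebraicClosure K)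
  have hres : ∀ (σ : GK K) (x : M), ((AlgEquiv.restrictNormalHom M σ) x : AlgebraicClosure K) =
      σ x := fun σ x => AlgEquiv.restrictNormalHom_apply M σ x
  have hker : ∀ σ τ : GK K, AlgEquiv.restrictNormalHom M σ = AlgEquiv.restrictNormalHom M τ →
      c σ = c τ := by
    intro σ τ h
    have h1 : σ⁻¹ * τ ∈ M.fixingSubgroup := by
      rw [IntermediateField.mem_fixingSubgroup_iff]
      intro x hx
      have h2 : AlgEquiv.restrictNormalHom M (σ⁻¹ * τ) = 1 := by
        rw [map_mul, map_inv, h, inv_mul_cancel]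
      have h3 := hres (σ⁻¹ * τ) ⟨x, hx⟩
      rw [h2] at h3
      exact h3.symm
    have h2 := (hM h1).1
    have h3 := hcoc σ (σ⁻¹ * τ)
    rw [mul_inv_cancel_left] at h3
    have h4 : c (σ⁻¹ * τ) = 0 := h2
    rw [h4, mul_zero, add_zero] at h3
    exact h3.symm
  choose lift hlift using hsurj
  set ζM : M := ⟨ζ, hζM⟩ with hζMdef
  have hζM0 : ζM ≠ 0 := by
    intro h
    apply hζ.ne_zero hp.out.ne_zero
    exact congrArg Subtype.val h
  set u : Mˣ := Units.mk0 ζM hζM0 with hu
  have hcyc : groupCohomology.IsMulCocycle₁ (fun g : Gal(M/K) => u ^ (c (lift g)).val) := by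
    intro g h
    have e1 : c (lift (g * h)) = c (lift g) + (ε (lift g) : ZMod p) * c (lift h) := by
      rw [← hcoc]
      apply hker
      rw [map_mul, hlift, hlift, hlift]
    apply Units.ext
    apply Subtype.ext
    have e2 : ((g • (u ^ (c (lift h)).val) : Mˣ) : M) = g (ζM ^ (c (lift h)).val) := rfl
    rw [Units.val_mul, e2, map_pow]
    have e3 : ((g ζM : M) : AlgebraicClosure K) = ζ ^ (ε (lift g) : ZMod p).val := by
      rw [← hε]
      have := hres (lift g) ζM
      rw [hlift] at this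
      exact this
    have e4 : (((u ^ (c (lift (g * h))).val : Mˣ) : M) : AlgebraicClosure K) =
        ζ ^ (c (lift (g * h))).val := by
      rw [Units.val_pow_eq_pow_val]
      rfl
    have e5 : (((g ζM) ^ (c (lift h)).val * ((u ^ (c (lift g)).val : Mˣ) : M) : M) :
        AlgebraicClosure K) =
        (ζ ^ (ε (lift g) : ZMod p).val) ^ (c (lift h)).val * ζ ^ (c (lift g)).val := by
      rw [← e3, Units.val_pow_eq_pow_val]
      rfl
    rw [e4, e5, ← pow_mul, ← pow_add]
    apply hil_pow_eq hζ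
    rw [ZMod.natCast_zmod_val, e1]
    push_cast
    rw [ZMod.natCast_zmod_val, ZMod.natCast_zmod_val, ZMod.natCast_zmod_val]
    ring
  obtain ⟨x, hx⟩ := groupCohomology.isMulCoboundary₁_of_isMulCocycle₁_of_aut_to_units _ hcyc
  have hxx : ∀ g : Gal(M/K), g (x : M) = ζM ^ (c (lift g)).val * (x : M) := by
    intro g
    have h1 := hx g
    rw [div_eq_iff_eq_mul] at h1
    have h2 := congrArg (fun z : Mˣ => (z : M)) h1
    simpa [hu] using h2
  have hσ : ∀ σ : GK K, σ (x : M) = ζ ^ (c σ).val * ((x : M) : AlgebraicClosure K) := by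
    intro σ
    rw [← hres, hxx]
    have : c (lift (AlgEquiv.restrictNormalHom M σ)) = c σ := hker _ _ (hlift _)
    rw [this]
    rfl
  have hfix : ∀ σ : GK K, σ (((x : M) : AlgebraicClosure K) ^ p) =
      ((x : M) : AlgebraicClosure K) ^ p := by
    intro σ
    rw [map_pow, hσ, mul_pow, ← pow_mul, mul_comm _ p, pow_mul, hζ.pow_eq_one, one_pow, one_mul]
  obtain ⟨k, hk⟩ := (InfiniteGalois.mem_range_algebraMap_iff_fixed _).2 hfix
  have hx0 : ((x : M) : AlgebraicClosure K) ≠ 0 := by
    intro h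
    exact x.ne_zero (Subtype.ext h)
  have hk0 : k ≠ 0 := by
    rintro rfl
    rw [map_zero] at hk
    exact pow_ne_zero p hx0 hk.symm
  exact ⟨((x : M) : AlgebraicClosure K), Units.mk0 k hk0, hk.symm, hσ⟩

end Pool.Agent.H517.E
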