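import Pool.Agent.H517.E.Om

/-!
# Control by one place: part TLOC
-/

set_option autoImplicit false
set_option linter.unusedSectionVars false

namespace Pool.Agent.H517.E

open NumberField IsDedekindDomain Module Pool.Agent.W401.Cheb Pool.Agent.NH7.Sch


theorem loc_lt {a : WithZero (Multiplicative ℤ)} {n : ℤ} (h : a < WithZero.exp n) :
    a ≤ WithZero.exp (n - 1) := by
  rcases eq_or_ne a 0 with rfl | ha
  · exact zero_le
  · obtain ⟨m, rfl⟩ : ∃ m, a = WithZero.exp m := ⟨WithZero.log a, (WithZero.exp_log ha).symm⟩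
    rw [WithZero.exp_lt_exp] at h
    rw [WithZero.exp_le_exp]
    omega

theorem loc_field (p : ℕ) [Fact p.Prime] (K : Type) [Field K] [NumberField K]
    (ζ : AlgebraicClosure K) (hζ : IsPrimitiveRoot ζ p) (x : K) (z : AlgebraicClosure K)
    (hx : x ≠ 0) (hz : z ^ p = algebraMap K (AlgebraicClosure K) x) :
    ∃ M : IntermediateField K (AlgebraicClosure K), IsGalois K M ∧ FiniteDimensional K M ∧
      z ∈ M ∧ ∀ σ : GK K, σ ζ = ζ → σ z = z → ∀ m : M, σ (m : AlgebraicClosure K) = m := by
  have hp : 0 < p := (Fact.out : p.Prime).pos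
  have hz0 : z ≠ 0 := by
    rintro rfl
    rw [zero_pow hp.ne'] at hz
    exact hx ((map_eq_zero _).1 hz.symm)
  have : NeZero p := ⟨hp.ne'⟩
  have hzM : z ∈ IntermediateField.adjoin K ({z, ζ} : Set (AlgebraicClosure K)) :=
    IntermediateField.subset_adjoin K _ (Set.mem_insert _ _)
  have hζM : ζ ∈ IntermediateField.adjoin K ({z, ζ} : Set (AlgebraicClosure K)) :=
    IntermediateField.subset_adjoin K _ (Set.mem_insert_of_mem _ rfl)
  have hn : Normal K (IntermediateField.adjoin K ({z, ζ} : Set (AlgebraicClosure K))) := by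
    rw [IntermediateField.normal_iff_forall_map_le]
    intro σ
    rw [IntermediateField.adjoin_map, IntermediateField.adjoin_le_iff]
    rintro _ ⟨m, hm, rfl⟩
    rcases hm with rfl | hm
    · have h1 : (σ m / m) ^ p = 1 := by
        rw [div_pow, ← map_pow, hz, AlgHom.commutes, div_self]
        exact (map_ne_zero _).2 hx
      obtain ⟨i, -, hi⟩ := hζ.eq_pow_of_pow_eq_one h1
      have h2 : σ m = ζ ^ i * m := by rw [hi, div_mul_cancel₀ _ hz0]
      rw [h2]
      exact mul_mem (pow_mem hζM i) hzM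
    · rw [Set.mem_singleton_iff] at hm
      subst hm
      have h1 : (σ m) ^ p = 1 := by rw [← map_pow, hζ.pow_eq_one, map_one]
      obtain ⟨i, -, hi⟩ := hζ.eq_pow_of_pow_eq_one h1
      rw [← hi]
      exact pow_mem hζM i
  refine ⟨IntermediateField.adjoin K {z, ζ}, ?_, ?_, hzM, ?_⟩
  · exact ⟨⟩
  · have : Finite ({z, ζ} : Set (AlgebraicClosure K)) := by
      exact Set.Finite.to_subtype (by simp)
    exact IntermediateField.finiteDimensional_adjoin
      (fun y _ => (Algebra.IsAlgebraic.isAlgebraic y).isIntegral)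
  · intro σ h1 h2 m
    obtain ⟨m, hm⟩ := m
    change σ m = m
    induction hm using IntermediateField.adjoin_induction with
    | mem y hy =>
      rcases hy with rfl | hy
      · exact h2
      · rw [Set.mem_singleton_iff] at hy
        subst hy
        exact h1
    | algebraMap y => exact AlgEquiv.commutes _ _
    | add a b _ _ ha hb => rw [map_add, ha, hb]
    | inv a _ ha => rw [map_inv₀, ha]
    | mul a b _ _ ha hb => rw [map_mul, ha, hb]

theorem loc_val {K M : Type} [Field K] [Field M] [Algebra K M] (p : ℕ) [Fact p.Prime]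
    (A : Valuation K (WithZero (Multiplicative ℤ))) (V : Valuation M (WithZero (Multiplicative ℤ)))
    (e : ℕ) (he : e ∣ p - 1) (hV : ∀ a : K, V (algebraMap K M a) = A a ^ e) (x : K) (z : M)
    (hz : z ^ p = algebraMap K M x) (hx : A x = 1) (hxp : A (x - x ^ p) < 1)
    (hp : A (p : K) < 1) : A (x - x ^ p) ≤ WithZero.exp (-2 : ℤ) := by
  have hpp : p.Prime := Fact.out
  have hp2 := hpp.two_le
  have he1 : e ≤ p - 1 := Nat.le_of_dvd (by omega) he
  have he0 : e ≠ 0 := by
    rintro rfl
    have := Nat.eq_zero_of_zero_dvd he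
    omega
  have hVz : V z = 1 := by
    have h1 : V z ^ p = 1 := by rw [← map_pow, hz, hV, hx, one_pow]
    exact (pow_eq_one_iff_of_nonneg zero_le hpp.ne_zero).1 h1
  have hVx : V (algebraMap K M x) = 1 := by rw [hV, hx, one_pow]
  obtain ⟨r, hr⟩ := exists_add_pow_prime_eq hpp (⟨algebraMap K M x, hVx.le⟩ : V.integer)
    (⟨z, hVz.le⟩ - ⟨algebraMap K M x, hVx.le⟩ : V.integer)
  have hr' := congrArg (Subtype.val) hr
  rw [add_sub_cancel] at hr'
  set y : M := z - algebraMap K M x with hy
  have hr2 : z ^ p = (algebraMap K M x) ^ p + y ^ p + p * (algebraMap K M x) * y * (r : M) := by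
    simpa using hr'
  have hVr : V (r : M) ≤ 1 := r.2
  have hVy : V y ≤ 1 := (V.map_sub z (algebraMap K M x)).trans (by rw [hVz, hVx, max_self])
  have hVp : V (p : M) ≤ WithZero.exp (-(e : ℤ)) := by
    have h1 : V (p : M) = A (p : K) ^ e := by rw [← hV, map_natCast (algebraMap K M)]
    rw [h1]
    have h2 : A (p : K) ≤ WithZero.exp (-1 : ℤ) := by
      have := loc_lt (n := 0) (a := A (p : K)) (by simpa using hp)
      simpa using this
    calc A (p : K) ^ e ≤ (WithZero.exp (-1 : ℤ)) ^ e := pow_le_pow_left₀ zero_le h2 e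
      _ = WithZero.exp (-(e : ℤ)) := by
        rw [← WithZero.exp_nsmul]
        congr 1
        simp
  have hVp1 : V (p : M) < 1 := lt_of_le_of_lt hVp (by
    rw [← WithZero.exp_zero, WithZero.exp_lt_exp]
    omega)
  have hE : algebraMap K M (x - x ^ p) = y ^ p + p * (algebraMap K M x) * y * (r : M) := by
    rw [map_sub, map_pow]
    linear_combination hr2 - hz
  have hT : V (p * (algebraMap K M x) * y * (r : M)) ≤ V (p : M) * V y := by
    rw [map_mul, map_mul, map_mul, hVx, mul_one]
    exact mul_le_of_le_one_right' hVr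
  have hVE : V (algebraMap K M (x - x ^ p)) < 1 := by
    rw [hV]
    exact pow_lt_one₀ zero_le hxp he0
  have hVy1 : V y < 1 := by
    have h1 : y ^ p = algebraMap K M (x - x ^ p) - p * (algebraMap K M x) * y * (r : M) := by
      rw [hE]
      ring
    have h2 : V (y ^ p) < 1 := by
      rw [h1]
      refine lt_of_le_of_lt (V.map_sub _ _) (max_lt hVE (lt_of_le_of_lt hT ?_))
      exact lt_of_le_of_lt (mul_le_of_le_one_right' hVy) hVp1
    rw [map_pow] at h2
    exact (pow_lt_one_iff_of_nonneg zero_le hpp.ne_zero).1 h2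
  have hVy2 : V y ≤ WithZero.exp (-1 : ℤ) := by
    have := loc_lt (n := 0) (a := V y) (by simpa using hVy1)
    simpa using this
  have hF : A (x - x ^ p) ^ e ≤ WithZero.exp (-((e : ℤ) + 1)) := by
    rw [← hV, hE]
    refine (V.map_add _ _).trans (max_le ?_ (hT.trans ?_))
    · rw [map_pow]
      calc V y ^ p ≤ (WithZero.exp (-1 : ℤ)) ^ p := pow_le_pow_left₀ zero_le hVy2 p
        _ = WithZero.exp (-(p : ℤ)) := by
          rw [← WithZero.exp_nsmul]
          congr 1
          simp
        _ ≤ WithZero.exp (-((e : ℤ) + 1)) := by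
          rw [WithZero.exp_le_exp]
          omega
    · calc V (p : M) * V y ≤ WithZero.exp (-(e : ℤ)) * WithZero.exp (-1 : ℤ) :=
          mul_le_mul' hVp hVy2
        _ = WithZero.exp (-((e : ℤ) + 1)) := by
          rw [← WithZero.exp_add]
          congr 1
          ring
  by_contra hcon
  have h1 : WithZero.exp (-1 : ℤ) ≤ A (x - x ^ p) := by
    by_contra h2
    push Not at h2
    exact hcon (by simpa using loc_lt h2)
  have h3 : WithZero.exp (-(e : ℤ)) ≤ A (x - x ^ p) ^ e := by
    calc WithZero.exp (-(e : ℤ)) = (WithZero.exp (-1 : ℤ)) ^ e := by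
          rw [← WithZero.exp_nsmul]
          congr 1
          simp
      _ ≤ A (x - x ^ p) ^ e := pow_le_pow_left₀ zero_le h1 e
  have h4 := h3.trans hF
  rw [WithZero.exp_le_exp] at h4
  omega

theorem loc_fermat (K : Type) [Field K] [NumberField K] (p : ℕ)
    (v : HeightOneSpectrum (𝓞 K)) (hN : Ideal.absNorm v.asIdeal = p) (hp : p ≠ 0) (x : 𝓞 K) :
    x - x ^ p ∈ v.asIdeal := by
  have : v.asIdeal.IsMaximal := v.isMaximal
  letI := Ideal.Quotient.field v.asIdeal
  have hc : Nat.card (𝓞 K ⧸ v.asIdeal) = p := by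
    rw [← hN, Ideal.absNorm_apply, Submodule.cardQuot_apply]
  haveI : Finite (𝓞 K ⧸ v.asIdeal) := Nat.finite_of_card_ne_zero (by rw [hc]; exact hp)
  haveI := Fintype.ofFinite (𝓞 K ⧸ v.asIdeal)
  rw [← Ideal.Quotient.eq, map_pow]
  have h := FiniteField.pow_card (Ideal.Quotient.mk v.asIdeal x)
  rw [← Nat.card_eq_fintype_card, hc] at h
  exact h.symm

theorem t_loc (h : T_plc) : T_loc := by
  intro p _ K _ _ ζ hζ v Q hQ hQv hpv hN x hx z hz hfix
  have hpp : p.Prime := Fact.out
  have hx0 : (algebraMap (𝓞 K) K x) ≠ 0 := by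
    intro h0
    rw [map_eq_zero_iff _ (FaithfulSMul.algebraMap_injective (𝓞 K) K)] at h0
    exact hx (h0 ▸ zero_mem _)
  have hz' : z ^ p = algebraMap K (AlgebraicClosure K) (algebraMap (𝓞 K) K x) := by
    rw [hz, IsScalarTower.algebraMap_apply (𝓞 K) K (AlgebraicClosure K)]
  obtain ⟨M, hM1, hM2, hzM, hM3⟩ := loc_field p K ζ hζ _ z hx0 hz'
  haveI := hM1
  haveI := hM2
  haveI : NumberField M := NumberField.of_module_finite K M
  obtain ⟨w, e, he, -, hV⟩ := h p K ζ hζ M v Q hQ hQv (fun σ hσ hσζ m =>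
    hM3 σ hσζ (hfix σ hσ hσζ) m)
  have hx1 : v.valuation K (algebraMap (𝓞 K) K x) = 1 :=
    (HeightOneSpectrum.valuation_eq_one_iff_notMem (K := K) v).2 hx
  have h1 := loc_val p (v.valuation K) (w.valuation M) e he hV (algebraMap (𝓞 K) K x)
    (⟨z, hzM⟩ : M) (Subtype.ext (by simpa using hz')) hx1
    (by
      have := (HeightOneSpectrum.valuation_lt_one_iff_mem (K := K) v (x - x ^ p)).2
        (loc_fermat K p v hN hpp.ne_zero x)
      simpa using this)
    (by
      have := (HeightOneSpectrum.valuation_lt_one_iff_mem (K := K) v (p : 𝓞 K)).2 hpv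
      simpa using this)
  have h2 : v.valuation K (algebraMap (𝓞 K) K (x ^ (p - 1) - 1)) ≤ WithZero.exp (-2 : ℤ) := by
    have h3 : (algebraMap (𝓞 K) K x) - (algebraMap (𝓞 K) K x) ^ p =
        - (algebraMap (𝓞 K) K x * algebraMap (𝓞 K) K (x ^ (p - 1) - 1)) := by
      have h4 : (algebraMap (𝓞 K) K x) ^ p =
          algebraMap (𝓞 K) K x * (algebraMap (𝓞 K) K x) ^ (p - 1) := by
        rw [← pow_succ', Nat.sub_add_cancel hpp.one_le]
      rw [h4, map_sub, map_pow, map_one]
      ring
    rw [h3, Valuation.map_neg, map_mul, hx1, one_mul] at h1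
    exact h1
  rw [HeightOneSpectrum.valuation_of_algebraMap] at h2
  exact (HeightOneSpectrum.intValuation_le_pow_iff_mem v _ 2).1 (by exact_mod_cast h2)

end Pool.Agent.H517.E
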