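import Pool.Agent.H517.E.Om

/-!
# Control by one place: part TORD
-/

set_option autoImplicit false
set_option linter.unusedSectionVars false

namespace Pool.Agent.H517.E

open NumberField IsDedekindDomain Module Pool.Agent.W401.Cheb Pool.Agent.NH7.Sch



section ORD

open Polynomial IntermediateField in
theorem ord_field {p : ℕ} [Fact p.Prime] {K : Type} [Field K] [NumberField K] {ζ : AlgebraicClosure K}
    (hζ : IsPrimitiveRoot ζ p) (κ : Kˣ) {z : AlgebraicClosure K}
    (hz : z ^ p = algebraMap K (AlgebraicClosure K) κ) :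
    ∃ M : IntermediateField K (AlgebraicClosure K), IsGalois K M ∧ NumberField M ∧ z ∈ M ∧
      ∀ σ : GK K, σ ζ = ζ → σ z = z → ∀ x : M, σ (x : AlgebraicClosure K) = x := by
  classical
  have hp : p.Prime := Fact.out
  have hp0 : p ≠ 0 := hp.ne_zero
  have : NeZero p := ⟨hp0⟩
  set f : K[X] := (X ^ p - C (κ : K)) * (X ^ p - 1) with hf
  have hf0 : f ≠ 0 := by
    rw [hf]
    exact mul_ne_zero (X_pow_sub_C_ne_zero hp.pos _) (by
      rw [← C_1]; exact X_pow_sub_C_ne_zero hp.pos _)
  have hev : ∀ r : AlgebraicClosure K, aeval r f = (r ^ p - algebraMap K (AlgebraicClosure K) κ) *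
      (r ^ p - 1) := by
    intro r
    rw [hf]
    simp [aeval_C]
  have hspl : (f.map (algebraMap K (AlgebraicClosure K))).Splits := IsAlgClosed.splits _
  have hsf : f.IsSplittingField K (adjoin K (f.rootSet (AlgebraicClosure K))) :=
    adjoin_rootSet_isSplittingField hspl
  set M : IntermediateField K (AlgebraicClosure K) := adjoin K (f.rootSet (AlgebraicClosure K)) with hM
  have hfd : FiniteDimensional K M := IsSplittingField.finiteDimensional M f
  have hn : Normal K M := Normal.of_isSplittingField f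
  have hz0 : z ≠ 0 := by
    rintro rfl
    rw [zero_pow hp0] at hz
    have h1 : algebraMap K (AlgebraicClosure K) κ ≠ 0 := by
      rw [_root_.map_ne_zero]
      exact κ.ne_zero
    exact h1 hz.symm
  refine ⟨M, ⟨⟩, NumberField.of_module_finite K M, ?_, ?_⟩
  · apply subset_adjoin
    rw [mem_rootSet]
    refine ⟨hf0, ?_⟩
    rw [hev, hz, sub_self, zero_mul]
  · intro σ h1 h2
    rintro ⟨x, hx⟩
    simp only
    refine adjoin_induction K (p := fun x _ => σ x = x) ?_ ?_ ?_ ?_ ?_ hx
    · intro r hr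
      rw [mem_rootSet] at hr
      have hr2 := hr.2
      rw [hev, mul_eq_zero, sub_eq_zero, sub_eq_zero] at hr2
      have hroot : ∀ s : AlgebraicClosure K, s ^ p = 1 → σ s = s := by
        intro s hs
        obtain ⟨i, _, hi⟩ := hζ.eq_pow_of_pow_eq_one hs
        rw [← hi, map_pow, h1]
      rcases hr2 with h3 | h3
      · have h4 : (r / z) ^ p = 1 := by
          rw [div_pow, h3, hz, div_self]
          rw [_root_.map_ne_zero]
          exact κ.ne_zero
        have h5 := hroot _ h4
        rw [map_div₀, h2, div_left_inj' hz0] at h5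
        exact h5
      · exact hroot r h3
    · intro a
      exact σ.commutes a
    · intro a b _ _ ha hb
      rw [map_add, ha, hb]
    · intro a _ ha
      rw [map_inv₀, ha]
    · intro a b _ _ ha hb
      rw [map_mul, ha, hb]

end ORD

theorem t_ord (h : T_plc) : T_ord := by
  intro p hp K _ _ ζ hζ v Q hQ hQv κ z hz hfix
  have hpp : p.Prime := Fact.out
  obtain ⟨M, hG, hN, hzM, hM⟩ := ord_field hζ κ hz
  have := hG
  have := hN
  obtain ⟨w, e, he, _, hval⟩ := h p K ζ hζ M v Q hQ hQv (fun σ hσ h1 x =>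
    hM σ h1 (hfix σ hσ h1) x)
  have hz0 : z ≠ 0 := by
    rintro rfl
    rw [zero_pow hpp.ne_zero] at hz
    have h1 : algebraMap K (AlgebraicClosure K) κ ≠ 0 := by
      rw [_root_.map_ne_zero]
      exact κ.ne_zero
    exact h1 hz.symm
  have hzz : (⟨z, hzM⟩ : M) ≠ 0 := by
    intro h0
    exact hz0 (congrArg Subtype.val h0)
  let Z : Mˣ := Units.mk0 ⟨z, hzM⟩ hzz
  have hZp : ((Z ^ p : Mˣ) : M) = algebraMap K M (κ : K) := by
    apply Subtype.ext
    rw [Units.val_pow_eq_pow_val]
    exact hz
  have h1 := hval κ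
  rw [← hZp, val_od, val_od, od_pow, ← WithZero.exp_nsmul, nsmul_eq_mul, WithZero.exp_inj] at h1
  have h2 : (p : ℤ) ∣ (e : ℤ) * od v κ := ⟨od w Z, h1.symm⟩
  have h3 : IsCoprime (p : ℤ) (e : ℤ) := by
    rw [Nat.isCoprime_iff_coprime, Nat.Prime.coprime_iff_not_dvd hpp]
    intro h4
    have h5 := h4.trans he
    have h6 : 0 < p - 1 := Nat.sub_pos_of_lt hpp.one_lt
    have h7 := Nat.le_of_dvd h6 h5
    omega
  exact h3.dvd_of_dvd_mul_left h2

end Pool.Agent.H517.E

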