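import Pool.Agent.H517.E.Om

/-!
# Control by one place: part TPLC
-/

set_option autoImplicit false
set_option linter.unusedSectionVars false

namespace Pool.Agent.H517.E

open NumberField IsDedekindDomain Module Pool.Agent.W401.Cheb Pool.Agent.NH7.Sch


theorem t_plc : T_plc := by
  intro p hp K _ _ ζ hζ M _ hM v Q hQ hQv htriv
  have hp0 : NeZero p := ⟨hp.out.ne_zero⟩
  set P : Ideal (𝓞 M) := Q.comap (algebraMap (𝓞 M) (OO K)) with hP
  have hPm : P.IsMaximal := Ideal.isMaximal_comap_of_isIntegral_of_isMaximal Q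
  have hG1 : IsGaloisGroup (M ≃ₐ[K] M) (𝓞 K) (𝓞 M) :=
    IsGaloisGroup.of_isFractionRing (M ≃ₐ[K] M) (𝓞 K) (𝓞 M) K M
  have hP0 : P ≠ ⊥ := Ideal.IsMaximal.ne_bot_of_isIntegral_int P
  have hover : P.LiesOver v.asIdeal := by
    refine ⟨?_⟩
    rw [← hQv, Ideal.under_def, hP, Ideal.comap_comap]
    rfl
  let w : HeightOneSpectrum (𝓞 M) := ⟨P, hPm.isPrime, hP0⟩
  have e1 : Nat.card (P.inertia (M ≃ₐ[K] M)) = P.ramificationIdx (𝓞 K) := by
    rw [Ideal.card_inertia_eq_ramificationIdxIn (P.under (𝓞 K)),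
      Ideal.ramificationIdxIn_eq_ramificationIdx (P.under (𝓞 K)) P (M ≃ₐ[K] M)]
  have e3 : Ideal.ramificationIdx' v.asIdeal P = Nat.card (P.inertia (M ≃ₐ[K] M)) := by
    rw [Ideal.ramificationIdx'_eq_ramificationIdx v.asIdeal P v.ne_bot, ← e1]
  let r : Inr Q →* (M ≃ₐ[K] M) := (AlgEquiv.restrictNormalHom M).comp (Inr Q).subtype
  let a : Inr Q →* (ZMod p)ˣ := (hζ.autToPow K).comp (Inr Q).subtype
  have hr : ∀ (τ : Inr Q) (x : M), ((r τ x : M) : AlgebraicClosure K) =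
      (τ : GK K) (x : AlgebraicClosure K) := fun τ x =>
    AlgEquiv.restrictNormal_commutes (τ : GK K) M x
  have hker : a.ker ≤ r.ker := by
    intro τ hτ
    rw [MonoidHom.mem_ker] at hτ ⊢
    have h1 := hζ.autToPow_spec K (τ : GK K)
    have h2 : hζ.autToPow K (τ : GK K) = 1 := hτ
    have h3 : (τ : GK K) ζ = ζ := by
      rw [← h1, h2]
      have : Fact (1 < p) := ⟨hp.out.one_lt⟩
      rw [Units.val_one, ZMod.val_one, pow_one]
    apply AlgEquiv.ext
    intro x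
    apply Subtype.ext
    rw [hr]
    exact htriv τ τ.2 h3 x
  have hin : P.inertia (M ≃ₐ[K] M) ≤ r.range := by
    intro γ hγ
    obtain ⟨τ, hτ, hτγ⟩ := inr_lift M hQ γ (fun a => hγ a)
    refine ⟨⟨τ, hτ⟩, ?_⟩
    apply AlgEquiv.ext
    intro x
    apply Subtype.ext
    rw [hr, ← hτγ]
  have hcard : Nat.card (P.inertia (M ≃ₐ[K] M)) ∣ p - 1 := by
    refine (Subgroup.card_dvd_of_le hin).trans ?_
    rw [← Subgroup.index_ker r]
    refine (Subgroup.index_dvd_of_le hker).trans ?_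
    rw [Subgroup.index_ker a]
    refine (Subgroup.card_subgroup_dvd_card a.range).trans ?_
    rw [Nat.card_eq_fintype_card, ZMod.card_units]
  refine ⟨w, Nat.card (P.inertia (M ≃ₐ[K] M)), hcard, rfl, fun x => ?_⟩
  have hl : w.asIdeal.LiesOver v.asIdeal := hover
  rw [← HeightOneSpectrum.valuation_liesOver M v w x]
  change v.valuation K x ^ (Ideal.ramificationIdx' v.asIdeal P) = _
  rw [e3]

end Pool.Agent.H517.E
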