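import Pool.Agent.H517.E.Om

/-!
# Control by one place: part TRAM
-/

set_option autoImplicit false
set_option linter.unusedSectionVars false

namespace Pool.Agent.H517.E

open NumberField IsDedekindDomain Module Pool.Agent.W401.Cheb Pool.Agent.NH7.Sch


theorem H79_val {K : Type} [Field K] [NumberField K] {v : HeightOneSpectrum (𝓞 K)} {p : ℕ}
    (h0 : p ≠ 0) (h1 : (p : 𝓞 K) ∈ v.asIdeal) (h2 : (p : 𝓞 K) ∉ v.asIdeal ^ 2) :
    v.valuation K (p : K) = WithZero.exp (-1 : ℤ) := by
  have e0 : (p : K) = algebraMap (𝓞 K) K (p : 𝓞 K) := by rw [map_natCast]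
  have h3 : v.intValuation (p : 𝓞 K) ≤ WithZero.exp (-((1 : ℕ) : ℤ)) := by
    rw [HeightOneSpectrum.intValuation_le_pow_iff_mem, pow_one]
    exact h1
  have h4 : ¬ v.intValuation (p : 𝓞 K) ≤ WithZero.exp (-((2 : ℕ) : ℤ)) := by
    rw [HeightOneSpectrum.intValuation_le_pow_iff_mem]
    exact h2
  have hp0 : (p : K) ≠ 0 := Nat.cast_ne_zero.2 h0
  have h5 : v.valuation K (p : K) ≠ 0 := (Valuation.ne_zero_iff _).2 hp0
  obtain ⟨m, hm⟩ : ∃ m : ℤ, v.valuation K (p : K) = WithZero.exp m :=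
    ⟨WithZero.log (v.valuation K (p : K)), (WithZero.exp_log h5).symm⟩
  rw [e0, HeightOneSpectrum.valuation_of_algebraMap] at hm
  rw [hm, WithZero.exp_le_exp] at h3 h4
  rw [e0, HeightOneSpectrum.valuation_of_algebraMap, hm]
  congr 1
  push_cast at h3 h4
  omega

/-- the factors have the same valuation -/
theorem H79_fac {M : Type} [Field M] [NumberField M] (w : HeightOneSpectrum (𝓞 M)) {p : ℕ}
    [Fact p.Prime] {z : M} (hz : IsPrimitiveRoot z p) :
    w.valuation M (p : M) = w.valuation M (1 - z) ^ (p - 1) := by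
  have hp := (Fact.out : p.Prime)
  have hint : ∀ i : ℕ, ∀ j : ℕ, w.valuation M (1 - (z ^ i) ^ j) ≤ w.valuation M (1 - z ^ i) := by
    intro i j
    have hzi : IsIntegral ℤ (z ^ i) :=
      IsIntegral.pow (IsIntegral.of_pow hp.pos (by rw [hz.pow_eq_one]; exact isIntegral_one)) i
    have h1 : (1 - (z ^ i) ^ j) = (1 - z ^ i) * ∑ k ∈ Finset.range j, (z ^ i) ^ k :=
      (mul_neg_geom_sum (z ^ i) j).symm
    have h2 : IsIntegral ℤ (∑ k ∈ Finset.range j, (z ^ i) ^ k) :=
      IsIntegral.sum _ fun k _ => hzi.pow k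
    have h3 : w.valuation M (∑ k ∈ Finset.range j, (z ^ i) ^ k) ≤ 1 :=
      w.valuation_le_one (K := M) (⟨_, h2⟩ : 𝓞 M)
    rw [h1, map_mul]
    exact mul_le_of_le_one_right' h3
  have heq : ∀ i ∈ Finset.range (p - 1), w.valuation M (1 - z ^ (i + 1)) =
      w.valuation M (1 - z) := by
    intro i hi
    rw [Finset.mem_range] at hi
    apply le_antisymm
    · have := hint 1 (i + 1)
      rwa [pow_one] at this
    · have hcop : Nat.Coprime (i + 1) p :=
        (Nat.coprime_of_lt_prime (by omega) (by omega) hp).symm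
      obtain ⟨j, -, hj⟩ := Nat.exists_mul_mod_eq_one_of_coprime hcop hp.one_lt
      have h4 := hint (i + 1) j
      rwa [← pow_mul, ← Nat.div_add_mod ((i + 1) * j) p, hj, pow_add, pow_mul, hz.pow_eq_one,
        one_pow, one_mul, pow_one] at h4
  have hp1 : p = (p - 1) + 1 := by have := hp.pos; omega
  have h5 : ∏ i ∈ Finset.range (p - 1), (1 - z ^ (i + 1)) = (((p - 1 : ℕ) : M) + 1) := by
    rw [hp1] at hz
    exact hz.prod_one_sub_pow_eq_order
  have h6 : (p : M) = ∏ i ∈ Finset.range (p - 1), (1 - z ^ (i + 1)) := by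
    rw [h5]
    conv_lhs => rw [hp1]
    push_cast
    rfl
  rw [h6, map_prod, Finset.prod_congr rfl heq, Finset.prod_const, Finset.card_range]

theorem t_ram : T_ram := by
  intro p _ hp2 K _ _ ζ hζ v Q hQ hQv hpv hpv2
  have hp := (Fact.out : p.Prime)
  have : NeZero p := ⟨hp.ne_zero⟩
  by_contra hcon
  push Not at hcon
  let M : IntermediateField K (AlgebraicClosure K) := IntermediateField.adjoin K {ζ}
  have hcyc : IsCyclotomicExtension {p} K M :=
    hζ.intermediateField_adjoin_isCyclotomicExtension K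
  have hgal : IsGalois K M := IsCyclotomicExtension.isGalois {p} K M
  have hfin : FiniteDimensional K M := IsCyclotomicExtension.finiteDimensional {p} K M
  have hnf : NumberField M := NumberField.of_module_finite K M
  have htriv : ∀ σ ∈ Inr Q, ∀ x : M, σ (x : AlgebraicClosure K) = x := by
    intro σ hσ x
    obtain ⟨x, hx⟩ := x
    refine IntermediateField.adjoin_induction K (p := fun x _ => σ x = x) ?_ ?_ ?_ ?_ ?_ hx
    · intro y hy
      rw [Set.mem_singleton_iff] at hy
      rw [hy]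
      exact hcon σ hσ
    · intro y
      exact σ.commutes y
    · intro a b _ _ ha hb
      rw [map_add, ha, hb]
    · intro a _ ha
      rw [map_inv₀, ha]
    · intro a b _ _ ha hb
      rw [map_mul, ha, hb]
  obtain ⟨w, -, hw⟩ := exists_place M hQ hQv htriv
  have h1 := H79_val hp.ne_zero hpv hpv2
  rw [← hw, map_natCast] at h1
  let z : M := ⟨ζ, IntermediateField.mem_adjoin_simple_self K ζ⟩
  have hz : IsPrimitiveRoot z p :=
    IsPrimitiveRoot.of_map_of_injective (f := M.val) (by exact hζ) M.val.injective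
  rw [H79_fac w hz] at h1
  have h2 : w.valuation M (1 - z) ≠ 0 := by
    intro h
    rw [h, zero_pow (by have := hp.two_le; omega)] at h1
    exact WithZero.exp_ne_zero h1.symm
  obtain ⟨m, hm⟩ : ∃ m : ℤ, w.valuation M (1 - z) = WithZero.exp m :=
    ⟨WithZero.log _, (WithZero.exp_log h2).symm⟩
  rw [hm, ← WithZero.exp_nsmul, nsmul_eq_mul, WithZero.exp_inj] at h1
  have h3 : ((p - 1 : ℕ) : ℤ) ∣ 1 := ⟨-m, by linarith⟩
  have h4 : (p - 1 : ℕ) ∣ 1 := by exact_mod_cast h3
  have h5 := Nat.dvd_one.1 h4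
  omega

end Pool.Agent.H517.E
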