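import Pool.Agent.H517.E.Om

/-!
# Control by one place: part TTWO
-/

set_option autoImplicit false
set_option linter.unusedSectionVars false

namespace Pool.Agent.H517.E

open NumberField IsDedekindDomain Module Pool.Agent.W401.Cheb Pool.Agent.NH7.Sch


theorem two_units : ∀ u : (ZMod 3)ˣ, u = 1 ∨ u = -1 := by decide

theorem two_zero : ∀ x y : ZMod 3, x + y = 0 → x - y = 0 → x = 0 := by decide

theorem t_two (h : T_ext) : T_two := by
  intro G _ _ _ M D I ε hop hM hδ hI hIc hC1 hCε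
  obtain ⟨δ₀, hδD, hδM⟩ := hδ
  have hN : M.Normal := ⟨fun n hn g => by
    rw [hM] at hn ⊢
    rw [map_mul, map_mul, hn, mul_one, map_inv, mul_inv_cancel]⟩
  have hεδ : ε δ₀ = -1 := (two_units _).resolve_left fun h1 => hδM ((hM _).2 h1)
  have hε1 : ∀ g, g ∉ M → ε g = -1 := fun g hg =>
    (two_units _).resolve_left fun h1 => hg ((hM _).2 h1)
  have hcov : ∀ g, ∃ δ ∈ D, δ⁻¹ * g ∈ M := by
    intro g
    by_cases hg : g ∈ M
    · exact ⟨1, D.one_mem, by rwa [inv_one, one_mul]⟩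
    · refine ⟨δ₀, hδD, ?_⟩
      rw [hM, map_mul, map_inv, hεδ, hε1 g hg]
      decide
  intro f hf hfI hfD
  obtain ⟨hfc, hfh⟩ := hf
  have hfh' : ∀ σ τ : M, f (σ * τ) = f σ + f τ := by
    intro σ τ
    rw [hfh, MonoidHom.one_apply, Units.val_one, one_mul]
  have hf1 : f 1 = 0 := hfD 1 D.one_mem
  have hfinv : ∀ σ : M, f σ⁻¹ = - f σ := by
    intro σ
    have h1 := hfh' σ σ⁻¹
    rw [mul_inv_cancel, hf1] at h1
    exact (neg_eq_of_add_eq_zero_right h1.symm).symm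
  have hconjM : ∀ (σ τ m : M), (τ : G) = (m : G)⁻¹ * σ * m → f τ = f σ := by
    intro σ τ m hτ
    have e1 : τ = m⁻¹ * σ * m := Subtype.ext hτ
    rw [e1, hfh', hfh', hfinv]
    ring
  -- the conjugate
  have hcj : ∀ σ : M, δ₀⁻¹ * (σ : G) * δ₀ ∈ M := by
    intro σ
    have := hN.conj_mem _ σ.2 δ₀⁻¹
    rwa [inv_inv] at this
  obtain ⟨k, hk⟩ : ∃ k : M → M, ∀ σ : M, ((k σ : M) : G) = δ₀⁻¹ * (σ : G) * δ₀ :=
    ⟨fun σ => ⟨_, hcj σ⟩, fun σ => rfl⟩
  have hkc : Continuous k := by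
    rw [continuous_induced_rng]
    have : (Subtype.val ∘ k : M → G) = fun σ : M => δ₀⁻¹ * (σ : G) * δ₀ := funext hk
    rw [this]
    exact (continuous_const.mul continuous_subtype_val).mul continuous_const
  have hkm : ∀ σ τ : M, k (σ * τ) = k σ * k τ := by
    intro σ τ
    apply Subtype.ext
    rw [hk, Subgroup.coe_mul, Subgroup.coe_mul, hk, hk]
    group
  have hkD : ∀ σ : M, (σ : G) ∈ D → ((k σ : M) : G) ∈ D := by
    intro σ hσ
    rw [hk]
    exact D.mul_mem (D.mul_mem (D.inv_mem hδD) hσ) hδD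
  have hkI : ∀ σ : M, (σ : G) ∈ I → ((k σ : M) : G) ∈ I := by
    intro σ hσ
    rw [hk]
    have := hIc δ₀⁻¹ _ hσ
    rwa [inv_inv] at this
  -- conjugation by an element of `M`
  have hin : ∀ δ ∈ M, ∀ σ τ : M, (τ : G) = δ⁻¹ * σ * δ → f τ = f σ ∧ f (k τ) = f (k σ) := by
    intro δ hδ σ τ hτ
    refine ⟨hconjM σ τ ⟨δ, hδ⟩ hτ, hconjM (k σ) (k τ) ⟨_, hcj ⟨δ, hδ⟩⟩ ?_⟩
    change ((k τ : M) : G) = (δ₀⁻¹ * δ * δ₀)⁻¹ * (k σ : M) * (δ₀⁻¹ * δ * δ₀)
    rw [hk, hk, hτ]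
    group
  have hout : ∀ δ, δ ∉ M → ∀ σ τ : M, (τ : G) = δ⁻¹ * σ * δ → f τ = f (k σ) ∧ f (k τ) = f σ := by
    intro δ hδ σ τ hτ
    have h1 : δ₀⁻¹ * δ ∈ M := by
      rw [hM, map_mul, map_inv, hεδ, hε1 δ hδ]
      decide
    have h2 : δ * δ₀ ∈ M := by
      rw [hM, map_mul, hεδ, hε1 δ hδ]
      decide
    refine ⟨hconjM (k σ) τ ⟨_, h1⟩ ?_, hconjM σ (k τ) ⟨_, h2⟩ ?_⟩
    · change (τ : G) = (δ₀⁻¹ * δ)⁻¹ * (k σ : M) * (δ₀⁻¹ * δ)
      rw [hk, hτ]
      group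
    · change ((k τ : M) : G) = (δ * δ₀)⁻¹ * (σ : G) * (δ * δ₀)
      rw [hk, hτ]
      group
  -- the sum
  have hsum : ∀ σ : M, f σ + f (k σ) = 0 := by
    obtain ⟨c, hc1, hc2, hc3⟩ := h 3 G M D 1 hN hop hcov (fun σ => f σ + f (k σ))
      ⟨hfc.add (hfc.comp hkc), by
        intro σ τ
        have : ((1 : G →* (ZMod 3)ˣ).comp M.subtype) σ = 1 := rfl
        rw [this, Units.val_one, one_mul]
        beta_reduce
        rw [hkm, hfh', hfh']
        ring⟩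
      (by
        intro σ hσ
        beta_reduce
        rw [hfD σ hσ, hfD (k σ) (hkD σ hσ), add_zero])
      (by
        intro δ hδ σ τ hτ
        rw [MonoidHom.one_apply, Units.val_one, one_mul]
        by_cases hm : δ ∈ M
        · obtain ⟨h1, h2⟩ := hin δ hm σ τ hτ
          rw [h1, h2]
        · obtain ⟨h1, h2⟩ := hout δ hm σ τ hτ
          rw [h1, h2, add_comm])
    have hz := hC1 c hc1 (by
      intro σ hσ
      have := hc3 ⟨σ, hI σ hσ⟩
      rw [hfI ⟨σ, hI σ hσ⟩ hσ, hfI (k ⟨σ, hI σ hσ⟩) (hkI ⟨σ, hI σ hσ⟩ hσ), add_zero] at this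
      exact this) hc2
    intro σ
    rw [← hc3 σ]
    exact hz σ
  have hdif : ∀ σ : M, f σ - f (k σ) = 0 := by
    obtain ⟨c, hc1, hc2, hc3⟩ := h 3 G M D ε hN hop hcov (fun σ => f σ - f (k σ))
      ⟨hfc.sub (hfc.comp hkc), by
        intro σ τ
        have : (ε.comp M.subtype) σ = 1 := (hM σ).1 σ.2
        rw [this, Units.val_one, one_mul]
        beta_reduce
        rw [hkm, hfh', hfh']
        ring⟩
      (by
        intro σ hσ
        beta_reduce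
        rw [hfD σ hσ, hfD (k σ) (hkD σ hσ), sub_zero])
      (by
        intro δ hδ σ τ hτ
        by_cases hm : δ ∈ M
        · obtain ⟨h1, h2⟩ := hin δ hm σ τ hτ
          rw [(hM δ).1 hm, Units.val_one, one_mul, h1, h2]
        · obtain ⟨h1, h2⟩ := hout δ hm σ τ hτ
          rw [hε1 δ hm, h1, h2, Units.val_neg, Units.val_one]
          ring)
    have hz := hCε c hc1 (by
      intro σ hσ
      have := hc3 ⟨σ, hI σ hσ⟩
      rw [hfI ⟨σ, hI σ hσ⟩ hσ, hfI (k ⟨σ, hI σ hσ⟩) (hkI ⟨σ, hI σ hσ⟩ hσ), sub_zero] at this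
      exact this) hc2
    intro σ
    rw [← hc3 σ]
    exact hz σ
  intro σ
  exact two_zero _ _ (hsum σ) (hdif σ)

end Pool.Agent.H517.E
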