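import Pool.Agent.H517.E.Om

/-!
# Control by one place: part TUNI
-/

set_option autoImplicit false
set_option linter.unusedSectionVars false

namespace Pool.Agent.H517.E

open NumberField IsDedekindDomain Module Pool.Agent.W401.Cheb Pool.Agent.NH7.Sch


theorem uni_torsion (K : Type) [Field K] [NumberField K] (h2 : finrank ℚ K = 2)
    (hK : IsEmpty (K →+* ℝ)) (u : (𝓞 K)ˣ) : u ∈ NumberField.Units.torsion K := by
  have hreal : InfinitePlace.nrRealPlaces K = 0 := by
    refine NumberField.nrRealPlaces_eq_zero_iff.2 ⟨fun v => ?_⟩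
    refine InfinitePlace.not_isReal_iff_isComplex.1 fun hv => ?_
    exact hK.elim (InfinitePlace.embedding_of_isReal hv)
  have h3 := InfinitePlace.card_add_two_mul_card_eq_rank K
  have hcx : InfinitePlace.nrComplexPlaces K = 1 := by omega
  have hrank : NumberField.Units.rank K = 0 := by
    unfold NumberField.Units.rank
    rw [InfinitePlace.card_eq_nrRealPlaces_add_nrComplexPlaces, hreal, hcx]
  obtain ⟨⟨x, e⟩, hxu, -⟩ := NumberField.Units.exist_unique_eq_mul_prod K u
  have hempty : IsEmpty (Fin (NumberField.Units.rank K)) := by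
    rw [hrank]
    infer_instance
  have hp : (∏ i, NumberField.Units.fundSystem K i ^ (x, e).2 i : (𝓞 K)ˣ) = 1 :=
    Fintype.prod_empty _
  rw [hp, mul_one] at hxu
  rw [hxu]
  exact x.2

/-- no primitive `p`-th root of unity -/
theorem uni_no_root {R : Type} [CommRing R] [IsDomain R] (p : ℕ) (hp : p.Prime) (hp2 : p ≠ 2)
    (I J : Ideal R) (hI : I.IsMaximal) (hJ : J.IsMaximal) (hne : I ≠ J)
    (hw : I * J = Ideal.span {(p : R)}) (ζ : R) (hζ : IsPrimitiveRoot ζ p) : False := by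
  have hp3 : 3 ≤ p := by
    have := hp.two_le
    omega
  obtain ⟨n, hn⟩ : ∃ n : ℕ, p = n + 1 := ⟨p - 1, by omega⟩
  have hprod : ∏ k ∈ Finset.range n, (1 - ζ ^ (k + 1)) = (p : R) := by
    have h1 := IsPrimitiveRoot.prod_one_sub_pow_eq_order (n := n) (μ := ζ) (by rw [← hn]; exact hζ)
    rw [h1, hn]
    push_cast
    rfl
  have hdvd : (1 - ζ) ^ n ∣ (p : R) := by
    rw [← hprod]
    have h1 : ∏ k ∈ Finset.range n, (1 - ζ) ∣ ∏ k ∈ Finset.range n, (1 - ζ ^ (k + 1)) := by
      refine Finset.prod_dvd_prod_of_dvd _ _ fun k _ => ?_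
      have := sub_dvd_pow_sub_pow (1 : R) ζ (k + 1)
      rwa [one_pow] at this
    rwa [Finset.prod_const, Finset.card_range] at h1
  have hmem : ∀ v : Ideal R, v.IsPrime → (p : R) ∈ v → 1 - ζ ∈ v := by
    intro v hvp hv
    rw [← hprod] at hv
    obtain ⟨k, hk, hkv⟩ := (hvp.prod_mem_iff).1 hv
    rw [Finset.mem_range] at hk
    have hcop : (k + 1).Coprime p := by
      rw [Nat.coprime_comm, hp.coprime_iff_not_dvd]
      intro h
      have := Nat.le_of_dvd (by omega) h
      omega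
    obtain ⟨j, hj⟩ := Nat.exists_mul_mod_eq_one_of_coprime hcop (by omega)
    have e : (ζ ^ (k + 1)) ^ j = ζ := by
      rw [← pow_mul, pow_eq_pow_mod _ hζ.pow_eq_one, hj.2, pow_one]
    have h2 : 1 - ζ ^ (k + 1) ∣ 1 - ζ := by
      have := sub_dvd_pow_sub_pow (1 : R) (ζ ^ (k + 1)) j
      rwa [one_pow, e] at this
    exact v.mem_of_dvd h2 hkv
  have h1 : (p : R) ∈ I * J := by
    rw [hw]
    exact Ideal.mem_span_singleton_self _
  have hco : I ⊔ J = ⊤ := Ideal.IsMaximal.coprime_of_ne hI hJ hne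
  rw [Ideal.mul_eq_inf_of_coprime hco] at h1 hw
  have h3 : 1 - ζ ∈ I ⊓ J := ⟨hmem I hI.isPrime h1.1, hmem J hJ.isPrime h1.2⟩
  have h4 : (p : R) ∣ 1 - ζ := by
    rw [← Ideal.mem_span_singleton, ← hw]
    exact h3
  have h5 : (1 - ζ) ^ 2 ∣ 1 - ζ := (pow_dvd_pow _ (by omega)).trans (hdvd.trans h4)
  have h0 : 1 - ζ ≠ 0 := by
    intro h
    exact hζ.ne_one (by omega) (sub_eq_zero.1 h).symm
  have h8 : IsUnit (1 - ζ) := by
    obtain ⟨c, hc⟩ := h5
    refine IsUnit.of_mul_eq_one c ?_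
    apply mul_left_cancel₀ h0
    linear_combination -hc
  exact hI.ne_top (Ideal.eq_top_of_isUnit_mem _ h3.1 h8)

theorem t_uni : T_uni := by
  intro p hpf hp2 K _ _ hdeg hK w w' hne hw u
  have hp := hpf.out
  have hu := uni_torsion K hdeg hK u
  have hnd : ¬ p ∣ Nat.card (NumberField.Units.torsion K) := by
    intro hdvd
    obtain ⟨x, hx⟩ := exists_prime_orderOf_dvd_card' p hdvd
    have h1 : orderOf ((x : (𝓞 K)ˣ) : 𝓞 K) = p := by
      rw [orderOf_units, Subgroup.orderOf_coe, hx]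
    have h2 : IsPrimitiveRoot ((x : (𝓞 K)ˣ) : 𝓞 K) p := by
      rw [← h1]
      exact IsPrimitiveRoot.orderOf _
    exact uni_no_root p hp hp2 w.asIdeal w'.asIdeal w.isMaximal w'.isMaximal
      (fun h => hne (HeightOneSpectrum.ext h)) hw _ h2
  have hcop : (Nat.card (NumberField.Units.torsion K)).Coprime p := by
    rw [Nat.coprime_comm, hp.coprime_iff_not_dvd]
    exact hnd
  obtain ⟨y, hy⟩ := (powCoprime hcop).surjective ⟨u, hu⟩
  refine ⟨(y : (𝓞 K)ˣ), ?_⟩
  have h1 := congrArg Subtype.val hy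
  exact h1.symm

end Pool.Agent.H517.E
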