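import Pool.Agent.H517.E.Ari
import Pool.Agent.H517.E.PExt
import Pool.Agent.H517.E.PAbs
import Pool.Agent.H517.E.PTwo
import Pool.Agent.H517.E.PFil
import Pool.Agent.H517.E.PHil
import Pool.Agent.H517.E.PPlc
import Pool.Agent.H517.E.POrd
import Pool.Agent.H517.E.PLoc
import Pool.Agent.H517.E.PRam
import Pool.Agent.H517.E.PCub
import Pool.Agent.H517.E.PUni

/-!
# Control by one place over the towers: the results
-/

set_option autoImplicit false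
set_option linter.unusedSectionVars false

namespace Pool.Agent.H517.E

open NumberField IsDedekindDomain Module Pool.Agent.W401.Cheb Pool.Agent.NH7.Sch

variable {K : Type} [Field K] [NumberField K] {p : ℕ} [hp : Fact p.Prime]

/-- **Control over the towers.** -/
theorem ctl_field {T : Set (HeightOneSpectrum (𝓞 K))} {w : HeightOneSpectrum (𝓞 K)}
    (hrc : S.RC p T w) (hi : Ind p T w) {ζ : AlgebraicClosure K} (hζ : IsPrimitiveRoot ζ p)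
    {ε : GK K →* (ZMod p)ˣ} (hε : ∀ σ : GK K, σ ζ = ζ ^ (ε σ : ZMod p).val)
    {H M : Subgroup (GK K)} (hMH : M ≤ H) (hMn : M.Normal) (hMi : ∃ a : ℕ, M.index = p ^ a)
    (hMo : IsOpen (M : Set (GK K))) (hIM : ∀ x ∈ S.IS T w, x ∈ M) {Q : Ideal (OO K)}
    (hQ : Q.IsMaximal) (hQw : Q.comap (algebraMap (𝓞 K) (OO K)) = w.asIdeal) :
    Ctl (1 : H →* (ZMod p)ˣ) {σ : H | (σ : GK K) ∈ S.IS T w} {σ : H | (σ : GK K) ∈ Dec Q} ∧
    Ctl (ε.comp H.subtype) {σ : H | (σ : GK K) ∈ S.IS T w} {σ : H | (σ : GK K) ∈ Dec Q} := by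
  obtain ⟨h2, h3⟩ := ctl_cyc t_hil (t_ord t_plc) hi hζ hε hQ hQw
  exact ctl_mid (t_abs t_ext) (fun g σ hσ => S.IS_conj g σ hσ) (ctl_one hrc hQ hQw) h2 h3 hMH hMn hMi
    hMo hIM

/-- **The vanishing over the towers.** -/
theorem van_field {T : Set (HeightOneSpectrum (𝓞 K))} {w : HeightOneSpectrum (𝓞 K)}
    (hrc : S.RC p T w) (hi : Ind p T w)
    {H M : Subgroup (GK K)} (hMH : M ≤ H) (hMn : M.Normal) (hMi : ∃ a : ℕ, M.index = p ^ a)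
    (hMo : IsOpen (M : Set (GK K))) (hIM : ∀ x ∈ S.IS T w, x ∈ M) {Q : Ideal (OO K)}
    (hQ : Q.IsMaximal) (hQw : Q.comap (algebraMap (𝓞 K) (OO K)) = w.asIdeal)
    {n : ℕ} {ρ : H →* Matrix (Fin n) (Fin n) ℤ_[p]} (hρ : Continuous ρ)
    (hres : ∀ (σ : H) (ζ : AlgebraicClosure K) (a : ℕ), IsPrimitiveRoot ζ p →
      (σ : GK K) ζ = ζ ^ a → ∃ k l : ℕ, (ρ σ).charpoly.map (PadicInt.toZMod (p := p)) =
        (Polynomial.X - 1) ^ k * (Polynomial.X - Polynomial.C (a : ZMod p)) ^ l)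
    (hρI : ∀ σ : H, (σ : GK K) ∈ S.IS T w → ρ σ = 1) {c : H → Fin n → ℚ_[p]} (hc : Continuous c)
    (hcoc : ∀ σ τ, c (σ * τ) = c σ + ((ρ σ).map (algebraMap ℤ_[p] ℚ_[p])).mulVec (c τ))
    (hI : ∀ σ : H, (σ : GK K) ∈ S.IS T w → c σ = 0)
    (hD : ∃ y, ∀ σ : H, (σ : GK K) ∈ Dec Q →
      c σ = ((ρ σ).map (algebraMap ℤ_[p] ℚ_[p])).mulVec y - y) :
    ∃ y, ∀ σ, c σ = ((ρ σ).map (algebraMap ℤ_[p] ℚ_[p])).mulVec y - y := by
  obtain ⟨ζ, hζ⟩ : ∃ ζ : AlgebraicClosure K, IsPrimitiveRoot ζ p :=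
    HasEnoughRootsOfUnity.exists_primitiveRoot (AlgebraicClosure K) p
  obtain ⟨ε, hε⟩ : ∃ ε : GK K →* (ZMod p)ˣ, ∀ σ : GK K, σ ζ = ζ ^ (ε σ : ZMod p).val :=
    ⟨hζ.autToPow K, fun σ => (hζ.autToPow_spec K σ).symm⟩
  obtain ⟨h1, h2⟩ := ctl_field hrc hi hζ hε hMH hMn hMi hMo hIM hQ hQw
  have hcl : IsClosed (H : Set (GK K)) :=
    Subgroup.isClosed_of_isOpen H (Subgroup.isOpen_mono hMH hMo)
  have : CompactSpace H := isCompact_iff_compactSpace.1 hcl.isCompact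
  refine van t_fil (I := {σ : H | (σ : GK K) ∈ S.IS T w}) (D := {σ : H | (σ : GK K) ∈ Dec Q})
    (ε := ε.comp H.subtype) h1 h2 hρ ?_ hρI hc hcoc hI hD
  intro σ
  obtain ⟨k, l, h3⟩ := hres σ ζ (ε (σ : GK K) : ZMod p).val hζ (hε σ)
  refine ⟨k, l, ?_⟩
  rw [h3, ZMod.natCast_zmod_val]
  rfl

end Pool.Agent.H517.E
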