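import Pool.Agent.H517.E.Mid

/-!
# The arithmetic conditions
-/

set_option autoImplicit false
set_option linter.unusedSectionVars false

namespace Pool.Agent.H517.E

open NumberField IsDedekindDomain Module Pool.Agent.W401.Cheb Pool.Agent.NH7.Sch

variable {K : Type} [Field K] [NumberField K] {p : ℕ} [hp : Fact p.Prime]

/-- control for the trivial character -/
theorem ctl_one {T : Set (HeightOneSpectrum (𝓞 K))} {w : HeightOneSpectrum (𝓞 K)}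
    (hrc : S.RC p T w) {Q : Ideal (OO K)} (hQ : Q.IsMaximal)
    (hQw : Q.comap (algebraMap (𝓞 K) (OO K)) = w.asIdeal) :
    Ctl (1 : GK K →* (ZMod p)ˣ) (S.IS T w) (Dec Q : Set (GK K)) := by
  intro c hc hI hD
  obtain ⟨hcc, hm⟩ := cy_one.1 hc
  exact S.key_one hrc hcc hm
    (fun Q' v hQ' hQv hvS hvw σ hσ => hI σ ⟨Q', v, hQ', hQv, hvS, hvw, hσ⟩) hQ hQw hD

/-- `x` is a `p`-th power in the decomposition field of a place above `w`. -/
def PowerAt (p : ℕ) (w : HeightOneSpectrum (𝓞 K)) (x : K) : Prop :=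
  ∃ (Q : Ideal (OO K)) (y : AlgebraicClosure K), Q.IsMaximal ∧
    Q.comap (algebraMap (𝓞 K) (OO K)) = w.asIdeal ∧ y ^ p = algebraMap K (AlgebraicClosure K) x ∧
    ∀ σ ∈ Dec Q, σ y = y

/-- The dual condition. -/
structure Ind (p : ℕ) (T : Set (HeightOneSpectrum (𝓞 K))) (w : HeightOneSpectrum (𝓞 K)) : Prop where
  roots : ∀ Q : Ideal (OO K), Q.IsMaximal → Q.comap (algebraMap (𝓞 K) (OO K)) = w.asIdeal →
    ∀ ζ : AlgebraicClosure K, IsPrimitiveRoot ζ p → ∃ σ ∈ Dec Q, σ ζ ≠ ζ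
  powers : ∀ x : K, x ≠ 0 → (∀ v : HeightOneSpectrum (𝓞 K), v ∉ T → v ≠ w →
    ∃ t : WithZero (Multiplicative ℤ), v.valuation K x = t ^ p) → PowerAt p w x → ∃ b : K, x = b ^ p

theorem zpow_cast_eq {ζ : AlgebraicClosure K} (hζ : IsPrimitiveRoot ζ p) {a b : ℕ}
    (h : ζ ^ a = ζ ^ b) : (a : ZMod p) = b := by
  rw [ZMod.natCast_eq_natCast_iff]
  rw [pow_eq_pow_mod a hζ.pow_eq_one, pow_eq_pow_mod b hζ.pow_eq_one] at h
  exact hζ.pow_inj (Nat.mod_lt _ hp.out.pos) (Nat.mod_lt _ hp.out.pos) h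

/-- control for the cyclotomic character -/
theorem ctl_cyc (hil : T_hil) (ord : T_ord) {T : Set (HeightOneSpectrum (𝓞 K))}
    {w : HeightOneSpectrum (𝓞 K)} (hi : Ind p T w) {ζ : AlgebraicClosure K}
    (hζ : IsPrimitiveRoot ζ p) {ε : GK K →* (ZMod p)ˣ}
    (hε : ∀ σ : GK K, σ ζ = ζ ^ (ε σ : ZMod p).val) {Q : Ideal (OO K)} (hQ : Q.IsMaximal)
    (hQw : Q.comap (algebraMap (𝓞 K) (OO K)) = w.asIdeal) :
    Ctl ε (S.IS T w) (Dec Q : Set (GK K)) ∧ ∃ δ ∈ Dec Q, ε δ ≠ 1 := by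
  have hex : ∃ δ ∈ Dec Q, ε δ ≠ 1 := by
    obtain ⟨δ, hδ, hδζ⟩ := hi.roots Q hQ hQw ζ hζ
    refine ⟨δ, hδ, fun h1 => hδζ ?_⟩
    rw [hε, h1, Units.val_one, ZMod.val_one, pow_one]
  refine ⟨?_, hex⟩
  intro c hc hI hD
  obtain ⟨y, x, hyx, hy⟩ := hil p K ζ hζ ε hε c hc
  have hx0 : (x : K) ≠ 0 := x.ne_zero
  have hy0 : y ≠ 0 := by
    rintro rfl
    rw [zero_pow hp.out.ne_zero] at hyx
    exact hx0 ((map_eq_zero _).1 hyx.symm)
  obtain ⟨b, hb⟩ := hi.powers x hx0 (fun v hvT hvw => by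
    obtain ⟨Q', hQ', hQv⟩ := exists_Q (K := K) v
    rw [← od_dvd_iff v hp.out.ne_zero]
    refine ord p K ζ hζ v Q' hQ' hQv x y hyx fun σ hσ _ => ?_
    rw [hy, hI σ ⟨Q', v, hQ', hQv, hvT, hvw, hσ⟩, ZMod.val_zero, pow_zero, one_mul])
    ⟨Q, y, hQ, hQw, hyx, fun σ hσ => by rw [hy, hD σ hσ, ZMod.val_zero, pow_zero, one_mul]⟩
  obtain ⟨B, hB⟩ : ∃ B, B = algebraMap K (AlgebraicClosure K) b := ⟨_, rfl⟩
  have hyB : y ^ p = B ^ p := by rw [hyx, hB, ← map_pow, ← hb]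
  have hB0 : B ≠ 0 := by
    rintro rfl
    rw [zero_pow hp.out.ne_zero] at hyB
    exact hy0 (pow_eq_zero_iff hp.out.ne_zero |>.1 hyB)
  have h1 : (y / B) ^ p = 1 := by rw [div_pow, hyB, div_self (pow_ne_zero _ hB0)]
  obtain ⟨i, -, hi'⟩ := hζ.eq_pow_of_pow_eq_one h1
  have hyi : y = ζ ^ i * B := by rw [hi', div_mul_cancel₀ _ hB0]
  have hζ0 : ζ ≠ 0 := hζ.ne_zero hp.out.ne_zero
  have h2 : ∀ σ : GK K, c σ = ((ε σ : ZMod p) - 1) * i := by
    intro σ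
    have h3 := hy σ
    have hBσ : σ B = B := by rw [hB, AlgEquiv.commutes]
    rw [hyi, map_mul, map_pow, hε, hBσ, ← mul_assoc] at h3
    have h4 := mul_right_cancel₀ hB0 h3
    rw [← pow_mul, ← pow_add] at h4
    have h5 := zpow_cast_eq hζ h4
    push_cast at h5
    rw [ZMod.natCast_zmod_val, ZMod.natCast_zmod_val] at h5
    rw [sub_mul, one_mul, h5, add_sub_cancel_right]
  obtain ⟨δ, hδ, hδε⟩ := hex
  have h3 : (i : ZMod p) = 0 := by
    have h4 := h2 δ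
    rw [hD δ hδ] at h4
    refine (mul_eq_zero.1 h4.symm).resolve_left fun h5 => hδε (Units.ext (sub_eq_zero.1 h5))
  intro σ
  rw [h2, h3, mul_zero]

theorem od_zero_of {β : 𝓞 K} (hβ : algebraMap (𝓞 K) K β ≠ 0) {w v : HeightOneSpectrum (𝓞 K)} {k : ℕ}
    (h : Ideal.span {β} = w.asIdeal ^ k) (hv : v ≠ w) : od v (Units.mk0 _ hβ) = 0 := by
  have h1 : β ∉ v.asIdeal := by
    intro h2
    have h3 : w.asIdeal ^ k ≤ v.asIdeal := by
      rw [← h, Ideal.span_singleton_le_iff_mem]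
      exact h2
    have h4 : w.asIdeal ≤ v.asIdeal := v.isPrime.le_of_pow_le h3
    exact hv (HeightOneSpectrum.ext (w.isMaximal.eq_of_le v.isPrime.ne_top h4)).symm
  have h2 := val_od v (Units.mk0 _ hβ)
  rw [Units.val_mk0, (HeightOneSpectrum.valuation_eq_one_iff_notMem v).2 h1, ← WithZero.exp_zero] at h2
  exact (WithZero.exp_inj.1 h2).symm

/-- **The dual condition** for fields in which only one other place above `p` is allowed. -/
theorem ind_of (ord : T_ord) (loc : T_loc) (cub : T_cub) (hun : ∀ u : (𝓞 K)ˣ, ∃ u' : (𝓞 K)ˣ, u = u' ^ p)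
    (hcl : ¬ p ∣ classNumber K) {w w' : HeightOneSpectrum (𝓞 K)} (hne : w ≠ w')
    (hN : Ideal.absNorm w.asIdeal = p) (hpw : (p : 𝓞 K) ∈ w.asIdeal)
    (hroots : ∀ Q : Ideal (OO K), Q.IsMaximal → Q.comap (algebraMap (𝓞 K) (OO K)) = w.asIdeal →
      ∀ ζ : AlgebraicClosure K, IsPrimitiveRoot ζ p → ∃ σ ∈ Dec Q, σ ζ ≠ ζ)
    {T : Set (HeightOneSpectrum (𝓞 K))} (hT : ∀ v ∈ T, v = w ∨ v = w') {β : 𝓞 K} {k : ℕ}
    (hβ : Ideal.span {β} = w'.asIdeal ^ k) (hβ2 : β ^ (p - 1) - 1 ∉ w.asIdeal ^ 2) : Ind p T w := by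
  refine ⟨hroots, ?_⟩
  intro x hx hval ⟨Q, y, hQ, hQw, hyx, hy⟩
  obtain ⟨ζ, hζ⟩ : ∃ ζ : AlgebraicClosure K, IsPrimitiveRoot ζ p :=
    HasEnoughRootsOfUnity.exists_primitiveRoot (AlgebraicClosure K) p
  obtain ⟨κ, hκ⟩ : ∃ κ : Kˣ, κ = Units.mk0 x hx := ⟨_, rfl⟩
  have hκx : (κ : K) = x := by rw [hκ]; rfl
  have hyκ : y ^ p = algebraMap K (AlgebraicClosure K) κ := by rw [hκx, hyx]
  have h1 : ∀ v, v ≠ w' → (p : ℤ) ∣ od v κ := by
    intro v hv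
    by_cases hvw : v = w
    · subst hvw
      exact ord p K ζ hζ v Q hQ hQw κ y hyκ fun σ hσ _ => hy σ (Inr_le Q hσ)
    · rw [od_dvd_iff v hp.out.ne_zero, hκx]
      exact hval v (fun h => (hT v h).elim hvw hv) hvw
  by_cases h2 : (p : ℤ) ∣ od w' κ
  · obtain ⟨b, hb⟩ := cub p K hun hcl κ fun v => by
      by_cases hv : v = w'
      · rw [hv]; exact h2
      · exact h1 v hv
    exact ⟨b, by rw [← hκx, hb, Units.val_pow_eq_pow_val]⟩
  · exfalso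
    have hβ0 : β ≠ 0 := by
      rintro rfl
      rw [Ideal.span_singleton_eq_bot.2 rfl] at hβ
      exact pow_ne_zero k w'.ne_bot hβ.symm
    have hβ1 : algebraMap (𝓞 K) K β ≠ 0 := by
      rwa [Ne, FaithfulSMul.algebraMap_eq_zero_iff]
    obtain ⟨β', hβ'⟩ : ∃ β' : Kˣ, β' = Units.mk0 _ hβ1 := ⟨_, rfl⟩
    -- the exponent
    obtain ⟨t, ht⟩ : ∃ t : ℕ, (p : ℤ) ∣ t * od w' κ + od w' β' := by
      have h3 : ((od w' κ : ℤ) : ZMod p) ≠ 0 := by
        rwa [Ne, ZMod.intCast_zmod_eq_zero_iff_dvd]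
      refine ⟨(-(od w' β' : ZMod p) * ((od w' κ : ℤ) : ZMod p)⁻¹).val, ?_⟩
      rw [← ZMod.intCast_zmod_eq_zero_iff_dvd]
      push_cast
      rw [ZMod.natCast_zmod_val, mul_assoc, inv_mul_cancel₀ h3, mul_one, neg_add_cancel]
    obtain ⟨b, hb⟩ := cub p K hun hcl (κ ^ t * β') fun v => by
      rw [od_mul, od_pow]
      by_cases hv : v = w'
      · rw [hv]; exact ht
      · rw [hβ', od_zero_of hβ1 hβ hv, add_zero]
        exact (h1 v hv).mul_left _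
    have hy0 : y ≠ 0 := by
      rintro rfl
      rw [zero_pow hp.out.ne_zero] at hyx
      exact hx ((map_eq_zero _).1 hyx.symm)
    have hβw : β ∉ w.asIdeal := by
      intro h2
      have h3 : w'.asIdeal ^ k ≤ w.asIdeal := by
        rw [← hβ, Ideal.span_singleton_le_iff_mem]
        exact h2
      have h4 : w'.asIdeal ≤ w.asIdeal := w.isPrime.le_of_pow_le h3
      exact hne (HeightOneSpectrum.ext (w'.isMaximal.eq_of_le w.isPrime.ne_top h4)).symm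
    refine hβ2 (loc p K ζ hζ w Q hQ hQw hpw hN β hβw
      (algebraMap K (AlgebraicClosure K) b / y ^ t) ?_ ?_)
    · have h3 : algebraMap K (AlgebraicClosure K) b ^ p =
          (y ^ t) ^ p * algebraMap (𝓞 K) (AlgebraicClosure K) β := by
        have h4 := congrArg (fun u : Kˣ => algebraMap K (AlgebraicClosure K) (u : K)) hb
        beta_reduce at h4
        rw [Units.val_mul, Units.val_pow_eq_pow_val, Units.val_pow_eq_pow_val, map_mul, map_pow,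
          map_pow, ← hyκ, hβ', Units.val_mk0] at h4
        rw [← h4, pow_right_comm]
        rfl
      rw [div_pow, h3, mul_div_assoc, mul_comm, div_mul_cancel₀]
      exact pow_ne_zero _ (pow_ne_zero _ hy0)
    · intro σ hσ _
      rw [map_div₀, map_pow, hy σ (Inr_le Q hσ), AlgEquiv.commutes]

/-- **The dual condition** for imaginary quadratic fields. -/
theorem ind_quad (ord : T_ord) (loc : T_loc) (cub : T_cub) (ram : T_ram) (uni : T_uni) (cnj : T_cnj)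
    (hp2 : p ≠ 2) (h2 : finrank ℚ K = 2) (hre : IsEmpty (K →+* ℝ)) (hcl : ¬ p ∣ classNumber K)
    {w w' : HeightOneSpectrum (𝓞 K)} (hne : w ≠ w')
    (hab : w.asIdeal * w'.asIdeal = Ideal.span {(p : 𝓞 K)})
    {T : Set (HeightOneSpectrum (𝓞 K))} (hT : ∀ v ∈ T, v = w ∨ v = w') {β : 𝓞 K} {k : ℕ}
    (hβ : Ideal.span {β} = w'.asIdeal ^ k) (hβ2 : β ^ (p - 1) - 1 ∉ w.asIdeal ^ 2) : Ind p T w := by
  obtain ⟨hN, -, hpw2, -, -⟩ := cnj p K h2 w w' hne hab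
  have hpw : (p : 𝓞 K) ∈ w.asIdeal := by
    have h3 : Ideal.span {(p : 𝓞 K)} ≤ w.asIdeal := by
      rw [← hab]
      exact Ideal.mul_le_left
    rwa [Ideal.span_singleton_le_iff_mem] at h3
  refine ind_of ord loc cub (uni p hp2 K h2 hre w w' hne hab) hcl hne hN hpw ?_ hT hβ hβ2
  intro Q hQ hQw ζ hζ
  obtain ⟨c, hc, hcζ⟩ := ram p hp2 K ζ hζ w Q hQ hQw hpw hpw2
  exact ⟨c, Inr_le Q hc, hcζ⟩

end Pool.Agent.H517.E
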