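import Pool.Agent.H517.E.Three
import Pool.Agent.H517.S.Fm

/-!
# Irreducible representations, from control by one place
-/

set_option autoImplicit false
set_option linter.unusedSectionVars false

namespace Pool.Agent.H517.E

open NumberField IsDedekindDomain Module Pool.Agent.W401.Cheb Pool.Agent.NH7.Sch
open IsLocalRing Matrix
open Pool.Agent.N817.PF (act InI)

variable {K : Type} [Field K] [NumberField K] {p : ℕ} [hp : Fact p.Prime]

theorem exists_of_ctl {G : Type} [Group G] [TopologicalSpace G] [IsTopologicalGroup G] {I D : Set G}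
    (h : Ctl (1 : G →* (ZMod p)ˣ) I D) (N : Subgroup G) (hN : N.Normal) (hNo : IsOpen (N : Set G))
    (hNi : N.index = p) (hIN : ∀ σ ∈ I, σ ∈ N) : ∃ σ ∈ D, σ ∉ N := by
  by_contra hcon
  push Not at hcon
  obtain ⟨f, hfc, hfm, hf⟩ := S.exists_hom (p := p) hN hNo hNi
  have h1 := h f (cy_one.2 ⟨hfc, hfm⟩) (fun σ hσ => (hf σ).2 (hIN σ hσ))
    (fun σ hσ => (hf σ).2 (hcon σ hσ))
  have h2 : N = ⊤ := eq_top_iff.2 fun σ _ => (hf σ).1 (h1 σ)
  rw [h2, Subgroup.index_top] at hNi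
  exact hp.out.one_lt.ne hNi

/-- **The main theorem for subgroups of the Galois group.** -/
theorem fm2 {I : Set (GK K)} {H : Subgroup (GK K)} {Q : Ideal (OO K)}
    (hctl : Ctl (1 : H →* (ZMod p)ˣ) {σ : H | (σ : GK K) ∈ I} {σ : H | (σ : GK K) ∈ Dec Q})
    {A : Type} [CommRing A] [IsLocalRing A] [IsNoetherianRing A] [TopologicalSpace A]
    (hA : IsAdic (maximalIdeal A)) (hfin : Finite (ResidueField A)) (hpA : (p : A) ∈ maximalIdeal A)
    {F : Type} [Field F] [IsAlgClosed F] [Algebra A F] (hpF : (p : F) ≠ 0)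
    {n : ℕ} (hn : n ≠ 0) {ρ : H →* GL (Fin n) A}
    (hρ : ∀ i j, Continuous fun σ => (ρ σ : Matrix (Fin n) (Fin n) A) i j)
    (hres : ∀ σ, ∃ m : ℕ, ∀ i j,
      (((ρ σ : Matrix (Fin n) (Fin n) A) - 1) ^ m) i j ∈ maximalIdeal A)
    (hur : ∀ σ : H, (σ : GK K) ∈ I → ρ σ = 1)
    (hirr : ∀ W : Submodule F (Fin n → F), (∀ σ, ∀ x ∈ W, act F ρ σ x ∈ W) → W = ⊥ ∨ W = ⊤) :
    ∃ (L : Subgroup H) (W : Submodule F (Fin n → F)), IsOpen (L : Set H) ∧
      (∃ a : ℕ, L.index = p ^ a) ∧ (∀ σ ∈ L, ∀ x ∈ W, act F ρ σ x ∈ W) ∧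
      L.index * finrank F W = n ∧
      ∀ (D' : Subgroup H) (R : Set H) (X : Submodule F (Fin n → F)), R.Finite →
        (∀ δ : H, (δ : GK K) ∈ Dec Q → ∃ r ∈ R, r⁻¹ * δ ∈ D') →
        (∀ σ ∈ D', ∀ x ∈ X, act F ρ σ x ∈ X) → finrank F W ∣ finrank F X := by
  obtain ⟨L, W, h1, h2, h3, h4, h5⟩ := Pool.Agent.N817.PF.main hp.out hA hpA hfin hpF hρ
    (hres := hres) (I := {σ : H | (σ : GK K) ∈ I}) hur (D := (Dec Q).comap H.subtype)
    (fun N hN hNo hNi hNI => exists_of_ctl hctl N hN hNo hNi hNI) hirr hn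
  exact ⟨L, W, h1, h2, h3, h4, fun D' R X hR hδ hX => h5 D' R X hR (fun δ hδ' => hδ δ hδ') hX⟩

end Pool.Agent.H517.E
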