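import Pool.Agent.H517.E.Fm3

/-!
# Potentially stable subspaces, and semisimple representations with a flag, from control by one place
-/

set_option autoImplicit false
set_option linter.unusedSectionVars false

namespace Pool.Agent.H517.E

open NumberField IsDedekindDomain Module Pool.Agent.W401.Cheb Pool.Agent.NH7.Sch
open IsLocalRing Matrix
open Pool.Agent.N817.PF (act cong cong_normal cong_open cong_index cong_anti exists_cong stable_of_lim)

variable {K : Type} [Field K] [NumberField K] {p : ℕ} [hp : Fact p.Prime]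

/-- **Potentially stable subspaces for the decomposition group are potentially stable.** -/
theorem pot_stable {I : Set (GK K)} {H : Subgroup (GK K)} {Q : Ideal (OO K)}
    (hctl : Ctl (1 : H →* (ZMod p)ˣ) {σ : H | (σ : GK K) ∈ I} {σ : H | (σ : GK K) ∈ Dec Q})
    {A : Type} [CommRing A] [IsLocalRing A] [IsNoetherianRing A] [TopologicalSpace A]
    (hA : IsAdic (maximalIdeal A)) (hfin : Finite (ResidueField A)) (hpA : (p : A) ∈ maximalIdeal A)
    {F : Type} [Field F] [Algebra A F]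
    {n : ℕ} {ρ : H →* GL (Fin n) A}
    (hρ : ∀ i j, Continuous fun σ => (ρ σ : Matrix (Fin n) (Fin n) A) i j)
    (hres : ∀ σ, ∃ m : ℕ, ∀ i j,
      (((ρ σ : Matrix (Fin n) (Fin n) A) - 1) ^ m) i j ∈ maximalIdeal A)
    (hur : ∀ σ : H, (σ : GK K) ∈ I → ρ σ = 1)
    {D' : Subgroup H} {R : Set H} {X : Submodule F (Fin n → F)} (hRf : R.Finite)
    (hR : ∀ δ : H, (δ : GK K) ∈ Dec Q → ∃ r ∈ R, r⁻¹ * δ ∈ D')
    (hX : ∀ σ ∈ D', ∀ x ∈ X, act F ρ σ x ∈ X) :
    ∃ m : ℕ, ∀ σ ∈ cong ρ m, ∀ x ∈ X, act F ρ σ x ∈ X := by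
  have happ := Pool.Agent.N817.PF.dense hp.out hA hpA hfin hρ hres
    (I := {σ : H | (σ : GK K) ∈ I}) hur (D := (Dec Q).comap H.subtype)
    (fun N hN hNo hNi hNI => exists_of_ctl hctl N hN hNo hNi hNI)
  have hcf : ∀ m, (cong ρ m).FiniteIndex := fun m => by
    obtain ⟨b, hb⟩ := cong_index hp.out hpA hfin ρ hres m
    exact ⟨by rw [hb]; exact pow_ne_zero _ hp.out.ne_zero⟩
  obtain ⟨M, -, hlim⟩ := exists_cong ρ hcf (H := ⊤) (D' := D')
    (D := (((Dec Q).comap H.subtype : Subgroup H) : Set H)) (R := R)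
    (fun m g _ => happ m g) (m₀ := 0) le_top hRf (fun δ hδ _ => hR δ hδ)
  exact ⟨M, fun g hg x hx => stable_of_lim ρ X (D' := (D' : Set H)) hX (hlim g hg) hx⟩

/-- **Semisimple representations of a group with a flag which is stable under a normal subgroup.** -/
theorem flag_comm {F V G : Type} [Field F] [AddCommGroup V] [Module F V] [FiniteDimensional F V]
    [Group G] (a : G →* Module.End F V)
    (hss : ∀ Y : Submodule F V, (∀ g, ∀ y ∈ Y, a g y ∈ Y) →
      ∃ Z : Submodule F V, (∀ g, ∀ z ∈ Z, a g z ∈ Z) ∧ IsCompl Y Z)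
    {C : Subgroup G} (hC : C.Normal) {m : ℕ} (X : ℕ → Submodule F V) (h0 : X 0 = ⊥)
    (hm : X m = ⊤) (hle : ∀ i < m, X i ≤ X (i + 1))
    (hdim : ∀ i < m, finrank F (X (i + 1)) ≤ finrank F (X i) + 1)
    (hX : ∀ i ≤ m, ∀ σ ∈ C, ∀ x ∈ X i, a σ x ∈ X i) :
    ∀ σ ∈ C, ∀ τ ∈ C, ∀ x, a σ (a τ x) = a τ (a σ x) := by
  classical
  set Y : Submodule F V :=
    { carrier := {x | ∀ σ ∈ C, ∀ τ ∈ C, a σ (a τ x) = a τ (a σ x)}
      zero_mem' := by intro σ _ τ _; simp
      add_mem' := by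
        intro x y hx hy σ hσ τ hτ
        simp only [map_add, hx σ hσ τ hτ, hy σ hσ τ hτ]
      smul_mem' := by
        intro c x hx σ hσ τ hτ
        simp only [map_smul, hx σ hσ τ hτ] } with hY
  have hYs : ∀ g, ∀ x ∈ Y, a g x ∈ Y := by
    intro g x hx σ hσ τ hτ
    have hc : ∀ σ y, a σ (a g y) = a g (a (g⁻¹ * σ * g) y) := by
      intro σ y
      rw [← Module.End.mul_apply, ← Module.End.mul_apply, ← map_mul, ← map_mul]
      congr 2
      group
    have hn : ∀ σ ∈ C, g⁻¹ * σ * g ∈ C := by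
      intro σ hσ
      have := hC.conj_mem σ hσ g⁻¹
      rwa [inv_inv] at this
    rw [hc, hc, hc, hc, hx _ (hn σ hσ) _ (hn τ hτ)]
  obtain ⟨Z, hZs, hYZ⟩ := hss Y hYs
  have hZ : Z = ⊥ := by
    by_contra hZ
    have hex : ∃ i, X i ⊓ Z ≠ ⊥ := ⟨m, by rw [hm, top_inf_eq]; exact hZ⟩
    obtain ⟨j, hj⟩ : ∃ j, Nat.find hex = j + 1 := by
      refine Nat.exists_eq_succ_of_ne_zero fun h => ?_
      have h1 := Nat.find_spec hex
      rw [h, h0, bot_inf_eq] at h1
      exact h1 rfl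
    have hjm : j + 1 ≤ m := by
      rw [← hj]
      exact Nat.find_min' hex (by rw [hm, top_inf_eq]; exact hZ)
    have h1 : X (j + 1) ⊓ Z ≠ ⊥ := by
      have := Nat.find_spec hex
      rwa [hj] at this
    have h2 : X j ⊓ Z = ⊥ := by
      by_contra h
      have := Nat.find_min' hex h
      omega
    have h3 : finrank F (X (j + 1) ⊓ Z : Submodule F V) ≤ 1 := by
      have h4 := Submodule.finrank_sup_add_finrank_inf_eq (X j) (X (j + 1) ⊓ Z)
      have h5 : X j ⊓ (X (j + 1) ⊓ Z) = ⊥ := by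
        rw [eq_bot_iff, ← h2]
        exact le_inf inf_le_left (inf_le_right.trans inf_le_right)
      rw [h5, finrank_bot, add_zero] at h4
      have h6 : X j ⊔ X (j + 1) ⊓ Z ≤ X (j + 1) := sup_le (hle j (by omega)) inf_le_left
      have h7 := Submodule.finrank_mono h6
      have h8 := hdim j (by omega)
      omega
    obtain ⟨z, hz, hz0⟩ := Submodule.exists_mem_ne_zero_of_ne_bot h1
    have h4 : ∀ y ∈ X (j + 1) ⊓ Z, ∃ c : F, y = c • z := by
      intro y hy
      have h5 := finrank_le_one_iff.1 h3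
      obtain ⟨v, hv⟩ := h5
      obtain ⟨c, hc⟩ := hv ⟨z, hz⟩
      obtain ⟨d, hd⟩ := hv ⟨y, hy⟩
      have hc' : c • (v : V) = z := congrArg Subtype.val hc
      have hd' : d • (v : V) = y := congrArg Subtype.val hd
      have hc0 : c ≠ 0 := by
        rintro rfl
        rw [zero_smul] at hc'
        exact hz0 hc'.symm
      refine ⟨d * c⁻¹, ?_⟩
      rw [← hc', smul_smul, mul_assoc, inv_mul_cancel₀ hc0, mul_one, hd']
    have h5 : ∀ σ ∈ C, ∃ c : F, a σ z = c • z := fun σ hσ =>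
      h4 _ ⟨hX _ hjm σ hσ z hz.1, hZs σ z hz.2⟩
    have h6 : z ∈ Y := by
      intro σ hσ τ hτ
      obtain ⟨c, hc⟩ := h5 σ hσ
      obtain ⟨d, hd⟩ := h5 τ hτ
      rw [hd, hc, map_smul, map_smul, hc, hd, smul_comm]
    have h7 : z ∈ Y ⊓ Z := ⟨h6, hz.2⟩
    rw [hYZ.inf_eq_bot, Submodule.mem_bot] at h7
    exact hz0 h7
  have hYt : Y = ⊤ := by
    have := hYZ.sup_eq_top
    rwa [hZ, sup_bot_eq] at this
  intro σ hσ τ hτ x
  have hx : x ∈ Y := by rw [hYt]; trivial
  exact hx σ hσ τ hτ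

end Pool.Agent.H517.E
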