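import Pool.Agent.H517.E.Fm4
import Pool.Agent.H517.S.Pot2

/-!
# The image of one decomposition group is the whole image
-/

set_option autoImplicit false
set_option linter.unusedSectionVars false

namespace Pool.Agent.H517.E

open NumberField IsDedekindDomain Module Pool.Agent.W401.Cheb Pool.Agent.NH7.Sch
open IsLocalRing Matrix
open scoped Pointwise
open Pool.Agent.N817.PF (InI cong mem_cong cong_normal cong_open cong_index cong_anti)

variable {K : Type} [Field K] [NumberField K] {p : ℕ} [hp : Fact p.Prime]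

theorem isClosed_dec (Q : Ideal (OO K)) : IsClosed ((Dec Q : Subgroup (GK K)) : Set (GK K)) := by
  have h1 : ((Dec Q : Subgroup (GK K)) : Set (GK K)) =
      ⋂ x : OO K, {τ : GK K | x ∈ Q ↔ τ • x ∈ Q} := by
    ext τ
    rw [Set.mem_iInter]
    exact Iff.rfl
  rw [h1]
  refine isClosed_iInter fun x => ?_
  have hfd : FiniteDimensional K (IntermediateField.adjoin K {(x : AlgebraicClosure K)}) :=
    IntermediateField.adjoin.finiteDimensional (Algebra.IsIntegral.isIntegral _)
  have hopen := IntermediateField.fixingSubgroup_isOpen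
    (IntermediateField.adjoin K {(x : AlgebraicClosure K)})
  have hopen' : IsOpen ({τ : GK K | x ∈ Q ↔ τ • x ∈ Q}ᶜ) := by
    rw [isOpen_iff_mem_nhds]
    intro τ hτ
    have h2 := (hopen.leftCoset τ).mem_nhds (⟨1, Subgroup.one_mem _, mul_one τ⟩ :
      τ ∈ τ • ((IntermediateField.adjoin K {(x : AlgebraicClosure K)}).fixingSubgroup :
      Set (GK K)))
    filter_upwards [h2] with σ hσ
    obtain ⟨u, hu, rfl⟩ := hσ
    intro h3
    apply hτ
    have h4 : u • x = x := RingOfIntegers.ext
      ((IntermediateField.mem_fixingSubgroup_iff _ _).1 hu _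
        (IntermediateField.mem_adjoin_simple_self K _))
    have h5 : x ∈ Q ↔ (τ * u) • x ∈ Q := h3
    rw [mul_smul, h4] at h5
    exact h5
  exact isOpen_compl_iff.1 hopen'

/-- **The image of the decomposition group is the whole image.** -/
theorem full_image {I : Set (GK K)} {H : Subgroup (GK K)} (hHc : IsClosed (H : Set (GK K)))
    {Q : Ideal (OO K)}
    (hctl : Ctl (1 : H →* (ZMod p)ˣ) {σ : H | (σ : GK K) ∈ I} {σ : H | (σ : GK K) ∈ Dec Q})
    {A : Type} [CommRing A] [IsLocalRing A] [IsNoetherianRing A] [TopologicalSpace A]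
    (hA : IsAdic (maximalIdeal A)) (hfin : Finite (ResidueField A)) (hpA : (p : A) ∈ maximalIdeal A)
    {n : ℕ} {ρ : H →* GL (Fin n) A}
    (hρ : ∀ i j, Continuous fun σ => (ρ σ : Matrix (Fin n) (Fin n) A) i j)
    (hres : ∀ σ, ∃ m : ℕ, ∀ i j,
      (((ρ σ : Matrix (Fin n) (Fin n) A) - 1) ^ m) i j ∈ maximalIdeal A)
    (hur : ∀ σ : H, (σ : GK K) ∈ I → ρ σ = 1) (g : H) :
    ∃ δ : H, (δ : GK K) ∈ Dec Q ∧ ρ δ = ρ g := by
  have happ := Pool.Agent.N817.PF.dense hp.out hA hpA hfin hρ hres
    (I := {σ : H | (σ : GK K) ∈ I}) hur (D := (Dec Q).comap H.subtype)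
    (fun N hN hNo hNi hNI => exists_of_ctl hctl N hN hNo hNi hNI)
  have hcomp : CompactSpace H := isCompact_iff_compactSpace.1 hHc.isCompact
  obtain ⟨δ, hδ⟩ := IsCompact.nonempty_iInter_of_sequence_nonempty_isCompact_isClosed
    (fun m : ℕ => {δ : H | (δ : GK K) ∈ Dec Q ∧ δ⁻¹ * g ∈ cong ρ m})
    (fun m δ hδ => ⟨hδ.1, cong_anti ρ (Nat.le_succ m) hδ.2⟩)
    (fun m => by
      obtain ⟨δ, h1, h2⟩ := happ m g
      exact ⟨δ, h1, h2⟩)
    (by
      refine IsClosed.isCompact (IsClosed.inter ?_ ?_)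
      · exact (isClosed_dec Q).preimage continuous_subtype_val
      · exact (Subgroup.isClosed_of_isOpen _ (cong_open hA hρ 0)).preimage
          (continuous_inv.mul continuous_const))
    (fun m => IsClosed.inter ((isClosed_dec Q).preimage continuous_subtype_val)
      ((Subgroup.isClosed_of_isOpen _ (cong_open hA hρ m)).preimage
          (continuous_inv.mul continuous_const)))
  rw [Set.mem_iInter] at hδ
  refine ⟨δ, (hδ 0).1, ?_⟩
  have h1 : ρ (δ⁻¹ * g) = 1 := S.gl_eq_one fun m => ⟨m, le_rfl, mem_cong.1 (hδ m).2⟩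
  rw [map_mul, map_inv] at h1
  exact (inv_mul_eq_one.1 h1)

end Pool.Agent.H517.E
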