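import Pool.Agent.H517.E.Full

/-!
# Infinite extensions: the cocycles which vanish locally at one place
-/

set_option autoImplicit false
set_option linter.unusedSectionVars false

namespace Pool.Agent.H517.E

open Topology

section grp

variable {G : Type} [Group G] [TopologicalSpace G] [IsTopologicalGroup G]

/-- the open normal subgroups of `p`-power index which contain `I` -/
def Fam (p : ℕ) (I : Set G) (N : Subgroup G) : Prop :=
  N.Normal ∧ IsOpen (N : Set G) ∧ (∃ a : ℕ, N.index = p ^ a) ∧ ∀ τ ∈ I, τ ∈ N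

/-- their intersection -/
def core (p : ℕ) (I : Set G) : Subgroup G := sInf {N | Fam p I N}

variable {p : ℕ} [hp : Fact p.Prime] {I : Set G}

theorem mem_core {σ : G} : σ ∈ core p I ↔ ∀ N, Fam p I N → σ ∈ N := by
  unfold core
  rw [Subgroup.mem_sInf]
  rfl

theorem fam_top : Fam p I (⊤ : Subgroup G) :=
  ⟨inferInstance, isOpen_univ, ⟨0, by rw [Subgroup.index_top, pow_zero]⟩, fun _ _ => trivial⟩

theorem fam_inf {N M : Subgroup G} (hN : Fam p I N) (hM : Fam p I M) : Fam p I (N ⊓ M) := by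
  obtain ⟨h1, h2, ⟨a, h3⟩, h4⟩ := hN
  obtain ⟨g1, g2, ⟨b, g3⟩, g4⟩ := hM
  refine ⟨inferInstance, h2.inter g2, ?_, fun τ hτ => ⟨h4 τ hτ, g4 τ hτ⟩⟩
  have h5 : (N ⊓ M).relIndex M * M.index = (N ⊓ M).index :=
    Subgroup.relIndex_mul_index inf_le_right
  rw [Subgroup.inf_relIndex_right] at h5
  have h6 : N.relIndex M ∣ p ^ a := h3 ▸ Subgroup.relIndex_dvd_index_of_normal N M
  obtain ⟨c, -, h7⟩ := (Nat.dvd_prime_pow hp.out).1 h6
  exact ⟨c + b, by rw [← h5, h7, g3, pow_add]⟩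

theorem core_closed : IsClosed (core p I : Set G) := by
  have h1 : (core p I : Set G) = ⋂ N : {N : Subgroup G // Fam p I N}, (N.1 : Set G) := by
    ext σ
    rw [SetLike.mem_coe, mem_core, Set.mem_iInter]
    exact ⟨fun h N => h N.1 N.2, fun h N hN => h ⟨N, hN⟩⟩
  rw [h1]
  exact isClosed_iInter fun N => Subgroup.isClosed_of_isOpen _ N.2.2.1

/-- the subgroup `D` covers the quotient by the intersection -/
theorem cover [CompactSpace G] {D : Subgroup G} (hDc : IsClosed (D : Set G))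
    (hd : ∀ N, Fam p I N → ∀ g, ∃ δ ∈ D, δ⁻¹ * g ∈ N) (g : G) :
    ∃ δ ∈ D, δ⁻¹ * g ∈ core p I := by
  have hne : Nonempty {N : Subgroup G // Fam p I N} := ⟨⟨⊤, fam_top⟩⟩
  have hcl : ∀ N : {N : Subgroup G // Fam p I N}, IsClosed {δ : G | δ ∈ D ∧ δ⁻¹ * g ∈ N.1} := by
    intro N
    exact IsClosed.inter hDc ((Subgroup.isClosed_of_isOpen _ N.2.2.1).preimage
          (continuous_inv.mul continuous_const))
  obtain ⟨δ, hδ⟩ := IsCompact.nonempty_iInter_of_directed_nonempty_isCompact_isClosed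
    (fun N : {N : Subgroup G // Fam p I N} => {δ : G | δ ∈ D ∧ δ⁻¹ * g ∈ N.1})
    (by
      intro N M
      refine ⟨⟨N.1 ⊓ M.1, fam_inf N.2 M.2⟩, ?_, ?_⟩
      · exact fun δ h => ⟨h.1, h.2.1⟩
      · exact fun δ h => ⟨h.1, h.2.2⟩)
    (fun N => by
      obtain ⟨δ, h1, h2⟩ := hd N.1 N.2 g
      exact ⟨δ, h1, h2⟩)
    (fun N => (hcl N).isCompact) hcl
  rw [Set.mem_iInter] at hδ
  exact ⟨δ, (hδ ⟨⊤, fam_top⟩).1, mem_core.2 fun N hN => (hδ ⟨N, hN⟩).2⟩

/-- an open subgroup containing the intersection contains a member of the family -/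
theorem exists_fam [CompactSpace G] {B : Subgroup G} (hBo : IsOpen (B : Set G))
    (hB : core p I ≤ B) : ∃ N, Fam p I N ∧ N ≤ B := by
  have hne : Nonempty {N : Subgroup G // Fam p I N} := ⟨⟨⊤, fam_top⟩⟩
  obtain ⟨N, hN⟩ := (hBo.isClosed_compl.isCompact).elim_directed_family_closed
    (fun N : {N : Subgroup G // Fam p I N} => (N.1 : Set G))
    (fun N => Subgroup.isClosed_of_isOpen _ N.2.2.1)
    (by
      rw [Set.eq_empty_iff_forall_notMem]
      rintro σ ⟨h1, h2⟩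
      rw [Set.mem_iInter] at h2
      exact h1 (hB (mem_core.2 fun N hN => h2 ⟨N, hN⟩)))
    (by
      intro N M
      exact ⟨⟨N.1 ⊓ M.1, fam_inf N.2 M.2⟩, fun δ h => h.1, fun δ h => h.2⟩)
  refine ⟨N.1, N.2, fun σ hσ => ?_⟩
  by_contra hcon
  have h1 : σ ∈ (B : Set G)ᶜ ∩ (N.1 : Set G) := ⟨hcon, hσ⟩
  rw [hN] at h1
  exact h1

/-- **The intersection has no nontrivial homomorphisms to `p`-primary groups vanishing on `I`.** -/
theorem no_hom [CompactSpace G]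
    (hbasis : ∀ U ∈ 𝓝 (1 : G), ∃ V : Subgroup G, V.Normal ∧ IsOpen (V : Set G) ∧ (V : Set G) ⊆ U)
    (hIc : ∀ g, ∀ σ ∈ I, g * σ * g⁻¹ ∈ I)
    {W : Type} [AddCommGroup W] [TopologicalSpace W] [DiscreteTopology W]
    (hW : ∀ x : W, ∃ k : ℕ, p ^ k • x = 0)
    (f : core p I → W) (hf : Continuous f) (hadd : ∀ x y, f (x * y) = f x + f y)
    (hfI : ∀ x : core p I, (x : G) ∈ I → f x = 0) (x : core p I) : f x = 0 := by
  have h1 : f 1 = 0 := by
    have h := hadd 1 1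
    rw [mul_one] at h
    exact left_eq_add.1 h
  have hpow : ∀ (y : core p I) (n : ℕ), f (y ^ n) = n • f y := by
    intro y n
    induction n with
    | zero => rw [pow_zero, zero_smul, h1]
    | succ n ih => rw [pow_succ, hadd, ih, succ_nsmul]
  have hnh : {y : core p I | f y = 0} ∈ 𝓝 (1 : core p I) :=
    IsOpen.mem_nhds ((isOpen_discrete ({0} : Set W)).preimage hf) h1
  rw [mem_nhds_subtype] at hnh
  obtain ⟨u, hu, huf⟩ := hnh
  obtain ⟨V, hVn, hVo, hVu⟩ := hbasis u hu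
  have hV0 : ∀ y : core p I, (y : G) ∈ V → f y = 0 := fun y hy => huf (hVu hy)
  -- the image is finite
  have hcc : CompactSpace (core p I) :=
    isCompact_iff_compactSpace.1 (core_closed (p := p) (I := I)).isCompact
  have hfin : (Set.range f).Finite := isCompact_iff_finite.1 (isCompact_range hf)
  choose κ hκ using hW
  obtain ⟨k, hk⟩ : ∃ k : ℕ, ∀ y, p ^ k • f y = 0 := by
    refine ⟨hfin.toFinset.sup κ, fun y => ?_⟩
    have h2 : κ (f y) ≤ hfin.toFinset.sup κ := Finset.le_sup (hfin.mem_toFinset.2 ⟨y, rfl⟩)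
    obtain ⟨c, hc⟩ := Nat.exists_eq_add_of_le h2
    rw [hc, pow_add, mul_comm, mul_smul, hκ, smul_zero]
  -- the subgroup `ker f · V`
  let B₀ : Subgroup G :=
    { carrier := {g | ∃ y : core p I, f y = 0 ∧ (y : G)⁻¹ * g ∈ V}
      one_mem' := ⟨1, h1, by simp⟩
      mul_mem' := by
        rintro a b ⟨y, hy, hya⟩ ⟨z, hz, hzb⟩
        refine ⟨y * z, by rw [hadd, hy, hz, add_zero], ?_⟩
        have h2 := hVn.conj_mem _ hya ((z : G)⁻¹)
        have h3 : ((y * z : core p I) : G)⁻¹ * (a * b) =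
            ((z : G)⁻¹ * ((y : G)⁻¹ * a) * ((z : G)⁻¹)⁻¹) * ((z : G)⁻¹ * b) := by
          rw [Subgroup.coe_mul]
          group
        rw [h3]
        exact mul_mem h2 hzb
      inv_mem' := by
        rintro a ⟨y, hy, hya⟩
        refine ⟨y⁻¹, ?_, ?_⟩
        · have h2 := hadd y y⁻¹
          rw [mul_inv_cancel, h1, hy, zero_add] at h2
          exact h2.symm
        · have h2 := hVn.conj_mem _ (inv_mem hya) (y : G)
          have h3 : ((y⁻¹ : core p I) : G)⁻¹ * a⁻¹ =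
              (y : G) * ((y : G)⁻¹ * a)⁻¹ * (y : G)⁻¹ := by
            rw [Subgroup.coe_inv]
            group
          rw [h3]
          exact h2 }
  have hB₀ : ∀ g, g ∈ B₀ ↔ ∃ y : core p I, f y = 0 ∧ (y : G)⁻¹ * g ∈ V := fun g => Iff.rfl
  have hVB : V ≤ B₀ := fun v hv => ⟨1, h1, by simpa using hv⟩
  have hBo : IsOpen ((core p I ⊔ V : Subgroup G) : Set G) := Subgroup.isOpen_mono le_sup_right hVo
  obtain ⟨N, hN, hNB⟩ := exists_fam hBo (le_sup_left : core p I ≤ core p I ⊔ V)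
  obtain ⟨a, ha⟩ := hN.2.2.1
  have hNn := hN.1
  have hkey : ∀ h : G, h ^ (p ^ (a + k)) ∈ B₀ := by
    intro h
    have h2 : h ^ (p ^ a) ∈ core p I ⊔ V := hNB (ha ▸ Subgroup.pow_index_mem N h)
    obtain ⟨y, hy, v, hv, hyv⟩ := Subgroup.mem_sup_of_normal_right.1 h2
    rw [pow_add, pow_mul, ← hyv, hB₀]
    refine ⟨⟨y, hy⟩ ^ (p ^ k), by rw [hpow, hk], ?_⟩
    rw [Subgroup.coe_pow, ← QuotientGroup.eq]
    rw [QuotientGroup.mk_pow, QuotientGroup.mk_pow, QuotientGroup.mk_mul,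
      (QuotientGroup.eq_one_iff v).2 hv, mul_one]
  have hNo : IsOpen (B₀.normalCore : Set G) := by
    refine Subgroup.isOpen_mono ?_ hVo
    intro v hv b
    exact hVB (hVn.conj_mem v hv b)
  have hfinq : Finite (G ⧸ B₀.normalCore) := Subgroup.quotient_finite_of_isOpen _ hNo
  have hpg : IsPGroup p (G ⧸ B₀.normalCore) := by
    intro q
    induction q using QuotientGroup.induction_on with
    | H h =>
      refine ⟨a + k, ?_⟩
      rw [← QuotientGroup.mk_pow, QuotientGroup.eq_one_iff]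
      intro b
      rw [← conj_pow]
      exact hkey _
  obtain ⟨m, hm⟩ := IsPGroup.iff_card.1 hpg
  have hfam : Fam p I B₀.normalCore := by
    refine ⟨inferInstance, hNo, ⟨m, hm⟩, fun τ hτ b => ?_⟩
    have h2 : b * τ * b⁻¹ ∈ I := hIc b τ hτ
    refine ⟨⟨b * τ * b⁻¹, mem_core.2 fun N hN => hN.2.2.2 _ h2⟩, hfI _ h2, ?_⟩
    rw [inv_mul_cancel]
    exact one_mem V
  have h2 : (x : G) ∈ B₀ := Subgroup.normalCore_le _ (mem_core.1 x.2 _ hfam)
  obtain ⟨y, hy, hyx⟩ := (hB₀ _).1 h2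
  have h3 : f (y⁻¹ * x) = 0 := hV0 _ (by rw [Subgroup.coe_mul, Subgroup.coe_inv]; exact hyx)
  have h4 : f x = f y + f (y⁻¹ * x) := by rw [← hadd, mul_inv_cancel_left]
  rw [h4, hy, h3, add_zero]

/-- **The cocycles over an infinite extension.** -/
theorem no_cocycle [CompactSpace G]
    (hbasis : ∀ U ∈ 𝓝 (1 : G), ∃ V : Subgroup G, V.Normal ∧ IsOpen (V : Set G) ∧ (V : Set G) ⊆ U)
    (hIc : ∀ g, ∀ σ ∈ I, g * σ * g⁻¹ ∈ I)
    {D : Subgroup G} (hDc : IsClosed (D : Set G))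
    (hd : ∀ N, Fam p I N → ∀ g, ∃ δ ∈ D, δ⁻¹ * g ∈ N)
    {J : Subgroup G} (hJ : core p I ≤ J)
    {W : Type} [AddCommGroup W] [TopologicalSpace W] [DiscreteTopology W] [DistribMulAction G W]
    (hW : ∀ x : W, ∃ k : ℕ, p ^ k • x = 0) (hP : ∀ σ ∈ core p I, ∀ x : W, σ • x = x)
    (c : J → W) (hc : Continuous c) (hcm : ∀ σ τ : J, c (σ * τ) = c σ + (σ : G) • c τ)
    (hcI : ∀ σ : J, (σ : G) ∈ I → c σ = 0) {x : W}
    (hx : ∀ σ : J, (σ : G) ∈ D → c σ = (σ : G) • x - x) (σ : J) :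
    c σ = (σ : G) • x - x := by
  have h1 : ∀ τ : core p I, c (Subgroup.inclusion hJ τ) = 0 := by
    refine no_hom hbasis hIc hW (fun τ => c (Subgroup.inclusion hJ τ)) ?_ ?_ ?_
    · exact hc.comp (Continuous.subtype_mk continuous_subtype_val _)
    · intro y z
      beta_reduce
      rw [map_mul, hcm]
      congr 1
      exact hP y y.2 _
    · intro y hy
      exact hcI _ hy
  obtain ⟨δ, hδ, hδσ⟩ := cover hDc hd (σ : G)
  have hδJ : δ ∈ J := by
    have h2 : δ = (σ : G) * (δ⁻¹ * σ)⁻¹ := by group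
    rw [h2]
    exact mul_mem σ.2 (inv_mem (hJ hδσ))
  have h3 : σ = ⟨δ, hδJ⟩ * Subgroup.inclusion hJ ⟨δ⁻¹ * σ, hδσ⟩ := by
    apply Subtype.ext
    change (σ : G) = δ * (δ⁻¹ * σ)
    group
  have h4 : (σ : G) = δ * (δ⁻¹ * σ) := by group
  rw [h3, hcm, h1, smul_zero, add_zero, hx _ hδ, ← h3]
  congr 1
  rw [h4, mul_smul, hP _ hδσ]

/-- **The homomorphisms over an infinite extension.** -/
theorem ctl_inf [CompactSpace G]
    (hbasis : ∀ U ∈ 𝓝 (1 : G), ∃ V : Subgroup G, V.Normal ∧ IsOpen (V : Set G) ∧ (V : Set G) ⊆ U)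
    (hIc : ∀ g, ∀ σ ∈ I, g * σ * g⁻¹ ∈ I)
    {D : Subgroup G} (hDc : IsClosed (D : Set G))
    (hd : ∀ N, Fam p I N → ∀ g, ∃ δ ∈ D, δ⁻¹ * g ∈ N)
    {J : Subgroup G} (hJ : core p I ≤ J)
    (h : J → ZMod p) (hc : Continuous h) (hm : ∀ σ τ : J, h (σ * τ) = h σ + h τ)
    (hI : ∀ σ : J, (σ : G) ∈ I → h σ = 0) (hD : ∀ σ : J, (σ : G) ∈ D → h σ = 0) (σ : J) :
    h σ = 0 := by
  have h1 : ∀ τ : core p I, h (Subgroup.inclusion hJ τ) = 0 := by
    refine no_hom hbasis hIc (W := ZMod p) (fun x => ⟨1, ?_⟩)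
      (fun τ => h (Subgroup.inclusion hJ τ)) ?_ ?_ ?_
    · rw [pow_one, nsmul_eq_mul, CharP.cast_eq_zero, zero_mul]
    · exact hc.comp (Continuous.subtype_mk continuous_subtype_val _)
    · intro y z
      rw [map_mul, hm]
    · intro y hy
      exact hI _ hy
  obtain ⟨δ, hδ, hδσ⟩ := cover hDc hd (σ : G)
  have hδJ : δ ∈ J := by
    have h2 : δ = (σ : G) * (δ⁻¹ * σ)⁻¹ := by group
    rw [h2]
    exact mul_mem σ.2 (inv_mem (hJ hδσ))
  have h3 : σ = ⟨δ, hδJ⟩ * Subgroup.inclusion hJ ⟨δ⁻¹ * σ, hδσ⟩ := by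
    apply Subtype.ext
    change (σ : G) = δ * (δ⁻¹ * σ)
    group
  rw [h3, hm, h1, add_zero]
  exact hD _ hδ

end grp

end Pool.Agent.H517.E
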