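import Pool.Agent.H517.E.Un

/-!
# Control by one place: part UGRP
-/

set_option autoImplicit false
set_option linter.unusedSectionVars false

namespace Pool.Agent.H517.E

open NumberField IsDedekindDomain Module Pool.Agent.W401.Cheb Pool.Agent.NH7.Sch


/-- a bound for the orders of the torsion elements -/
theorem ugrp_tor (G : Type) [CommGroup G] [Group.FG G] :
    ∃ t : ℕ, t ≠ 0 ∧ ∀ (u : G) (k : ℕ), k ≠ 0 → u ^ k = 1 → u ^ t = 1 := by
  obtain ⟨ι, j, _, _, q, hq, e, ⟨f⟩⟩ := CommGroup.equiv_free_prod_prod_multiplicative_zmod G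
  refine ⟨∏ i, q i ^ e i, Finset.prod_ne_zero_iff.2 fun i _ => pow_ne_zero _ (hq i).ne_zero, ?_⟩
  intro u k hk hu
  have h1 : (f u) ^ k = 1 := by rw [← map_pow, hu, map_one]
  have h2 : (f u).1 = 1 := by
    funext x
    have h3 : ((f u).1 x) ^ k = 1 := congrFun (congrArg Prod.fst h1) x
    have h4 : k • (Multiplicative.toAdd ((f u).1 x)) = 0 := by
      rw [← toAdd_pow, h3, toAdd_one]
    have h5 : Multiplicative.toAdd ((f u).1 x) = 0 := by
      rw [nsmul_eq_mul, mul_eq_zero] at h4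
      exact h4.resolve_left (by exact_mod_cast hk)
    exact Multiplicative.toAdd.injective h5
  have h6 : (f u) ^ (∏ i, q i ^ e i) = 1 := by
    refine Prod.ext ?_ ?_
    · rw [Prod.pow_fst, h2, one_pow]
      rfl
    · funext i
      rw [Prod.pow_snd, Pi.pow_apply]
      apply Multiplicative.toAdd.injective
      rw [toAdd_pow, nsmul_eq_mul, (ZMod.natCast_eq_zero_iff _ _).2
        (Finset.dvd_prod_of_mem (fun i => q i ^ e i) (Finset.mem_univ i)), zero_mul]
      rfl
  apply f.injective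
  rw [map_pow, h6, map_one]

theorem u_grp : U_grp := by
  intro p hp E _ _ n ε hε
  obtain ⟨t, ht, htor⟩ := ugrp_tor (E ⧸ Subgroup.closure (Set.range ε))
  obtain ⟨c₀, t', ht', rfl⟩ := Nat.exists_eq_pow_mul_and_not_dvd ht p hp.out.ne_one
  refine ⟨c₀, fun m b u hb i => ?_⟩
  have h1 : (u : E ⧸ Subgroup.closure (Set.range ε)) ^ p ^ (m + c₀) = 1 := by
    rw [← QuotientGroup.mk_pow, ← hb, QuotientGroup.eq_one_iff]
    exact Subgroup.prod_mem _ fun i _ => Subgroup.zpow_mem _
      (Subgroup.subset_closure (Set.mem_range_self i)) _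
  have h2 := htor _ _ (pow_ne_zero _ hp.out.ne_zero) h1
  rw [← QuotientGroup.mk_pow, QuotientGroup.eq_one_iff] at h2
  obtain ⟨d, hd⟩ := Subgroup.exists_of_mem_closure_range ε _ h2
  have h3 : ∏ i, ε i ^ ((t' : ℤ) * b i - (p : ℤ) ^ m * d i) = 1 := by
    have h4 : ∏ i, ε i ^ ((t' : ℤ) * b i) = u ^ (p ^ (m + c₀) * t') := by
      rw [pow_mul, ← hb, ← Finset.prod_pow]
      refine Finset.prod_congr rfl fun i _ => ?_
      rw [mul_comm, zpow_mul, zpow_natCast]
    have h5 : ∏ i, ε i ^ ((p : ℤ) ^ m * d i) = u ^ (p ^ (m + c₀) * t') := by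
      have e1 : p ^ (m + c₀) * t' = (p ^ c₀ * t') * p ^ m := by
        rw [pow_add]
        ring
      rw [e1, pow_mul, hd, ← Finset.prod_pow]
      refine Finset.prod_congr rfl fun i _ => ?_
      rw [mul_comm, zpow_mul, ← zpow_natCast, Nat.cast_pow]
    simp only [zpow_sub]
    rw [Finset.prod_mul_distrib, Finset.prod_inv_distrib, h4, h5, mul_inv_cancel]
  have h6 := congrFun (hε _ h3) i
  have h7 : (p : ℤ) ^ m ∣ (t' : ℤ) * b i := ⟨d i, by
    have h8 : (t' : ℤ) * b i - (p : ℤ) ^ m * d i = 0 := h6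
    linarith⟩
  have h9 : IsCoprime ((p : ℤ) ^ m) (t' : ℤ) := by
    have h10 : Nat.Coprime (p ^ m) t' :=
      Nat.Coprime.pow_left m ((Nat.Prime.coprime_iff_not_dvd hp.out).2 ht')
    have h11 := Nat.isCoprime_iff_coprime.2 h10
    rwa [Nat.cast_pow] at h11
  exact h9.dvd_of_dvd_mul_left h7

end Pool.Agent.H517.E
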