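import Pool.Agent.H517.E.Un

/-!
# Control by one place: part UHEN
-/

set_option autoImplicit false
set_option linter.unusedSectionVars false

namespace Pool.Agent.H517.E

open NumberField IsDedekindDomain Module Pool.Agent.W401.Cheb Pool.Agent.NH7.Sch



section aux

open Polynomial

variable {K : Type} [Field K] [NumberField K]

/-- The valuation property: if a product is small then one of the factors is small. -/
theorem small_factor {Q : Ideal (OO K)} (hQ : Q.IsMaximal) {ι : Type} (s : Finset ι)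
    (b : ι → OO K) (t z P : OO K) (hP : P ≠ 0) (ht : t ∉ Q) (hz : z ∈ Q)
    (h : t * ∏ i ∈ s, b i = P ^ s.card * z) :
    ∃ i ∈ s, ∃ t' : OO K, t' ∉ Q ∧ ∃ r ∈ Q, t' * b i = P * r := by
  classical
  -- a number field containing all the elements
  set S : Set (AlgebraicClosure K) :=
    ((s.image (fun i => ((b i : OO K) : AlgebraicClosure K)) ∪
      {((t : OO K) : AlgebraicClosure K), ((z : OO K) : AlgebraicClosure K),
        ((P : OO K) : AlgebraicClosure K)} : Finset (AlgebraicClosure K)) :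
        Set (AlgebraicClosure K)) with hS
  set M : IntermediateField K (AlgebraicClosure K) := IntermediateField.adjoin K S with hM
  have : FiniteDimensional K M := by
    rw [hM]
    exact IntermediateField.finiteDimensional_adjoin
      (fun x _ => (Algebra.IsIntegral.isIntegral (R := K) x))
  have : NumberField M := NumberField.of_module_finite K M
  have hmem : ∀ x ∈ S, x ∈ M := fun x hx => IntermediateField.subset_adjoin K S hx
  have hlift : ∀ a : OO K, ((a : OO K) : AlgebraicClosure K) ∈ S →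
      ∃ A : 𝓞 M, algebraMap (𝓞 M) (OO K) A = a := by
    intro a ha
    have hint : IsIntegral ℤ (⟨(a : AlgebraicClosure K), hmem _ ha⟩ : M) :=
      (isIntegral_algebraMap_iff (algebraMap M (AlgebraicClosure K)).injective).1
        (RingOfIntegers.isIntegral_coe a)
    exact ⟨⟨⟨(a : AlgebraicClosure K), hmem _ ha⟩, hint⟩, RingOfIntegers.ext rfl⟩
  have hSt : ((t : OO K) : AlgebraicClosure K) ∈ S := by rw [hS]; simp
  have hSz : ((z : OO K) : AlgebraicClosure K) ∈ S := by rw [hS]; simp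
  have hSP : ((P : OO K) : AlgebraicClosure K) ∈ S := by rw [hS]; simp
  have hSb : ∀ i ∈ s, ((b i : OO K) : AlgebraicClosure K) ∈ S := by
    intro i hi
    rw [hS, Finset.mem_coe, Finset.mem_union]
    exact Or.inl (Finset.mem_image.2 ⟨i, hi, rfl⟩)
  obtain ⟨T, hT⟩ := hlift t hSt
  obtain ⟨Z, hZ⟩ := hlift z hSz
  obtain ⟨P', hP'⟩ := hlift P hSP
  have hB : ∀ i : ι, ∃ B : 𝓞 M, i ∈ s → algebraMap (𝓞 M) (OO K) B = b i := by
    intro i
    by_cases hi : i ∈ s
    · obtain ⟨B, hB⟩ := hlift (b i) (hSb i hi)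
      exact ⟨B, fun _ => hB⟩
    · exact ⟨0, fun h => absurd h hi⟩
  choose B hB using hB
  set W : Ideal (𝓞 M) := Q.comap (algebraMap (𝓞 M) (OO K)) with hW
  have hWm : W.IsMaximal := Ideal.isMaximal_comap_of_isIntegral_of_isMaximal Q
  have hW0 : W ≠ ⊥ := Ideal.IsMaximal.ne_bot_of_isIntegral_int W
  let w : HeightOneSpectrum (𝓞 M) := ⟨W, hWm.isPrime, hW0⟩
  have hinj : Function.Injective (algebraMap (𝓞 M) (OO K)) := by
    intro a a' haa
    apply RingOfIntegers.ext
    apply Subtype.ext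
    exact congrArg (fun y : OO K => (y : AlgebraicClosure K)) haa
  have hprod : T * ∏ i ∈ s, B i = P' ^ s.card * Z := by
    apply hinj
    rw [map_mul, map_prod, map_mul, map_pow, hT, hZ, hP', Finset.prod_congr rfl hB, h]
  have hP'0 : P' ≠ 0 := by
    rintro rfl
    rw [map_zero] at hP'
    exact hP hP'.symm
  have hvT : w.valuation M (algebraMap (𝓞 M) M T) = 1 := by
    rw [HeightOneSpectrum.valuation_eq_one_iff_notMem]
    intro h1
    apply ht
    rw [← hT]
    exact h1
  have hvZ : w.valuation M (algebraMap (𝓞 M) M Z) < 1 := by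
    rw [HeightOneSpectrum.valuation_lt_one_iff_mem]
    show algebraMap (𝓞 M) (OO K) Z ∈ Q
    rw [hZ]
    exact hz
  have hvP : w.valuation M (algebraMap (𝓞 M) M P') ≠ 0 := by
    rw [Ne, map_eq_zero]
    intro h0
    apply hP'0
    exact RingOfIntegers.ext h0
  have hv : ∏ i ∈ s, w.valuation M (algebraMap (𝓞 M) M (B i)) =
      (w.valuation M (algebraMap (𝓞 M) M P')) ^ s.card * w.valuation M (algebraMap (𝓞 M) M Z) := by
    have := congrArg (fun a => w.valuation M (algebraMap (𝓞 M) M a)) hprod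
    simp only [map_mul, map_prod, map_pow] at this
    rw [hvT, one_mul] at this
    exact this
  obtain ⟨i, hi, hlt⟩ : ∃ i ∈ s, w.valuation M (algebraMap (𝓞 M) M (B i)) <
      w.valuation M (algebraMap (𝓞 M) M P') := by
    by_contra hcon
    push Not at hcon
    have h1 : (w.valuation M (algebraMap (𝓞 M) M P')) ^ s.card ≤
        ∏ i ∈ s, w.valuation M (algebraMap (𝓞 M) M (B i)) := by
      rw [← Finset.prod_const]
      exact Finset.prod_le_prod' hcon
    rw [hv] at h1
    have h2 : (w.valuation M (algebraMap (𝓞 M) M P')) ^ s.card *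
        w.valuation M (algebraMap (𝓞 M) M Z) <
        (w.valuation M (algebraMap (𝓞 M) M P')) ^ s.card * 1 :=
      (mul_lt_mul_iff_right₀ (zero_lt_iff.2 (pow_ne_zero _ hvP))).2 hvZ
    rw [mul_one] at h2
    exact absurd h1 (not_le.2 h2)
  have hPM : algebraMap (𝓞 M) M P' ≠ 0 := by
    intro h0
    rw [h0, map_zero] at hvP
    exact hvP rfl
  have hva : w.valuation M (algebraMap (𝓞 M) M (B i) / algebraMap (𝓞 M) M P') < 1 := by
    rw [map_div₀]
    exact (div_lt_one₀ (zero_lt_iff.2 hvP)).2 hlt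
  obtain ⟨n, d, hnd⟩ := w.exists_primeCompl_mul_eq_of_integer
    (algebraMap (𝓞 M) M (B i) / algebraMap (𝓞 M) M P') hva.le
  have hvd : w.valuation M (algebraMap (𝓞 M) M d) = 1 := by
    rw [HeightOneSpectrum.valuation_eq_one_iff_notMem]
    exact d.2
  have hn : (n : 𝓞 M) ∈ w.asIdeal := by
    have h1 : w.valuation M (algebraMap (𝓞 M) M n) < 1 := by
      rw [← hnd, map_mul, hvd, mul_one]
      exact hva
    exact (HeightOneSpectrum.valuation_lt_one_iff_mem w n).1 h1
  have hnd' : B i * (d : 𝓞 M) = P' * n := by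
    apply RingOfIntegers.ext
    have e1 : algebraMap (𝓞 M) M (B i) * algebraMap (𝓞 M) M d =
        algebraMap (𝓞 M) M P' * algebraMap (𝓞 M) M n := by
      rw [← hnd]
      field_simp
    rw [← map_mul, ← map_mul] at e1
    exact e1
  refine ⟨i, hi, algebraMap (𝓞 M) (OO K) d, d.2, algebraMap (𝓞 M) (OO K) n, hn, ?_⟩
  rw [← hB i hi, ← map_mul, mul_comm, hnd', map_mul, hP']

/-- `1 - η` divides `p` for the roots of unity `η ≠ 1` of order a power of `p`. -/
theorem one_sub_dvd {R : Type} [CommRing R] [IsDomain R] {p : ℕ} (hp : p.Prime) (m : ℕ) {η : R}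
    (h : η ^ p ^ m = 1) (h1 : η ≠ 1) : 1 - η ∣ (p : R) := by
  have : Fact p.Prime := ⟨hp⟩
  obtain ⟨s, hs, hs'⟩ := (Nat.dvd_prime_pow hp).1 (orderOf_dvd_of_pow_eq_one h)
  have hprim : IsPrimitiveRoot η (p ^ s) := hs' ▸ IsPrimitiveRoot.orderOf η
  cases s with
  | zero =>
    exfalso
    apply h1
    rw [pow_zero] at hprim
    exact IsPrimitiveRoot.one_right_iff.1 hprim
  | succ s =>
    have hroot := hprim.isRoot_cyclotomic (pow_pos hp.pos _)
    have := sub_dvd_eval_sub (1 : R) η (cyclotomic (p ^ (s + 1)) R)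
    rw [eval_one_cyclotomic_prime_pow, hroot.eq_zero, sub_zero] at this
    exact this

/-- an element outside of `w` which times a power of `w` is divisible by `p` -/
theorem exists_denom (w : HeightOneSpectrum (𝓞 K)) (p : ℕ) (hp : p ≠ 0) :
    ∃ (t : 𝓞 K) (c : ℕ), t ∉ w.asIdeal ∧
      Ideal.span {t} * w.asIdeal ^ c ≤ Ideal.span {(p : 𝓞 K)} := by
  have hp0 : (Ideal.span {(p : 𝓞 K)} : Ideal (𝓞 K)) ≠ 0 := by
    rw [Ne, Ideal.zero_eq_bot, Ideal.span_singleton_eq_bot]
    exact_mod_cast hp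
  have hfin : FiniteMultiplicity w.asIdeal (Ideal.span {(p : 𝓞 K)}) :=
    FiniteMultiplicity.of_prime_left (w.prime) hp0
  obtain ⟨b, hb1, hb2⟩ := hfin.exists_eq_pow_mul_and_not_dvd
  have hb3 : ¬ b ≤ w.asIdeal := fun h => hb2 (Ideal.dvd_iff_le.2 h)
  obtain ⟨t, ht1, ht2⟩ := Set.not_subset.1 hb3
  refine ⟨t, multiplicity w.asIdeal (Ideal.span {(p : 𝓞 K)}), ht2, ?_⟩
  refine le_trans ?_ hb1.ge
  rw [mul_comm]
  exact Ideal.mul_mono_right ((Ideal.span_singleton_le_iff_mem _).2 ht1)

end aux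

theorem u_hen : U_hen := by
  classical
  intro p hp K _ _ L _ w Q hQ hQw hpw m
  set q := p ^ m with hq
  have hq0 : 0 < q := pow_pos hp.out.pos m
  obtain ⟨t, c, ht, htc⟩ := exists_denom w p hp.out.ne_zero
  refine ⟨c * q + 1, ?_⟩
  intro x hx
  have hQp : Q.IsPrime := hQ.isPrime
  -- the elements in `OO K`
  set X : OO K := algebraMap (𝓞 L) (OO K) x with hX
  set t' : OO K := algebraMap (𝓞 K) (OO K) t with ht'
  have ht'Q : t' ∉ Q := by
    intro h
    apply ht
    rw [← hQw]
    exact h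
  set J : Ideal (OO K) := Ideal.map (algebraMap (𝓞 K) (OO K)) w.asIdeal with hJ
  have hJQ : J ≤ Q := by
    rw [hJ, Ideal.map_le_iff_le_comap, hQw]
  have hXJ : X - 1 ∈ J ^ (c * q + 1) := by
    have h1 := Ideal.mem_map_of_mem (algebraMap (𝓞 L) (OO K)) hx
    rw [Ideal.map_pow, Ideal.map_map, map_sub, map_one] at h1
    have h2 : (algebraMap (𝓞 L) (OO K)).comp (algebraMap (𝓞 K) (𝓞 L)) =
        algebraMap (𝓞 K) (OO K) := by
      ext a
      rfl
    rw [h2] at h1
    exact h1
  have hX1 : X - 1 ∈ Q := by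
    have : J ^ (c * q + 1) ≤ J := Ideal.pow_le_self (by omega)
    exact hJQ (this hXJ)
  have hXQ : X ∉ Q := by
    intro h
    apply hQ.ne_top
    rw [Ideal.eq_top_iff_one]
    have := Q.sub_mem h hX1
    rwa [sub_sub_cancel] at this
  obtain ⟨z, hz, hzX⟩ : ∃ z ∈ J, ((p : OO K) ^ q) * z = t' ^ q * (X - 1) := by
    rw [← Ideal.mem_span_singleton_mul]
    have h1 : Ideal.span {t'} * J ^ c ≤ Ideal.span {(p : OO K)} := by
      have := Ideal.map_mono (f := algebraMap (𝓞 K) (OO K)) htc
      rw [Ideal.map_mul, Ideal.map_pow, Ideal.map_span, Ideal.map_span, Set.image_singleton,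
        Set.image_singleton, map_natCast] at this
      exact this
    have h2 : Ideal.span {t' ^ q} * J ^ (c * q + 1) ≤ Ideal.span {(p : OO K) ^ q} * J := by
      rw [← Ideal.span_singleton_pow, ← Ideal.span_singleton_pow, pow_add, pow_one, pow_mul,
        ← mul_assoc, ← mul_pow]
      exact Ideal.mul_mono_left (Ideal.pow_right_mono h1 q)
    exact h2 (Ideal.mul_mem_mul (Ideal.mem_span_singleton_self _) hXJ)
  -- a root
  obtain ⟨y0, hy0⟩ := IsAlgClosed.exists_pow_nat_eq ((X : OO K) : AlgebraicClosure K) hq0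
  have hy0int : IsIntegral ℤ y0 := IsIntegral.of_pow hq0 (by
    rw [hy0]
    exact RingOfIntegers.isIntegral_coe X)
  set y : OO K := ⟨y0, hy0int⟩ with hy
  have hyq : y ^ q = X := RingOfIntegers.ext hy0
  -- the roots of unity
  have : NeZero q := ⟨hq0.ne'⟩
  have : CharZero (AlgebraicClosure K) := charZero_of_injective_algebraMap
    (algebraMap K (AlgebraicClosure K)).injective
  obtain ⟨ζ0, hζ0⟩ : ∃ ζ0 : AlgebraicClosure K, IsPrimitiveRoot ζ0 q :=
    HasEnoughRootsOfUnity.exists_primitiveRoot (AlgebraicClosure K) q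
  have hζ0int : IsIntegral ℤ ζ0 := IsIntegral.of_pow hq0 (by
    rw [hζ0.pow_eq_one]
    exact isIntegral_one)
  have hζ : IsPrimitiveRoot (⟨ζ0, hζ0int⟩ : OO K) q := by
    refine IsPrimitiveRoot.of_map_of_injective (f := algebraMap (OO K) (AlgebraicClosure K)) ?_ ?_
    · exact hζ0
    · exact RingOfIntegers.coe_injective
  have hcard : (Polynomial.nthRootsFinset q (1 : OO K)).card = q := hζ.card_nthRootsFinset
  have hfac := hζ.pow_sub_pow_eq_prod_sub_mul y 1 hq0
  have hpne : (p : OO K) ≠ 0 := by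
    intro h0
    have := congrArg (fun a : OO K => (a : AlgebraicClosure K)) h0
    have h2 : ((p : ℕ) : AlgebraicClosure K) = 0 := by
      have e1 : (((p : OO K)) : AlgebraicClosure K) = ((p : ℕ) : AlgebraicClosure K) :=
        map_natCast (algebraMap (OO K) (AlgebraicClosure K)) p
      rw [← e1]
      exact this
    exact hp.out.ne_zero (Nat.cast_eq_zero.1 h2)
  have ht'q : t' ^ q ∉ Q := fun h => ht'Q (hQp.mem_of_pow_mem _ h)
  obtain ⟨η, hη, tt, htt, r, hr, hsm⟩ := small_factor hQ (Polynomial.nthRootsFinset q (1 : OO K))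
    (fun η => y - η * 1) (t' ^ q) z (p : OO K) hpne ht'q (hJQ hz) (by
      rw [← hfac, hcard, hyq, one_pow, hzX])
  have hηq : η ^ q = 1 := (Polynomial.mem_nthRootsFinset hq0 1).1 hη
  rw [mul_one] at hsm
  -- the root which is close to `1`
  set y' : OO K := η ^ (q - 1) * y with hy'
  have hy'q : y' ^ q = X := by
    rw [hy', mul_pow, hyq, ← pow_mul, mul_comm (q - 1) q, pow_mul, hηq, one_pow, one_mul]
  have hy'1 : tt * (y' - 1) = p * (η ^ (q - 1) * r) := by
    have e1 : y' - 1 = η ^ (q - 1) * (y - η) := by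
      rw [mul_sub, ← pow_succ, Nat.sub_add_cancel hq0, hηq]
    rw [e1, mul_left_comm, hsm]
    ring
  set r' : OO K := η ^ (q - 1) * r with hr'
  have hr'Q : r' ∈ Q := Ideal.mul_mem_left _ _ hr
  refine ⟨(y' : AlgebraicClosure K), ?_, ?_⟩
  · exact congrArg (fun a : OO K => (a : AlgebraicClosure K)) hy'q
  · intro σ hσ hσL
    have hσX : σ • X = X := RingOfIntegers.ext (hσL _ (x : L).2)
    have h1 : (σ • y') ^ q - y' ^ q = 0 := by
      rw [← smul_pow', hy'q, hσX, sub_self]
    have h1' := (hζ.pow_sub_pow_eq_prod_sub_mul (σ • y') y' hq0).symm.trans h1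
    rw [Finset.prod_eq_zero_iff] at h1'
    obtain ⟨μ, hμ, hμy⟩ := h1'
    have hμq : μ ^ q = 1 := (Polynomial.mem_nthRootsFinset hq0 1).1 hμ
    have hσy : σ • y' = μ * y' := sub_eq_zero.1 hμy
    have hμ1 : μ = 1 := by
      by_contra hμ1
      obtain ⟨s, hs⟩ := one_sub_dvd hp.out m hμq hμ1
      have hσp : σ • (p : OO K) = p := smul_natCast σ p
      have h2 : (σ • tt) * (σ • y' - 1) = p * (σ • r') := by
        have := congrArg (fun a : OO K => σ • a) hy'1
        simp only [smul_mul', smul_sub, smul_one, hσp] at this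
        exact this
      have hσtt : σ • tt ∉ Q := fun h => htt ((hσ tt).2 h)
      have hσr : σ • r' ∈ Q := (hσ r').1 hr'Q
      have h3 : tt * (σ • tt) * ((μ - 1) * y') = p * (tt * (σ • r') - (σ • tt) * r') := by
        have e1 : (μ - 1) * y' = (σ • y' - 1) - (y' - 1) := by rw [hσy]; ring
        rw [e1, mul_sub]
        have e2 : tt * (σ • tt) * (σ • y' - 1) = tt * ((σ • tt) * (σ • y' - 1)) := by ring
        have e3 : tt * (σ • tt) * (y' - 1) = (σ • tt) * (tt * (y' - 1)) := by ring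
        rw [e2, e3, h2, hy'1]
        ring
      have hy'X : y' * y' ^ (q - 1) = X := by
        rw [← pow_succ', Nat.sub_add_cancel hq0, hy'q]
      have h4 : (1 - μ) * (tt * (σ • tt) * X) =
          (1 - μ) * (- (s * (tt * (σ • r') - (σ • tt) * r') * y' ^ (q - 1))) := by
        have e4 : tt * (σ • tt) * ((μ - 1) * y') * y' ^ (q - 1) =
            p * (tt * (σ • r') - (σ • tt) * r') * y' ^ (q - 1) := by rw [h3]
        rw [hs] at e4
        rw [← hy'X]
        linear_combination (-1 : OO K) * e4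
      have h5 := mul_left_cancel₀ (sub_ne_zero.2 (Ne.symm hμ1)) h4
      have h6 : tt * (σ • tt) * X ∈ Q := by
        rw [h5]
        refine Q.neg_mem (Ideal.mul_mem_right _ _ (Ideal.mul_mem_left _ _ ?_))
        exact Q.sub_mem (Ideal.mul_mem_left _ _ hσr) (Ideal.mul_mem_left _ _ hr'Q)
      rcases hQp.mem_or_mem h6 with h7 | h7
      · rcases hQp.mem_or_mem h7 with h8 | h8
        · exact htt h8
        · exact hσtt h8
      · exact hXQ h7
    rw [hμ1, one_mul] at hσy
    exact congrArg (fun a : OO K => (a : AlgebraicClosure K)) hσy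

end Pool.Agent.H517.E
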