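import Pool.Agent.H517.E.Ari
import Pool.Agent.H517.E.PHen
import Pool.Agent.H517.E.PGrp

/-!
# Leopoldt's conjecture at one place
-/

set_option autoImplicit false
set_option linter.unusedSectionVars false

namespace Pool.Agent.H517.E

open NumberField IsDedekindDomain Module Pool.Agent.W401.Cheb Pool.Agent.NH7.Sch Filter Topology

variable {K : Type} [Field K] [NumberField K] {p : ℕ} [hp : Fact p.Prime]

theorem pow_eq_of_cast {ζ : AlgebraicClosure K} (hζ : IsPrimitiveRoot ζ p) {a b : ℕ}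
    (h : (a : ZMod p) = b) : ζ ^ a = ζ ^ b := by
  rw [ZMod.natCast_eq_natCast_iff] at h
  rw [pow_eq_pow_mod a hζ.pow_eq_one, pow_eq_pow_mod b hζ.pow_eq_one]
  have h1 : a % p = b % p := h
  rw [h1]

/-- a `p`-th root of an element of `L` which is fixed by the control groups is in `L` -/
theorem root_mem {ζ : AlgebraicClosure K} (hζ : IsPrimitiveRoot ζ p)
    {ε : GK K →* (ZMod p)ˣ} (hε : ∀ σ : GK K, σ ζ = ζ ^ (ε σ : ZMod p).val)
    {L : IntermediateField K (AlgebraicClosure K)} {I D : Set (GK K)}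
    (hctl : Ctl (ε.comp L.fixingSubgroup.subtype) {σ : L.fixingSubgroup | (σ : GK K) ∈ I}
      {σ : L.fixingSubgroup | (σ : GK K) ∈ D})
    {y : AlgebraicClosure K} (hy0 : y ≠ 0) (hy : y ^ p ∈ L)
    (hI : ∀ σ ∈ L.fixingSubgroup, σ ∈ I → σ y = y) (hD : ∀ σ ∈ L.fixingSubgroup, σ ∈ D → σ y = y) :
    y ∈ L := by
  have hex : ∀ σ : L.fixingSubgroup, ∃ i : ℕ, i < p ∧ (σ : GK K) y = ζ ^ i * y := by
    intro σ
    have h1 : ((σ : GK K) y / y) ^ p = 1 := by
      rw [div_pow, ← map_pow, (IntermediateField.mem_fixingSubgroup_iff L _).1 σ.2 _ hy,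
        div_self (pow_ne_zero _ hy0)]
    obtain ⟨i, hi, hi'⟩ := hζ.eq_pow_of_pow_eq_one h1
    exact ⟨i, hi, by rw [hi', div_mul_cancel₀ _ hy0]⟩
  choose n hn hny using hex
  have hζ0 : ζ ≠ 0 := hζ.ne_zero hp.out.ne_zero
  have hcz : ∀ (σ : L.fixingSubgroup) (j : ℕ), (σ : GK K) y = ζ ^ j * y → (n σ : ZMod p) = j := by
    intro σ j hj
    have h1 := hny σ
    rw [hj] at h1
    exact (zpow_cast_eq hζ (mul_right_cancel₀ hy0 h1)).symm
  have hfix : ∀ σ : L.fixingSubgroup, (n σ : ZMod p) = 0 ↔ (σ : GK K) y = y := by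
    intro σ
    constructor
    · intro h
      rw [hny, pow_eq_of_cast hζ (b := 0) (by rw [h, Nat.cast_zero]), pow_zero, one_mul]
    · intro h
      rw [hcz σ 0 (by rw [pow_zero, one_mul, h]), Nat.cast_zero]
  have hc := hctl (fun σ => (n σ : ZMod p)) ⟨?_, ?_⟩ (fun σ hσ => (hfix σ).2 (hI σ σ.2 hσ))
    (fun σ hσ => (hfix σ).2 (hD σ σ.2 hσ))
  · have h1 : ∀ σ ∈ L.fixingSubgroup, σ y = y := fun σ hσ => (hfix ⟨σ, hσ⟩).1 (hc ⟨σ, hσ⟩)
    rw [← InfiniteGalois.fixedField_fixingSubgroup L, IntermediateField.mem_fixedField_iff]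
    exact h1
  · -- continuity
    have hint : IsIntegral K y := Algebra.IsIntegral.isIntegral y
    have hfd : FiniteDimensional K (IntermediateField.adjoin K {y}) :=
      IntermediateField.adjoin.finiteDimensional hint
    have ho : IsOpen ((IntermediateField.adjoin K {y}).fixingSubgroup : Set (GK K)) :=
      IntermediateField.fixingSubgroup_isOpen _
    have ho' : IsOpen {σ : L.fixingSubgroup | (σ : GK K) ∈
        (IntermediateField.adjoin K {y}).fixingSubgroup} := ho.preimage continuous_subtype_val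
    refine IsLocallyConstant.continuous ?_
    rw [IsLocallyConstant.iff_exists_open]
    intro σ
    refine ⟨(fun τ => σ⁻¹ * τ) ⁻¹' {σ : L.fixingSubgroup | (σ : GK K) ∈
        (IntermediateField.adjoin K {y}).fixingSubgroup}, ho'.preimage (continuous_const_mul _), ?_, ?_⟩
    · show ((σ⁻¹ * σ : L.fixingSubgroup) : GK K) ∈ (IntermediateField.adjoin K {y}).fixingSubgroup
      rw [inv_mul_cancel]
      exact one_mem _
    · intro τ hτ
      have h1 : ((σ⁻¹ * τ : L.fixingSubgroup) : GK K) y = y :=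
        (IntermediateField.mem_fixingSubgroup_iff _ _).1 hτ y (IntermediateField.mem_adjoin_simple_self K y)
      have h2 : (τ : GK K) y = (σ : GK K) y := by
        have h3 := congrArg (fun z => (σ : GK K) z) h1
        have h4 : (σ : GK K) (((σ⁻¹ * τ : L.fixingSubgroup) : GK K) y) = (τ : GK K) y := by
          have h5 : (σ : GK K) * ((σ⁻¹ * τ : L.fixingSubgroup) : GK K) = (τ : GK K) := by
            show (σ : GK K) * ((σ : GK K)⁻¹ * (τ : GK K)) = (τ : GK K)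
            group
          rw [← AlgEquiv.mul_apply, h5]
        exact h4.symm.trans h3
      exact hcz τ (n σ) (by rw [h2, hny])
  · -- the cocycle relation
    intro σ τ
    have h1 : ((σ * τ : L.fixingSubgroup) : GK K) y = ζ ^ ((ε (σ : GK K) : ZMod p).val * n τ + n σ) * y := by
      show ((σ : GK K) * (τ : GK K)) y = _
      rw [AlgEquiv.mul_apply, hny τ, map_mul, map_pow, hε, hny σ, ← pow_mul, pow_add, mul_assoc]
    have h2 := hcz _ _ h1
    beta_reduce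
    rw [h2]
    push_cast
    rw [ZMod.natCast_zmod_val, add_comm]
    rfl

/-- the same for roots of order a power of `p` -/
theorem root_mem_pow {ζ : AlgebraicClosure K} (hζ : IsPrimitiveRoot ζ p)
    {ε : GK K →* (ZMod p)ˣ} (hε : ∀ σ : GK K, σ ζ = ζ ^ (ε σ : ZMod p).val)
    {L : IntermediateField K (AlgebraicClosure K)} {I D : Set (GK K)}
    (hctl : Ctl (ε.comp L.fixingSubgroup.subtype) {σ : L.fixingSubgroup | (σ : GK K) ∈ I}
      {σ : L.fixingSubgroup | (σ : GK K) ∈ D})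
    (hIQ : ∀ σ ∈ I, ∃ Q : Ideal (OO K), Q.IsMaximal ∧ (p : OO K) ∉ Q ∧ σ ∈ Inr Q) (m : ℕ) :
    ∀ (y : AlgebraicClosure K), IsIntegral ℤ y → IsIntegral ℤ y⁻¹ → y ≠ 0 → y ^ p ^ m ∈ L →
      (∀ σ ∈ L.fixingSubgroup, σ ∈ D → σ y = y) → y ∈ L := by
  induction m with
  | zero =>
    intro y _ _ _ h _
    rwa [pow_zero, pow_one] at h
  | succ m ih =>
    intro y hy hy' hy0 h hD
    have h1 : y ^ p ∈ L := by
      refine ih (y ^ p) (hy.pow p) (by rw [← inv_pow]; exact hy'.pow p) (pow_ne_zero _ hy0) ?_ ?_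
      · rwa [← pow_mul, ← pow_succ']
      · intro σ hσ hσD
        rw [map_pow, hD σ hσ hσD]
    refine root_mem hζ hε hctl hy0 h1 ?_ hD
    intro σ hσ hσI
    obtain ⟨Q, hQ, hpQ, hσQ⟩ := hIQ σ hσI
    -- the quotient is a root of unity
    have h2 : (σ y / y) ^ p = 1 := by
      rw [div_pow, ← map_pow, (IntermediateField.mem_fixingSubgroup_iff L _).1 hσ _ h1,
        div_self (pow_ne_zero _ hy0)]
    obtain ⟨Y, hY⟩ : ∃ Y : OO K, (Y : AlgebraicClosure K) = y := ⟨⟨y, hy⟩, rfl⟩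
    obtain ⟨Y', hY'⟩ : ∃ Y' : OO K, (Y' : AlgebraicClosure K) = y⁻¹ := ⟨⟨y⁻¹, hy'⟩, rfl⟩
    obtain ⟨R, hR⟩ : ∃ R : OO K, (R : AlgebraicClosure K) = σ y / y := ⟨(σ • Y) * Y', by
      show ((σ • Y : OO K) : AlgebraicClosure K) * (Y' : AlgebraicClosure K) = _
      rw [hY', div_eq_mul_inv, ← hY]
      rfl⟩
    have hR1 : R ^ p = 1 := by
      apply RingOfIntegers.ext
      show (R : AlgebraicClosure K) ^ p = 1
      rw [hR, h2]
    have hRe : R - 1 = (σ • Y - Y) * Y' := by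
      apply RingOfIntegers.ext
      show (R : AlgebraicClosure K) - 1 = (((σ • Y : OO K) : AlgebraicClosure K) - (Y : AlgebraicClosure K)) *
        (Y' : AlgebraicClosure K)
      have e : ((σ • Y : OO K) : AlgebraicClosure K) = σ y := by rw [← hY]; rfl
      rw [hR, e, hY, hY', sub_mul, mul_inv_cancel₀ hy0, div_eq_mul_inv]
    have h3 : R - 1 ∈ Q := by
      rw [hRe]
      exact Ideal.mul_mem_right _ _ (hσQ Y)
    have h4 := Pool.Agent.Y802.root_eq hpQ (x := R) (y := 1) hR1 (one_pow _) h3 hp.out.ne_zero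
    have h5 : σ y / y = 1 := by
      rw [← hR, h4]
      rfl
    rwa [div_eq_one_iff_eq hy0] at h5

/-- **Leopoldt's conjecture at one place.** -/
theorem leo {w : HeightOneSpectrum (𝓞 K)} (hw : (p : 𝓞 K) ∈ w.asIdeal)
    {ζ : AlgebraicClosure K} (hζ : IsPrimitiveRoot ζ p)
    {ε : GK K →* (ZMod p)ˣ} (hε : ∀ σ : GK K, σ ζ = ζ ^ (ε σ : ZMod p).val)
    {L : IntermediateField K (AlgebraicClosure K)} [NumberField L] {I : Set (GK K)}
    {Q : Ideal (OO K)} (hQ : Q.IsMaximal) (hQw : Q.comap (algebraMap (𝓞 K) (OO K)) = w.asIdeal)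
    (hctl : Ctl (ε.comp L.fixingSubgroup.subtype) {σ : L.fixingSubgroup | (σ : GK K) ∈ I}
      {σ : L.fixingSubgroup | (σ : GK K) ∈ Dec Q})
    (hIQ : ∀ σ ∈ I, ∃ Q : Ideal (OO K), Q.IsMaximal ∧ (p : OO K) ∉ Q ∧ σ ∈ Inr Q)
    {n : ℕ} {u : Fin n → (𝓞 L)ˣ} (hu : ∀ c : Fin n → ℤ, ∏ i, u i ^ c i = 1 → c = 0)
    {a : Fin n → ℤ_[p]} {m : ℕ → Fin n → ℤ}
    (hm : ∀ i, Tendsto (fun k => ((m k i : ℤ) : ℤ_[p])) atTop (𝓝 (a i)))
    (h : ∀ N : ℕ, ∀ᶠ k in atTop, ((∏ i, u i ^ m k i : (𝓞 L)ˣ) : 𝓞 L) - 1 ∈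
      (Ideal.map (algebraMap (𝓞 K) (𝓞 L)) w.asIdeal) ^ N) : a = 0 := by
  have hfg : Group.FG (𝓞 L)ˣ := Group.fg_iff_monoid_fg.2 inferInstance
  obtain ⟨c₀, hc₀⟩ := u_grp p (𝓞 L)ˣ n u hu
  have hp0 := hp.out.ne_zero
  have hint : ∀ z : 𝓞 L, IsIntegral ℤ ((z : L) : AlgebraicClosure K) := fun z =>
    (RingOfIntegers.isIntegral_coe z).algebraMap (B := AlgebraicClosure K)
  have key : ∀ M : ℕ, ∀ᶠ k in atTop, ∀ i, (p : ℤ) ^ M ∣ m k i := by
    intro M
    obtain ⟨N, hN⟩ := u_hen p K L w Q hQ hQw hw (M + c₀)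
    filter_upwards [h N] with k hk
    obtain ⟨y, hy, hyD⟩ := hN _ hk
    obtain ⟨x, hx⟩ : ∃ x : (𝓞 L)ˣ, x = ∏ i, u i ^ m k i := ⟨_, rfl⟩
    rw [← hx] at hy
    have hxx : (((x : 𝓞 L) : L) : AlgebraicClosure K) * ((((x⁻¹ : (𝓞 L)ˣ) : 𝓞 L) : L) : AlgebraicClosure K) = 1 := by
      have h1 : (x : 𝓞 L) * ((x⁻¹ : (𝓞 L)ˣ) : 𝓞 L) = 1 := Units.mul_inv x
      have h2 := congrArg (fun z : 𝓞 L => ((z : L) : AlgebraicClosure K)) h1
      exact h2
    have hx0 : (((x : 𝓞 L) : L) : AlgebraicClosure K) ≠ 0 := left_ne_zero_of_mul_eq_one hxx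
    have hy0 : y ≠ 0 := by
      rintro rfl
      rw [zero_pow (pow_ne_zero _ hp0)] at hy
      exact hx0 hy.symm
    have hpos : 0 < p ^ (M + c₀) := pow_pos hp.out.pos _
    have hyi : IsIntegral ℤ y := IsIntegral.of_pow hpos (by rw [hy]; exact hint _)
    have hyi' : IsIntegral ℤ y⁻¹ := by
      refine IsIntegral.of_pow hpos ?_
      rw [inv_pow, hy, inv_eq_of_mul_eq_one_right hxx]
      exact hint _
    have hyL : y ∈ L := root_mem_pow hζ hε hctl hIQ (M + c₀) y hyi hyi' hy0 (by rw [hy]; exact SetLike.coe_mem _)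
      (fun σ hσ hσD => hyD σ hσD ((IntermediateField.mem_fixingSubgroup_iff L _).1 hσ))
    have hyL' : y⁻¹ ∈ L := L.inv_mem hyL
    have h3 : IsIntegral ℤ (⟨y, hyL⟩ : L) :=
      (isIntegral_algebraMap_iff (FaithfulSMul.algebraMap_injective L (AlgebraicClosure K))).1 hyi
    have h4 : IsIntegral ℤ (⟨y⁻¹, hyL'⟩ : L) :=
      (isIntegral_algebraMap_iff (FaithfulSMul.algebraMap_injective L (AlgebraicClosure K))).1 hyi'
    have h5 : (⟨⟨y, hyL⟩, h3⟩ : 𝓞 L) * ⟨⟨y⁻¹, hyL'⟩, h4⟩ = 1 := by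
      apply RingOfIntegers.ext
      apply Subtype.ext
      exact mul_inv_cancel₀ hy0
    refine hc₀ M (m k) (Units.mkOfMulEqOne _ _ h5) ?_
    rw [← hx]
    apply Units.ext
    apply RingOfIntegers.ext
    apply Subtype.ext
    exact hy.symm
  funext i
  have h6 : ∀ M : ℕ, ‖a i‖ ≤ (p : ℝ) ^ (-M : ℤ) := by
    intro M
    refine le_of_tendsto (hm i).norm ((key M).mono fun k hk => ?_)
    rw [PadicInt.norm_int_le_pow_iff_dvd]
    exact_mod_cast hk i
  by_contra h7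
  have h8 : 0 < ‖a i‖ := norm_pos_iff.2 h7
  obtain ⟨M, hM⟩ := PadicInt.exists_pow_neg_lt p h8
  exact absurd (h6 M) (not_le.2 hM)

end Pool.Agent.H517.E
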