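import Pool.Agent.H517.E.Om
import Pool.Agent.H517.S.Fm

/-!
# Control by one place over the towers
-/

set_option autoImplicit false
set_option linter.unusedSectionVars false

namespace Pool.Agent.H517.E

open NumberField IsDedekindDomain Module Pool.Agent.W401.Cheb Pool.Agent.NH7.Sch

variable {p : ℕ} [hp : Fact p.Prime]

theorem cy_one {G : Type} [Group G] [TopologicalSpace G] {h : G → ZMod p} :
    Cy (1 : G →* (ZMod p)ˣ) h ↔ Continuous h ∧ ∀ σ τ, h (σ * τ) = h σ + h τ := by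
  unfold Cy
  simp only [MonoidHom.one_apply, Units.val_one, one_mul]

section grp

variable {G : Type} [Group G] [TopologicalSpace G] [IsTopologicalGroup G]

/-- from the subgroups of index `p` to homomorphisms -/
theorem ctl_of_tower {I : Set G} {D : Set G}
    (h : ∀ N : Subgroup G, N.Normal → IsOpen (N : Set G) → N.index = p → (∀ σ ∈ I, σ ∈ N) →
      ∃ σ ∈ D, σ ∉ N) : Ctl (1 : G →* (ZMod p)ˣ) I D := by
  intro c hc hI hD
  obtain ⟨hcc, hm⟩ := cy_one.1 hc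
  by_contra hcon
  push Not at hcon
  obtain ⟨τ, hτ⟩ := hcon
  let f : G →* Multiplicative (ZMod p) :=
    { toFun := fun σ => Multiplicative.ofAdd (c σ)
      map_one' := by
        have h1 := hm 1 1
        rw [mul_one] at h1
        rw [left_eq_add.1 h1]
        rfl
      map_mul' := fun σ τ => by rw [hm]; rfl }
  have hf : ∀ σ, σ ∈ f.ker ↔ c σ = 0 := by
    intro σ
    rw [MonoidHom.mem_ker]
    exact Iff.rfl
  have hr : f.range = ⊤ := by
    have h1 : Nat.card f.range ∣ Nat.card (Multiplicative (ZMod p)) := Subgroup.card_subgroup_dvd_card _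
    have h2 : Nat.card (Multiplicative (ZMod p)) = p := by
      rw [Nat.card_congr Multiplicative.toAdd, Nat.card_zmod]
    rw [h2, Nat.dvd_prime hp.out] at h1
    rcases h1 with h1 | h1
    · exfalso
      rw [Subgroup.card_eq_one] at h1
      have h3 : f τ ∈ f.range := ⟨τ, rfl⟩
      rw [h1, Subgroup.mem_bot] at h3
      exact hτ h3
    · exact Subgroup.eq_top_of_card_eq _ (by rw [h1, h2])
  have hi : f.ker.index = p := by
    rw [Subgroup.index_ker, hr, Subgroup.card_top, Nat.card_congr Multiplicative.toAdd, Nat.card_zmod]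
  have ho : IsOpen (f.ker : Set G) := by
    have h1 : (f.ker : Set G) = c ⁻¹' {0} := by
      ext σ
      exact hf σ
    rw [h1]
    exact (isOpen_discrete _).preimage hcc
  obtain ⟨σ, hσ, hσ'⟩ := h f.ker inferInstance ho hi fun σ hσ => (hf σ).2 (hI σ hσ)
  exact hσ' ((hf σ).2 (hD σ hσ))

/-- **Control over the towers.** -/
theorem ctl_mid (abs : T_abs) {I : Set G} (hIc : ∀ g, ∀ σ ∈ I, g * σ * g⁻¹ ∈ I) {D : Subgroup G}
    {ε : G →* (ZMod p)ˣ} (h1 : Ctl (1 : G →* (ZMod p)ˣ) I D) (h2 : Ctl ε I D)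
    (hε : ∃ δ ∈ D, ε δ ≠ 1) {H M : Subgroup G} (hMH : M ≤ H) (hMn : M.Normal)
    (hMi : ∃ a : ℕ, M.index = p ^ a) (hMo : IsOpen (M : Set G)) (hIM : ∀ x ∈ I, x ∈ M) :
    Ctl (1 : H →* (ZMod p)ˣ) {σ : H | (σ : G) ∈ I} {σ : H | (σ : G) ∈ D} ∧
    Ctl (ε.comp H.subtype) {σ : H | (σ : G) ∈ I} {σ : H | (σ : G) ∈ D} := by
  have hkey : ∀ h : G → ZMod p, Continuous h → (∀ σ τ, h (σ * τ) = h σ + h τ) →
      (∀ σ ∈ I, h σ = 0) → (∀ σ ∈ D, h σ = 0) → ∀ σ, h σ = 0 :=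
    fun h hc hm hI hD => h1 h (cy_one.2 ⟨hc, hm⟩) hI hD
  refine ⟨?_, ?_⟩
  · refine ctl_of_tower fun N hN hNo hNi hIN => ?_
    obtain ⟨σ, hσ, hσ'⟩ := S.tower (p := p) (I := I) (fun g x hx => hIc g x hx) hkey hMH hMn hMi hMo
      hIM hN hNo hNi fun x hx => hIN x hx
    exact ⟨σ, hσ, hσ'⟩
  · have hdm : ∀ g, ∃ δ ∈ D, δ⁻¹ * g ∈ M := fun g => S.dense_of hkey hMn hMo hMi hIM g
    have hM := abs p G M D I ε hMn hMo hMi hdm hIM hIc h2
    intro c ⟨hc, hm⟩ hI hD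
    have h3 : ∀ (σ : G) (hσ : σ ∈ M), c ⟨σ, hMH hσ⟩ = 0 := by
      intro σ hσ
      refine hM (fun τ => c ⟨τ, hMH τ.2⟩) ⟨?_, fun σ τ => ?_⟩ ?_ ?_ ⟨σ, hσ⟩
      · exact hc.comp (continuous_subtype_val.subtype_mk _)
      · exact hm ⟨σ, hMH σ.2⟩ ⟨τ, hMH τ.2⟩
      · exact fun τ hτ => hI ⟨τ, hMH τ.2⟩ hτ
      · exact fun τ hτ => hD ⟨τ, hMH τ.2⟩ hτ
    obtain ⟨δ, -, hδ⟩ := hε
    obtain ⟨a, ha⟩ := hMi
    have hτM : δ ^ p ^ a ∈ M := by
      rw [← ha]
      exact Subgroup.pow_index_mem M δ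
    have hpw : ∀ (u : (ZMod p)ˣ) (a : ℕ), u ^ p ^ a = u := by
      intro u a
      induction a with
      | zero => rw [pow_zero, pow_one]
      | succ a ih =>
        rw [pow_succ, pow_mul, ih]
        apply Units.ext
        rw [Units.val_pow_eq_pow_val, ZMod.pow_card]
    have hτε : ε (δ ^ p ^ a) ≠ 1 := by
      rw [map_pow, hpw]
      exact hδ
    generalize δ ^ p ^ a = τ at hτM hτε
    intro σ
    set t : H := ⟨τ, hMH hτM⟩ with ht
    have e1 : c (t * σ) = (ε τ : ZMod p) * c σ := by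
      rw [hm, h3 τ hτM, zero_add]
      rfl
    have e2 : c (t * σ) = c σ := by
      have e3 : t * σ = σ * (σ⁻¹ * t * σ) := by group
      have h4 : (σ : G)⁻¹ * τ * σ ∈ M := by
        have h5 := hMn.conj_mem τ hτM (σ : G)⁻¹
        rwa [inv_inv] at h5
      rw [e3, hm]
      have h5 : c (σ⁻¹ * t * σ) = 0 := h3 _ h4
      rw [h5, mul_zero, add_zero]
    have e4 : ((ε τ : ZMod p) - 1) * c σ = 0 := by
      rw [sub_mul, one_mul, ← e1, e2, sub_self]
    rcases mul_eq_zero.1 e4 with h5 | h5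
    · exact absurd (Units.ext (sub_eq_zero.1 h5)) hτε
    · exact h5

end grp

/-- a continuous function on a compact space, multiplied by a power of `p`, is integral -/
theorem exists_int {G : Type} [TopologicalSpace G] [CompactSpace G] {n : ℕ}
    {c : G → Fin n → ℚ_[p]} (hc : Continuous c) :
    ∃ (N : ℕ) (d : G → Fin n → ℤ_[p]), Continuous d ∧
      ∀ σ i, (d σ i : ℚ_[p]) = (p : ℚ_[p]) ^ N * c σ i := by
  obtain ⟨C, hC⟩ := isCompact_univ.exists_bound_of_continuousOn (f := c) hc.continuousOn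
  obtain ⟨N, hN⟩ := pow_unbounded_of_one_lt C (by exact_mod_cast hp.out.one_lt : (1 : ℝ) < p)
  have h1 : ∀ σ i, ‖(p : ℚ_[p]) ^ N * c σ i‖ ≤ 1 := by
    intro σ i
    have h2 : ‖c σ i‖ ≤ (p : ℝ) ^ N := ((norm_le_pi_norm _ i).trans (hC σ trivial)).trans hN.le
    have h3 : (0 : ℝ) < (p : ℝ) ^ N := pow_pos (by exact_mod_cast hp.out.pos) _
    rw [norm_mul, norm_pow, Padic.norm_p, inv_pow]
    calc ((p : ℝ) ^ N)⁻¹ * ‖c σ i‖ ≤ ((p : ℝ) ^ N)⁻¹ * (p : ℝ) ^ N :=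
          mul_le_mul_of_nonneg_left h2 (inv_nonneg.2 h3.le)
      _ = 1 := inv_mul_cancel₀ h3.ne'
  refine ⟨N, fun σ i => ⟨(p : ℚ_[p]) ^ N * c σ i, h1 σ i⟩, ?_, fun σ i => rfl⟩
  refine continuous_pi fun i => ?_
  refine Continuous.subtype_mk ?_ _
  exact continuous_const.mul ((continuous_apply i).comp hc)

/-- **The vanishing.** -/
theorem van (fil : T_fil) {G : Type} [Group G] [TopologicalSpace G] [IsTopologicalGroup G]
    [CompactSpace G] {I D : Set G} {ε : G →* (ZMod p)ˣ} (h1 : Ctl (1 : G →* (ZMod p)ˣ) I D)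
    (h2 : Ctl ε I D) {n : ℕ} {ρ : G →* Matrix (Fin n) (Fin n) ℤ_[p]} (hρ : Continuous ρ)
    (hres : ∀ σ, ∃ k l : ℕ, (ρ σ).charpoly.map (PadicInt.toZMod (p := p)) =
        (Polynomial.X - 1) ^ k * (Polynomial.X - Polynomial.C (ε σ : ZMod p)) ^ l)
    (hρI : ∀ σ ∈ I, ρ σ = 1) {c : G → Fin n → ℚ_[p]} (hc : Continuous c)
    (hcoc : ∀ σ τ, c (σ * τ) = c σ + ((ρ σ).map (algebraMap ℤ_[p] ℚ_[p])).mulVec (c τ))
    (hI : ∀ σ ∈ I, c σ = 0)
    (hD : ∃ y, ∀ σ ∈ D, c σ = ((ρ σ).map (algebraMap ℤ_[p] ℚ_[p])).mulVec y - y) :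
    ∃ y, ∀ σ, c σ = ((ρ σ).map (algebraMap ℤ_[p] ℚ_[p])).mulVec y - y := by
  obtain ⟨y, hy⟩ := hD
  refine ⟨y, ?_⟩
  have hcont : Continuous fun σ => c σ - (((ρ σ).map (algebraMap ℤ_[p] ℚ_[p])).mulVec y - y) := by
    refine hc.sub (Continuous.sub ?_ continuous_const)
    refine Continuous.matrix_mulVec ?_ continuous_const
    refine continuous_pi fun i => continuous_pi fun j => ?_
    have h3 : Continuous fun σ => ρ σ i j := (continuous_apply j).comp ((continuous_apply i).comp hρ)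
    exact continuous_subtype_val.comp h3
  obtain ⟨N, d, hd, hdc⟩ := exists_int hcont
  have hpN : (p : ℚ_[p]) ^ N ≠ 0 := pow_ne_zero _ (by exact_mod_cast hp.out.ne_zero)
  have h0 := fil p G I D ε h1 h2 n ρ hρ hres d hd ?_ ?_ ?_
  · intro σ
    have h3 : ∀ i, (c σ - (((ρ σ).map (algebraMap ℤ_[p] ℚ_[p])).mulVec y - y)) i = 0 := by
      intro i
      have h4 := hdc σ i
      rw [h0 σ, Pi.zero_apply, PadicInt.coe_zero] at h4
      exact (mul_eq_zero.1 h4.symm).resolve_left hpN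
    exact sub_eq_zero.1 (funext h3)
  · intro σ τ
    funext i
    apply Subtype.coe_injective
    have e1 : ∀ v : Fin n → ℤ_[p], algebraMap ℤ_[p] ℚ_[p] ((ρ σ).mulVec v i) =
        ((ρ σ).map (algebraMap ℤ_[p] ℚ_[p])).mulVec (fun j => (v j : ℚ_[p])) i := by
      intro v
      rw [Matrix.mulVec, Matrix.mulVec, dotProduct, dotProduct, map_sum]
      refine Finset.sum_congr rfl fun j _ => ?_
      rw [map_mul]
      rfl
    show ((d (σ * τ) i : ℤ_[p]) : ℚ_[p]) =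
      algebraMap ℤ_[p] ℚ_[p] (d σ i + (ρ σ).mulVec (d τ) i)
    have e0 : algebraMap ℤ_[p] ℚ_[p] (d σ i) = (d σ i : ℚ_[p]) := rfl
    rw [map_add, e1, e0, hdc, hdc]
    have e2 : (fun j => (d τ j : ℚ_[p])) = (p : ℚ_[p]) ^ N •
        (c τ - (((ρ τ).map (algebraMap ℤ_[p] ℚ_[p])).mulVec y - y)) := by
      funext j
      rw [hdc]
      rfl
    have e3 : ((ρ (σ * τ)).map (algebraMap ℤ_[p] ℚ_[p])) =
        (ρ σ).map (algebraMap ℤ_[p] ℚ_[p]) * (ρ τ).map (algebraMap ℤ_[p] ℚ_[p]) := by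
      rw [map_mul, Matrix.map_mul]
    rw [e2, Matrix.mulVec_smul, hcoc, e3, ← Matrix.mulVec_mulVec, Matrix.mulVec_sub, Matrix.mulVec_sub,
      Pi.smul_apply, smul_eq_mul]
    simp only [Pi.sub_apply, Pi.add_apply]
    ring
  · intro σ hσ
    funext i
    apply Subtype.coe_injective
    show ((d σ i : ℤ_[p]) : ℚ_[p]) = 0
    rw [hdc, hI σ hσ, hρI σ hσ, Matrix.map_one _ (map_zero _) (map_one _), Matrix.one_mulVec, sub_self,
      sub_zero]
    simp
  · intro σ hσ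
    funext i
    apply Subtype.coe_injective
    show ((d σ i : ℤ_[p]) : ℚ_[p]) = 0
    rw [hdc, hy σ hσ, sub_self]
    simp

end Pool.Agent.H517.E
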