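import Pool.Agent.H517.E.Mid
import Pool.Agent.H517.E.PExt
import Pool.Agent.H517.E.PAbs
import Pool.Agent.H517.E.PTwo

/-!
# Control by one place over the towers above the field of the cube roots of unity
-/

set_option autoImplicit false
set_option linter.unusedSectionVars false

namespace Pool.Agent.H517.E

open NumberField IsDedekindDomain Module Pool.Agent.W401.Cheb Pool.Agent.NH7.Sch

variable {G : Type} [Group G] [TopologicalSpace G] [IsTopologicalGroup G]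

theorem units3 (u : (ZMod 3)ˣ) : u = 1 ∨ u = -1 := by
  revert u
  decide

theorem add_self3 : ∀ x : ZMod 3, x + x = 0 → x = 0 := by
  decide

/-- **Control over the towers**, `p = 3`. -/
theorem ctl_mid3 {I : Set G} (hIc : ∀ g, ∀ σ ∈ I, g * σ * g⁻¹ ∈ I) {D : Subgroup G}
    {ε : G →* (ZMod 3)ˣ} (h1 : Ctl (1 : G →* (ZMod 3)ˣ) I D) (h2 : Ctl ε I D)
    (hε : ∃ δ ∈ D, ε δ ≠ 1) (hεo : IsOpen (ε.ker : Set G)) {H M : Subgroup G} (hMH : M ≤ H)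
    (hMn : M.Normal) (hMε : M ≤ ε.ker) (hMi : ∃ a : ℕ, M.relIndex ε.ker = 3 ^ a)
    (hMo : IsOpen (M : Set G)) (hIM : ∀ x ∈ I, x ∈ M) :
    (∀ g : G, ∃ δ ∈ D, δ⁻¹ * g ∈ M) ∧
    (Ctl (1 : (ε.ker : Subgroup G) →* (ZMod 3)ˣ) {σ : ε.ker | (σ : G) ∈ I} {σ : ε.ker | (σ : G) ∈ D}) ∧
    Ctl (1 : H →* (ZMod 3)ˣ) {σ : H | (σ : G) ∈ I} {σ : H | (σ : G) ∈ D} ∧
    Ctl (ε.comp H.subtype) {σ : H | (σ : G) ∈ I} {σ : H | (σ : G) ∈ D} := by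
  have hp3 : Fact (Nat.Prime 3) := ⟨Nat.prime_three⟩
  obtain ⟨B, hB⟩ : ∃ B, B = ε.ker := ⟨_, rfl⟩
  rw [← hB] at hεo hMε hMi ⊢
  have hBε : ∀ σ, σ ∈ B ↔ ε σ = 1 := fun σ => by rw [hB, MonoidHom.mem_ker]
  obtain ⟨δ₀, hδ₀, hδ₀ε⟩ := hε
  have hδ₀B : δ₀ ∉ B := fun h => hδ₀ε ((hBε _).1 h)
  have hBctl := t_two t_ext G B D I ε hεo hBε ⟨δ₀, hδ₀, hδ₀B⟩ (fun σ hσ => hMε (hIM σ hσ)) hIc h1 h2
  have hBn : B.Normal := by rw [hB]; infer_instance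
  -- homomorphisms on `B`
  have hkeyB : ∀ h : B → ZMod 3, Continuous h → (∀ σ τ, h (σ * τ) = h σ + h τ) →
      (∀ σ ∈ {σ : B | (σ : G) ∈ I}, h σ = 0) → (∀ σ ∈ D.subgroupOf B, h σ = 0) → ∀ σ, h σ = 0 :=
    fun h hc hm hI hD => hBctl h (cy_one.2 ⟨hc, hm⟩) hI fun σ hσ => hD σ hσ
  have hMn' : (M.subgroupOf B).Normal := inferInstance
  have hMo' : IsOpen ((M.subgroupOf B : Subgroup B) : Set B) :=
    hMo.preimage continuous_subtype_val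
  have hMi' : ∃ a : ℕ, (M.subgroupOf B).index = 3 ^ a := hMi
  have hdB : ∀ g ∈ B, ∃ δ ∈ D, δ⁻¹ * g ∈ M := by
    intro g hg
    obtain ⟨δ, hδ, hδg⟩ := S.dense_of (p := 3) hkeyB hMn' hMo' hMi' (fun x hx => hIM _ hx) ⟨g, hg⟩
    exact ⟨δ, hδ, hδg⟩
  have hBB : ∀ g, g ∉ B → δ₀⁻¹ * g ∈ B := by
    intro g hg
    rw [hBε] at hg hδ₀B ⊢
    rw [map_mul, map_inv]
    rcases units3 (ε g) with h | h
    · exact absurd h hg
    · rcases units3 (ε δ₀) with h' | h'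
      · exact absurd h' hδ₀B
      · rw [h, h']
        decide
  have hd : ∀ g : G, ∃ δ ∈ D, δ⁻¹ * g ∈ M := by
    intro g
    by_cases hg : g ∈ B
    · exact hdB g hg
    · obtain ⟨δ, hδ, hδg⟩ := hdB _ (hBB g hg)
      exact ⟨δ₀ * δ, D.mul_mem hδ₀ hδ, by rwa [mul_inv_rev, mul_assoc]⟩
  refine ⟨hd, hBctl, ?_⟩
  -- homomorphisms on the intersection of `H` and `B`
  have hHB : ∀ c : H → ZMod 3, Continuous c →
      (∀ σ τ : H, (σ : G) ∈ B → (τ : G) ∈ B → c (σ * τ) = c σ + c τ) →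
      (∀ σ : H, (σ : G) ∈ I → c σ = 0) → (∀ σ : H, (σ : G) ∈ D → c σ = 0) →
      ∀ σ : H, (σ : G) ∈ B → c σ = 0 := by
    intro c hc hm hI hD σ hσ
    have hctl : Ctl (1 : (H.subgroupOf B) →* (ZMod 3)ˣ) {σ : H.subgroupOf B | ((σ : B) : G) ∈ I}
        {σ : H.subgroupOf B | ((σ : B) : G) ∈ D} := by
      refine ctl_of_tower fun N hN hNo hNi hIN => ?_
      obtain ⟨σ, hσ, hσ'⟩ := S.tower (p := 3) (G := B) (I := {σ : B | (σ : G) ∈ I})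
        (fun g x hx => hIc g x hx) (D := D.subgroupOf B) hkeyB (H := H.subgroupOf B)
        (M := M.subgroupOf B) (fun x hx => hMH hx) hMn' hMi' hMo' (fun x hx => hIM _ hx) hN hNo hNi
        fun x hx => hIN x hx
      exact ⟨σ, hσ, hσ'⟩
    refine hctl (fun τ => c ⟨((τ : B) : G), τ.2⟩) (cy_one.2 ⟨?_, fun τ τ' => ?_⟩) ?_ ?_ ⟨⟨σ, hσ⟩, σ.2⟩
    · exact hc.comp ((continuous_subtype_val.comp continuous_subtype_val).subtype_mk _)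
    · exact hm ⟨((τ : B) : G), τ.2⟩ ⟨((τ' : B) : G), τ'.2⟩ τ.1.2 τ'.1.2
    · exact fun τ hτ => hI ⟨((τ : B) : G), τ.2⟩ hτ
    · exact fun τ hτ => hD ⟨((τ : B) : G), τ.2⟩ hτ
  refine ⟨?_, ?_⟩
  · intro c hc hI hD
    obtain ⟨hcc, hm⟩ := cy_one.1 hc
    have h3 := hHB c hcc (fun σ τ _ _ => hm σ τ) hI hD
    intro σ
    have h4 : c (σ * σ) = 0 := by
      apply h3
      rw [hBε]
      show ε ((σ : G) * σ) = 1
      rw [map_mul]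
      rcases units3 (ε σ) with h | h <;> rw [h] <;> decide
    rw [hm] at h4
    exact add_self3 _ h4
  · intro c ⟨hcc, hm⟩ hI hD
    have h3 := hHB c hcc (fun σ τ hσ _ => by
      rw [hm]
      have : (ε.comp H.subtype) σ = 1 := (hBε _).1 hσ
      rw [this, Units.val_one, one_mul]) hI hD
    intro σ
    obtain ⟨δ, hδ, hδσ⟩ := hd (σ : G)
    have hδH : δ ∈ H := by
      have h4 := H.mul_mem σ.2 (H.inv_mem (hMH hδσ))
      have e : (σ : G) * (δ⁻¹ * σ)⁻¹ = δ := by group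
      rwa [e] at h4
    have e : σ = ⟨δ, hδH⟩ * ⟨δ⁻¹ * σ, hMH hδσ⟩ := by
      apply Subtype.ext
      show (σ : G) = δ * (δ⁻¹ * σ)
      group
    rw [e, hm, hD ⟨δ, hδH⟩ hδ, h3 ⟨δ⁻¹ * σ, hMH hδσ⟩ (hMε hδσ), mul_zero, add_zero]

end Pool.Agent.H517.E
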