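import Pool.Graph.R_pool_sql_team_seeded_3dad9d7b.NH7.Sch.App

/-!
# Control by one place, for the trivial and the cyclotomic character: definitions and statements of the parts
-/

set_option autoImplicit false

namespace Pool.Agent.H517.E

open NumberField IsDedekindDomain Module Pool.Agent.W401.Cheb Pool.Agent.NH7.Sch

/-- The continuous cocycles of `G` with values in `ZMod p`, on which `G` acts through `ε`. -/
def Cy {p : ℕ} {G : Type} [Group G] [TopologicalSpace G] (ε : G →* (ZMod p)ˣ) (c : G → ZMod p) :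
    Prop :=
  Continuous c ∧ ∀ σ τ, c (σ * τ) = c σ + (ε σ : ZMod p) * c τ

/-- A cocycle which vanishes on `I` and on `D` vanishes. -/
def Ctl {p : ℕ} {G : Type} [Group G] [TopologicalSpace G] (ε : G →* (ZMod p)ˣ) (I D : Set G) : Prop :=
  ∀ c : G → ZMod p, Cy ε c → (∀ σ ∈ I, c σ = 0) → (∀ σ ∈ D, c σ = 0) → ∀ σ, c σ = 0

/-- EXT. Extension of a cocycle from an open normal subgroup. -/
def T_ext : Prop :=
  ∀ (p : ℕ) [Fact p.Prime] (G : Type) [Group G] [TopologicalSpace G] [IsTopologicalGroup G]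
    (M D : Subgroup G) (ε : G →* (ZMod p)ˣ), M.Normal → IsOpen (M : Set G) →
    (∀ g, ∃ δ ∈ D, δ⁻¹ * g ∈ M) →
    ∀ c₀ : M → ZMod p, Cy (ε.comp M.subtype) c₀ → (∀ σ : M, (σ : G) ∈ D → c₀ σ = 0) →
      (∀ δ ∈ D, ∀ σ τ : M, (τ : G) = δ⁻¹ * σ * δ → (ε δ : ZMod p) * c₀ τ = c₀ σ) →
    ∃ c : G → ZMod p, Cy ε c ∧ (∀ σ ∈ D, c σ = 0) ∧ ∀ σ : M, c σ = c₀ σ

/-- ABS. Going up to an open normal subgroup of `p`-power index. -/
def T_abs : Prop :=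
  ∀ (p : ℕ) [Fact p.Prime] (G : Type) [Group G] [TopologicalSpace G] [IsTopologicalGroup G]
    (M D : Subgroup G) (I : Set G) (ε : G →* (ZMod p)ˣ), M.Normal → IsOpen (M : Set G) →
    (∃ a : ℕ, M.index = p ^ a) → (∀ g, ∃ δ ∈ D, δ⁻¹ * g ∈ M) → (∀ σ ∈ I, σ ∈ M) →
    (∀ g, ∀ σ ∈ I, g * σ * g⁻¹ ∈ I) → Ctl ε I (D : Set G) →
    Ctl (ε.comp M.subtype) {σ : M | (σ : G) ∈ I} {σ : M | (σ : G) ∈ D}

/-- TWO. The kernel of a quadratic character, `p = 3`. -/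
def T_two : Prop :=
  ∀ (G : Type) [Group G] [TopologicalSpace G] [IsTopologicalGroup G]
    (M D : Subgroup G) (I : Set G) (ε : G →* (ZMod 3)ˣ), IsOpen (M : Set G) →
    (∀ σ, σ ∈ M ↔ ε σ = 1) → (∃ δ ∈ D, δ ∉ M) → (∀ σ ∈ I, σ ∈ M) →
    (∀ g, ∀ σ ∈ I, g * σ * g⁻¹ ∈ I) → Ctl (1 : G →* (ZMod 3)ˣ) I (D : Set G) →
    Ctl ε I (D : Set G) →
    Ctl (1 : M →* (ZMod 3)ˣ) {σ : M | (σ : G) ∈ I} {σ : M | (σ : G) ∈ D}

/-- FIL. From the two characters to all representations with these two residual constituents. -/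
def T_fil : Prop :=
  ∀ (p : ℕ) [Fact p.Prime] (G : Type) [Group G] [TopologicalSpace G] [IsTopologicalGroup G]
    (I D : Set G) (ε : G →* (ZMod p)ˣ), Ctl (1 : G →* (ZMod p)ˣ) I D → Ctl ε I D →
    ∀ (n : ℕ) (ρ : G →* Matrix (Fin n) (Fin n) ℤ_[p]), Continuous ρ →
      (∀ σ, ∃ k l : ℕ, (ρ σ).charpoly.map (PadicInt.toZMod (p := p)) =
        (Polynomial.X - 1) ^ k * (Polynomial.X - Polynomial.C (ε σ : ZMod p)) ^ l) →
      ∀ c : G → Fin n → ℤ_[p], Continuous c → (∀ σ τ, c (σ * τ) = c σ + (ρ σ).mulVec (c τ)) →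
        (∀ σ ∈ I, c σ = 0) → (∀ σ ∈ D, c σ = 0) → ∀ σ, c σ = 0

/-- HIL. Kummer theory (Hilbert's theorem 90). -/
def T_hil : Prop :=
  ∀ (p : ℕ) [Fact p.Prime] (K : Type) [Field K] [NumberField K] (ζ : AlgebraicClosure K),
    IsPrimitiveRoot ζ p → ∀ ε : GK K →* (ZMod p)ˣ, (∀ σ : GK K, σ ζ = ζ ^ (ε σ : ZMod p).val) →
    ∀ c : GK K → ZMod p, Cy ε c →
    ∃ (y : AlgebraicClosure K) (x : Kˣ), y ^ p = algebraMap K (AlgebraicClosure K) x ∧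
      ∀ σ : GK K, σ y = ζ ^ (c σ).val * y

/-- PLC. A place of `M` whose ramification index divides `p - 1`. -/
def T_plc : Prop :=
  ∀ (p : ℕ) [Fact p.Prime] (K : Type) [Field K] [NumberField K] (ζ : AlgebraicClosure K),
    IsPrimitiveRoot ζ p → ∀ (M : IntermediateField K (AlgebraicClosure K)) [IsGalois K M]
    [NumberField M] (v : HeightOneSpectrum (𝓞 K)) (Q : Ideal (OO K)),
    Q.IsMaximal → Q.comap (algebraMap (𝓞 K) (OO K)) = v.asIdeal →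
      (∀ σ ∈ Inr Q, σ ζ = ζ → ∀ x : M, σ (x : AlgebraicClosure K) = x) →
    ∃ (w : HeightOneSpectrum (𝓞 M)) (e : ℕ), e ∣ p - 1 ∧
      w.asIdeal = Q.comap (algebraMap (𝓞 M) (OO K)) ∧
      ∀ x : K, w.valuation M (algebraMap K M x) = v.valuation K x ^ e

/-- ORD. If the elements of the inertia group at `v` which fix the `p`-th roots of unity fix a `p`-th root
of `κ`, then the order of `κ` at `v` is divisible by `p`. -/
def T_ord : Prop :=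
  ∀ (p : ℕ) [Fact p.Prime] (K : Type) [Field K] [NumberField K] (ζ : AlgebraicClosure K),
    IsPrimitiveRoot ζ p → ∀ (v : HeightOneSpectrum (𝓞 K)) (Q : Ideal (OO K)),
    Q.IsMaximal → Q.comap (algebraMap (𝓞 K) (OO K)) = v.asIdeal →
    ∀ (κ : Kˣ) (z : AlgebraicClosure K), z ^ p = algebraMap K (AlgebraicClosure K) κ →
      (∀ σ ∈ Inr Q, σ ζ = ζ → σ z = z) → (p : ℤ) ∣ od v κ

/-- LOC. If the elements of the inertia group at `v` (of norm `p`) which fix the `p`-th roots of unity fix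
a `p`-th root of the integer `x` prime to `v`, then `x ^ (p - 1)` is `1` modulo `v ^ 2`. -/
def T_loc : Prop :=
  ∀ (p : ℕ) [Fact p.Prime] (K : Type) [Field K] [NumberField K] (ζ : AlgebraicClosure K),
    IsPrimitiveRoot ζ p → ∀ (v : HeightOneSpectrum (𝓞 K)) (Q : Ideal (OO K)),
    Q.IsMaximal → Q.comap (algebraMap (𝓞 K) (OO K)) = v.asIdeal → (p : 𝓞 K) ∈ v.asIdeal →
    Ideal.absNorm v.asIdeal = p → ∀ x : 𝓞 K, x ∉ v.asIdeal →
    ∀ z : AlgebraicClosure K, z ^ p = algebraMap (𝓞 K) (AlgebraicClosure K) x →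
      (∀ σ ∈ Inr Q, σ ζ = ζ → σ z = z) → x ^ (p - 1) - 1 ∈ v.asIdeal ^ 2

/-- RAM. The `p`-th roots of unity are ramified at `v` if `p` is unramified at `v`. -/
def T_ram : Prop :=
  ∀ (p : ℕ) [Fact p.Prime], p ≠ 2 → ∀ (K : Type) [Field K] [NumberField K] (ζ : AlgebraicClosure K),
    IsPrimitiveRoot ζ p → ∀ (v : HeightOneSpectrum (𝓞 K)) (Q : Ideal (OO K)),
    Q.IsMaximal → Q.comap (algebraMap (𝓞 K) (OO K)) = v.asIdeal →
    (p : 𝓞 K) ∈ v.asIdeal → (p : 𝓞 K) ∉ v.asIdeal ^ 2 → ∃ c ∈ Inr Q, c ζ ≠ ζ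

/-- CUB. Elements whose orders are divisible by `p` are `p`-th powers. -/
def T_cub : Prop :=
  ∀ (p : ℕ) [Fact p.Prime] (K : Type) [Field K] [NumberField K],
    (∀ u : (𝓞 K)ˣ, ∃ u' : (𝓞 K)ˣ, u = u' ^ p) → ¬ p ∣ classNumber K →
    ∀ κ : Kˣ, (∀ v : HeightOneSpectrum (𝓞 K), (p : ℤ) ∣ od v κ) → ∃ b : Kˣ, κ = b ^ p

/-- UNI. The units of an imaginary quadratic field in which `p` splits are `p`-th powers. -/
def T_uni : Prop :=
  ∀ (p : ℕ) [Fact p.Prime], p ≠ 2 → ∀ (K : Type) [Field K] [NumberField K], finrank ℚ K = 2 →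
    IsEmpty (K →+* ℝ) → ∀ w w' : HeightOneSpectrum (𝓞 K), w ≠ w' →
    w.asIdeal * w'.asIdeal = Ideal.span {(p : 𝓞 K)} →
    ∀ u : (𝓞 K)ˣ, ∃ u' : (𝓞 K)ˣ, u = u' ^ p

/-- CNJ. The condition at `w'` implies the condition at `w`. -/
def T_cnj : Prop :=
  ∀ (p : ℕ) [Fact p.Prime] (K : Type) [Field K] [NumberField K], finrank ℚ K = 2 →
    ∀ w w' : HeightOneSpectrum (𝓞 K), w ≠ w' → w.asIdeal * w'.asIdeal = Ideal.span {(p : 𝓞 K)} →
    Ideal.absNorm w.asIdeal = p ∧ Ideal.absNorm w'.asIdeal = p ∧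
    (p : 𝓞 K) ∉ w.asIdeal ^ 2 ∧ (p : 𝓞 K) ∉ w'.asIdeal ^ 2 ∧
    ∀ (α : 𝓞 K) (k : ℕ), Ideal.span {α} = w.asIdeal ^ k → α ^ (p - 1) - 1 ∉ w'.asIdeal ^ 2 →
      ∃ β : 𝓞 K, Ideal.span {β} = w'.asIdeal ^ k ∧ β ^ (p - 1) - 1 ∉ w.asIdeal ^ 2

end Pool.Agent.H517.E
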