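import Pool.Agent.H517.E.Om

/-!
# Control by one place: part TCNJ
-/

set_option autoImplicit false
set_option linter.unusedSectionVars false

namespace Pool.Agent.H517.E

open NumberField IsDedekindDomain Module Pool.Agent.W401.Cheb Pool.Agent.NH7.Sch


theorem under_eq {p : ℕ} (hp : p.Prime) {K : Type} [Field K] [NumberField K]
    (w : HeightOneSpectrum (𝓞 K)) (h : (p : 𝓞 K) ∈ w.asIdeal) :
    w.asIdeal.under ℤ = Ideal.span {(p : ℤ)} := by
  have h1 : (Ideal.span {(p : ℤ)}).IsMaximal :=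
    PrincipalIdealRing.isMaximal_of_irreducible (Nat.prime_iff_prime_int.1 hp).irreducible
  refine (h1.eq_of_le (Ideal.IsPrime.ne_top (w.isPrime.under ℤ)) ?_).symm
  rw [Ideal.span_singleton_le_iff_mem]
  show algebraMap ℤ (𝓞 K) p ∈ w.asIdeal
  simpa using h

theorem t_cnj : T_cnj := by
  intro p hp K _ _ h2 w w' hne hmul
  have hp' := hp.out
  have hpw : (p : 𝓞 K) ∈ w.asIdeal := by
    have h1 : (p : 𝓞 K) ∈ w.asIdeal * w'.asIdeal := by
      rw [hmul]
      exact Ideal.mem_span_singleton_self _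
    exact (Ideal.mul_le_inf (I := w.asIdeal) (J := w'.asIdeal) h1).1
  have hpw' : (p : 𝓞 K) ∈ w'.asIdeal := by
    have h1 : (p : 𝓞 K) ∈ w.asIdeal * w'.asIdeal := by
      rw [hmul]
      exact Ideal.mem_span_singleton_self _
    exact (Ideal.mul_le_inf (I := w.asIdeal) (J := w'.asIdeal) h1).2
  have hnorm : Ideal.absNorm w.asIdeal = p ∧ Ideal.absNorm w'.asIdeal = p := by
    have h1 := congrArg Ideal.absNorm hmul
    rw [map_mul, Ideal.absNorm_span_natCast, RingOfIntegers.rank, h2] at h1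
    refine (hp'.mul_eq_prime_sq_iff ?_ ?_).1 h1
    · rw [Ne, Ideal.absNorm_eq_one_iff]
      exact w.isPrime.ne_top
    · rw [Ne, Ideal.absNorm_eq_one_iff]
      exact w'.isPrime.ne_top
  have hnot : ∀ v v' : HeightOneSpectrum (𝓞 K), v ≠ v' →
      v.asIdeal * v'.asIdeal = Ideal.span {(p : 𝓞 K)} → (p : 𝓞 K) ∉ v.asIdeal ^ 2 := by
    intro v v' hv hvm hmem
    have h1 : v.asIdeal ^ 2 ∣ v.asIdeal * v'.asIdeal := by
      rw [hvm]
      exact Ideal.dvd_iff_le.2 ((Ideal.span_singleton_le_iff_mem _).2 hmem)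
    rw [pow_two] at h1
    have h3 : v.asIdeal ∣ v'.asIdeal := (mul_dvd_mul_iff_left v.ne_bot).1 h1
    have h4 : v'.asIdeal ≤ v.asIdeal := Ideal.dvd_iff_le.1 h3
    apply hv
    ext1
    exact (v'.isMaximal.eq_of_le v.isPrime.ne_top h4).symm
  refine ⟨hnorm.1, hnorm.2, hnot w w' hne hmul, hnot w' w hne.symm (by rw [mul_comm, hmul]), ?_⟩
  intro α k hα hα2
  have : Algebra.IsQuadraticExtension ℚ K := { finrank_eq_two' := h2 }
  have : IsGalois ℚ K := inferInstance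
  have : w.asIdeal.IsPrime := w.isPrime
  have : w'.asIdeal.IsPrime := w'.isPrime
  have : w.asIdeal.LiesOver (Ideal.span {(p : ℤ)}) := ⟨(under_eq hp' w hpw).symm⟩
  have : w'.asIdeal.LiesOver (Ideal.span {(p : ℤ)}) := ⟨(under_eq hp' w' hpw').symm⟩
  obtain ⟨σ, hσ⟩ : ∃ σ : 𝓞 K ≃+* 𝓞 K, Ideal.map σ w.asIdeal = w'.asIdeal := by
    obtain ⟨g, hg⟩ := Ideal.exists_smul_eq_of_isGaloisGroup (Ideal.span {(p : ℤ)}) w.asIdeal
      w'.asIdeal (K ≃ₐ[ℚ] K)
    refine ⟨MulSemiringAction.toRingEquiv (K ≃ₐ[ℚ] K) (𝓞 K) g, ?_⟩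
    rw [← hg, Ideal.pointwise_smul_def]
    rfl
  have hσ' : Ideal.map σ w'.asIdeal = w.asIdeal := by
    have h1 : Ideal.map σ (w.asIdeal * w'.asIdeal) = w'.asIdeal * w.asIdeal := by
      rw [hmul, Ideal.map_span, Set.image_singleton, map_natCast, ← hmul, mul_comm]
    rw [Ideal.map_mul, hσ] at h1
    exact mul_left_cancel₀ w'.ne_bot h1
  refine ⟨σ α, ?_, ?_⟩
  · rw [← Set.image_singleton, ← Ideal.map_span, hα, Ideal.map_pow, hσ]
  · intro hmem
    apply hα2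
    rw [← hσ', ← Ideal.map_pow, Ideal.mem_map_of_equiv] at hmem
    obtain ⟨x, hx, hx2⟩ := hmem
    have h3 : x = α ^ (p - 1) - 1 := by
      apply σ.injective
      rw [hx2, map_sub, map_pow, map_one]
    rwa [← h3]

end Pool.Agent.H517.E
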