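import Pool.Agent.H517.E.All
import Pool.Agent.H517.E.PCnj
import Pool.Agent.H517.B.Fam4
import Pool.Agent.H517.S.Gen

/-!
# Imaginary quadratic fields
-/

set_option autoImplicit false
set_option linter.unusedSectionVars false

namespace Pool.Agent.H517.E

open NumberField IsDedekindDomain Module Pool.Agent.W401.Cheb Pool.Agent.NH7.Sch

variable {K : Type} [Field K] [NumberField K] {p : ℕ} [hp : Fact p.Prime]

/-- the primes above `p` -/
theorem above_quad {w w' : HeightOneSpectrum (𝓞 K)}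
    (hab : w.asIdeal * w'.asIdeal = Ideal.span {(p : 𝓞 K)}) {v : HeightOneSpectrum (𝓞 K)}
    (hv : (p : 𝓞 K) ∈ v.asIdeal) : v = w ∨ v = w' := by
  have h3 : w.asIdeal * w'.asIdeal ≤ v.asIdeal := by
    rw [hab, Ideal.span_singleton_le_iff_mem]
    exact hv
  rcases (v.isPrime.mul_le).1 h3 with h4 | h4
  · exact Or.inl (HeightOneSpectrum.ext (w.isMaximal.eq_of_le v.isPrime.ne_top h4)).symm
  · exact Or.inr (HeightOneSpectrum.ext (w'.isMaximal.eq_of_le v.isPrime.ne_top h4)).symm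

/-- both conditions at both places -/
theorem both_quad (hp2 : p ≠ 2) (h2 : finrank ℚ K = 2) (hre : IsEmpty (K →+* ℝ))
    (hcl : ¬ p ∣ classNumber K) {w w' : HeightOneSpectrum (𝓞 K)} (hne : w ≠ w')
    (hab : w.asIdeal * w'.asIdeal = Ideal.span {(p : 𝓞 K)})
    {T : Set (HeightOneSpectrum (𝓞 K))} (hT : ∀ v ∈ T, (p : 𝓞 K) ∈ v.asIdeal) {α : 𝓞 K} {k : ℕ}
    (hα : Ideal.span {α} = w.asIdeal ^ k) (hα2 : α ^ (p - 1) - 1 ∉ w'.asIdeal ^ 2) :
    Ind p T w ∧ Ind p T w' ∧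
    ∃ β : 𝓞 K, Ideal.span {β} = w'.asIdeal ^ k ∧ β ^ (p - 1) - 1 ∉ w.asIdeal ^ 2 := by
  obtain ⟨-, -, -, -, h⟩ := t_cnj p K h2 w w' hne hab
  obtain ⟨β, hβ, hβ2⟩ := h α k hα hα2
  refine ⟨?_, ?_, β, hβ, hβ2⟩
  · exact ind_quad (t_ord t_plc) (t_loc t_plc) t_cub t_ram t_uni t_cnj hp2 h2 hre hcl hne hab
      (fun v hv => above_quad hab (hT v hv)) hβ hβ2
  · exact ind_quad (t_ord t_plc) (t_loc t_plc) t_cub t_ram t_uni t_cnj hp2 h2 hre hcl hne.symm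
      (by rw [mul_comm]; exact hab) (fun v hv => (above_quad hab (hT v hv)).symm) hα hα2

theorem coprime_of_ne {w w' : HeightOneSpectrum (𝓞 K)} (hne : w ≠ w') :
    IsCoprime w.asIdeal w'.asIdeal := by
  rw [Ideal.isCoprime_iff_sup_eq]
  refine w'.isMaximal.1.2 _ (lt_of_le_of_ne le_sup_right fun h4 => hne ?_)
  have h5 : w.asIdeal ≤ w'.asIdeal := by rw [h4]; exact le_sup_left
  exact HeightOneSpectrum.ext (w.isMaximal.eq_of_le w'.isPrime.ne_top h5)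

/-- the condition on the units at `w` -/
theorem units_quad (hp2 : p ≠ 2) (h2 : finrank ℚ K = 2) {w w' : HeightOneSpectrum (𝓞 K)}
    (hne : w ≠ w') (hab : w.asIdeal * w'.asIdeal = Ideal.span {(p : 𝓞 K)}) {α : 𝓞 K} {k : ℕ}
    (hα : Ideal.span {α} = w.asIdeal ^ k) (hα2 : α ^ (p - 1) - 1 ∉ w'.asIdeal ^ 2) :
    ∃ (e : ℕ) (𝔟 : Ideal (𝓞 K)), w.asIdeal ^ e * 𝔟 = Ideal.span {(p : 𝓞 K)} ∧
    IsCoprime w.asIdeal 𝔟 ∧ ∀ x : 𝓞 K, IsCoprime (Ideal.span {x}) 𝔟 →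
      ∃ (α y : 𝓞 K) (k : ℕ), Ideal.span {α} = w.asIdeal ^ k ∧ x * α - y ^ p ∈ 𝔟 ^ 3 := by
  obtain ⟨-, hN', -, -, -⟩ := t_cnj p K h2 w w' hne hab
  refine ⟨1, w'.asIdeal, by rw [pow_one, hab], coprime_of_ne hne, fun x hx => ?_⟩
  exact B.units_of_deg hp2 (e := 1) (by rw [pow_one, hab]) (coprime_of_ne hne) hN' hα hα2 x hx

theorem class_pow (hcl : ¬ p ∣ classNumber K) (w : HeightOneSpectrum (𝓞 K)) (c : ClassGroup (𝓞 K)) (C : ClassGroup (𝓞 K)) :
    ∃ m k : ℕ, ¬ p ∣ m ∧ C ^ m = c ^ k :=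
  ⟨classNumber K, 0, hcl, by rw [pow_zero]; exact pow_card_eq_one⟩

/-- the fields `ℚ(√(1 - 4p))` -/
theorem pow_special (h2 : finrank ℚ K = 2) {α β : 𝓞 K} (hα : α ^ 2 - α + p = 0) (hαβ : α + β = 1)
    {w' : HeightOneSpectrum (𝓞 K)} (hw' : w'.asIdeal = Ideal.span {β}) :
    α ^ (p - 1) - 1 ∉ w'.asIdeal ^ 2 := by
  have hβ : β ^ 2 - β + p = 0 := by
    have : β = 1 - α := by rw [← hαβ]; ring
    rw [this]
    linear_combination hα
  have hmul : α * β = p := by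
    have : β = 1 - α := by rw [← hαβ]; ring
    rw [this]
    linear_combination -hα
  have hβw : β ∈ w'.asIdeal := by rw [hw']; exact Ideal.mem_span_singleton_self _
  intro h
  obtain ⟨q, hq⟩ : ∃ q, p = q + 1 := ⟨p - 1, by have := hp.out.pos; omega⟩
  have e1 := B.one_add_pow_mod (I := w'.asIdeal) (a := -β) (neg_mem hβw) (p - 1)
  have e2 : α = 1 + -β := by rw [← hαβ]; ring
  rw [← e2] at e1
  have e3 : β ∈ w'.asIdeal ^ 2 := by
    have e4 : β = (α ^ (p - 1) - 1) - (α ^ (p - 1) - (1 + ((p - 1 : ℕ) : 𝓞 K) * -β)) +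
        p * β := by
      rw [hq]
      simp only [Nat.add_sub_cancel]
      push_cast
      ring
    rw [e4]
    refine Ideal.add_mem _ (Ideal.sub_mem _ h e1) ?_
    rw [← hmul, mul_assoc, pow_two]
    exact Ideal.mul_mem_left _ _ (Ideal.mul_mem_mul hβw hβw)
  rw [hw', Ideal.span_singleton_pow, Ideal.mem_span_singleton] at e3
  obtain ⟨r, hr⟩ := e3
  have hβ0 : β ≠ 0 := by
    rintro rfl
    rw [mul_zero] at hmul
    exact hp.out.ne_zero (by exact_mod_cast hmul.symm)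
  have hu : β * r = 1 := by
    apply mul_left_cancel₀ hβ0
    rw [mul_one]
    conv_rhs => rw [hr]
    ring
  apply w'.isPrime.ne_top
  rw [hw', Ideal.span_singleton_eq_top]
  exact IsUnit.of_mul_eq_one _ hu

end Pool.Agent.H517.E
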