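import Pool.Agent.H517.E.Quad
import Pool.Agent.H517.E.Mid3

/-!
# The towers over the field of the cube roots of unity
-/

set_option autoImplicit false
set_option linter.unusedSectionVars false

namespace Pool.Agent.H517.E

open NumberField IsDedekindDomain Module Pool.Agent.W401.Cheb Pool.Agent.NH7.Sch

variable {K : Type} [Field K] [NumberField K]

theorem ctl_three [h3 : Fact (Nat.Prime 3)] {T : Set (HeightOneSpectrum (𝓞 K))}
    {w : HeightOneSpectrum (𝓞 K)} (hrc : S.RC 3 T w) (hi : Ind 3 T w) {ζ : AlgebraicClosure K}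
    (hζ : IsPrimitiveRoot ζ 3) {ε : GK K →* (ZMod 3)ˣ}
    (hε : ∀ σ : GK K, σ ζ = ζ ^ (ε σ : ZMod 3).val)
    {H M : Subgroup (GK K)} (hMH : M ≤ H) (hMn : M.Normal) (hMζ : ∀ σ ∈ M, σ ζ = ζ)
    (hMi : ∃ a : ℕ, M.index = 2 * 3 ^ a) (hMo : IsOpen (M : Set (GK K)))
    (hIM : ∀ x ∈ S.IS T w, x ∈ M) {Q : Ideal (OO K)}
    (hQ : Q.IsMaximal) (hQw : Q.comap (algebraMap (𝓞 K) (OO K)) = w.asIdeal) :
    (∀ g : GK K, ∃ δ ∈ Dec Q, δ⁻¹ * g ∈ M) ∧
    (Ctl (1 : (ε.ker : Subgroup (GK K)) →* (ZMod 3)ˣ) {σ : ε.ker | (σ : GK K) ∈ S.IS T w}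
      {σ : ε.ker | (σ : GK K) ∈ Dec Q}) ∧
    Ctl (1 : H →* (ZMod 3)ˣ) {σ : H | (σ : GK K) ∈ S.IS T w} {σ : H | (σ : GK K) ∈ Dec Q} ∧
    Ctl (ε.comp H.subtype) {σ : H | (σ : GK K) ∈ S.IS T w} {σ : H | (σ : GK K) ∈ Dec Q} := by
  obtain ⟨h4, h5⟩ := ctl_cyc t_hil (t_ord t_plc) hi hζ hε hQ hQw
  have hMε : M ≤ ε.ker := by
    intro σ hσ
    rw [MonoidHom.mem_ker]
    have h6 : ζ ^ (ε σ : ZMod 3).val = ζ ^ 1 := by rw [← hε, hMζ σ hσ, pow_one]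
    have h7 := zpow_cast_eq hζ h6
    rw [ZMod.natCast_zmod_val, Nat.cast_one] at h7
    exact Units.ext h7
  have hidx : ε.ker.index = 2 := by
    have h6 : Nat.card (ZMod 3)ˣ = 2 := by
      rw [Nat.card_eq_fintype_card, ZMod.card_units 3]
    have h7 : ε.ker.index ∣ 2 := by
      rw [Subgroup.index_ker, ← h6]
      exact Subgroup.card_subgroup_dvd_card _
    rcases (Nat.dvd_prime Nat.prime_two).1 h7 with h8 | h8
    · exfalso
      rw [Subgroup.index_eq_one] at h8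
      obtain ⟨δ, -, hδ⟩ := h5
      apply hδ
      rw [← MonoidHom.mem_ker, h8]
      trivial
    · exact h8
  have hrel : ∃ a : ℕ, M.relIndex ε.ker = 3 ^ a := by
    obtain ⟨a, ha⟩ := hMi
    have h6 := Subgroup.relIndex_mul_index hMε
    rw [hidx, ha, mul_comm] at h6
    exact ⟨a, Nat.eq_of_mul_eq_mul_left two_pos h6⟩
  exact ctl_mid3 (fun g σ hσ => S.IS_conj g σ hσ) (ctl_one hrc hQ hQw) h4 h5
    (Subgroup.isOpen_mono hMε hMo) hMH hMn hMε hrel hMo hIM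

end Pool.Agent.H517.E
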