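import Pool.Agent.H517.E.Three
import Pool.Agent.H517.S.Sha

/-!
# Tate twists
-/

set_option autoImplicit false
set_option linter.unusedSectionVars false

namespace Pool.Agent.H517.E

open NumberField IsDedekindDomain Module Pool.Agent.W401.Cheb Pool.Agent.NH7.Sch

variable {K : Type} [Field K] [NumberField K] {p : ℕ} [hp : Fact p.Prime]

/-- the cyclotomic character modulo `p` -/
theorem cyc_mod {ζ : AlgebraicClosure K} (hζ : IsPrimitiveRoot ζ p)
    {ε : GK K →* (ZMod p)ˣ} (hε : ∀ σ : GK K, σ ζ = ζ ^ (ε σ : ZMod p).val) (σ : GK K) :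
    PadicInt.toZMod (p := p)
      ((cyclotomicCharacter (AlgebraicClosure K) p
        (MulSemiringAction.toRingAut (GK K) (AlgebraicClosure K) σ) : ℤ_[p]ˣ) : ℤ_[p]) = ε σ := by
  obtain ⟨z, hz⟩ : ∃ z : ℤ_[p], z = ((cyclotomicCharacter (AlgebraicClosure K) p
        (MulSemiringAction.toRingAut (GK K) (AlgebraicClosure K) σ) : ℤ_[p]ˣ) : ℤ_[p]) := ⟨_, rfl⟩
  have h1 := cyclotomicCharacter.spec p (n := 1)
    (MulSemiringAction.toRingAut (GK K) (AlgebraicClosure K) σ) ζ (by rw [pow_one, hζ.pow_eq_one])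
  have h2 : ζ ^ (ε σ : ZMod p).val = ζ ^ (PadicInt.toZModPow 1 z).val := by
    rw [← hε, hz]
    exact h1
  have h3 := zpow_cast_eq hζ h2
  rw [ZMod.natCast_zmod_val] at h3
  rw [← hz, h3]
  have h4 : z - ((PadicInt.toZModPow 1 z).val : ℤ_[p]) ∈ RingHom.ker (PadicInt.toZModPow (p := p) 1) := by
    rw [RingHom.mem_ker, map_sub, map_natCast, ZMod.natCast_zmod_val, sub_self]
  have h5 : z - ((PadicInt.toZModPow 1 z).val : ℤ_[p]) ∈ RingHom.ker (PadicInt.toZMod (p := p)) := by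
    rw [PadicInt.ker_toZMod, PadicInt.maximalIdeal_eq_span_p]
    rwa [PadicInt.ker_toZModPow, pow_one] at h4
  rw [RingHom.mem_ker, map_sub, map_natCast, sub_eq_zero] at h5
  exact h5

/-- **Vanishing for one-dimensional twists.** -/
theorem twist {G : Type} [Group G] [TopologicalSpace G] [IsTopologicalGroup G] {I D : Set G}
    {ε : G →* (ZMod p)ˣ} (h1 : Ctl (1 : G →* (ZMod p)ˣ) I D) (h2 : Ctl ε I D)
    {u : G →* ℤ_[p]ˣ} (hu : Continuous fun σ => (u σ : ℤ_[p]))
    (hres : ∀ σ, PadicInt.toZMod (p := p) (u σ : ℤ_[p]) = 1 ∨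
      PadicInt.toZMod (p := p) (u σ : ℤ_[p]) = ε σ)
    {c : G → ℤ_[p]} (hcc : Continuous c) (hc : ∀ σ τ, c (σ * τ) = c σ + u σ * c τ)
    (hcI : ∀ σ ∈ I, c σ = 0) (hcD : ∀ σ ∈ D, c σ = 0) : ∀ σ, c σ = 0 := by
  let ρ : G →* Matrix (Fin 1) (Fin 1) ℤ_[p] :=
    { toFun := fun σ => !![(u σ : ℤ_[p])]
      map_one' := by
        ext i j
        fin_cases i; fin_cases j
        simp
      map_mul' := fun σ τ => by
        ext i j
        fin_cases i; fin_cases j
        simp [Matrix.mul_apply] }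
  have hρ : ∀ σ, ρ σ = !![(u σ : ℤ_[p])] := fun σ => rfl
  have h0 := t_fil p G I D ε h1 h2 1 ρ ?_ ?_ (fun σ _ => c σ) ?_ ?_ ?_ ?_
  · intro σ
    exact congrFun (h0 σ) 0
  · refine continuous_pi fun i => continuous_pi fun j => ?_
    fin_cases i; fin_cases j
    exact hu
  · intro σ
    have h3 : (ρ σ).charpoly.map (PadicInt.toZMod (p := p)) =
        Polynomial.X - Polynomial.C (PadicInt.toZMod (p := p) (u σ : ℤ_[p])) := by
      have h4 : (ρ σ).charpoly = Polynomial.X - Polynomial.C (u σ : ℤ_[p]) := by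
        rw [hρ]
        simp [Matrix.charpoly, Matrix.charmatrix]
      rw [h4, Polynomial.map_sub, Polynomial.map_X, Polynomial.map_C]
    rcases hres σ with h | h
    · exact ⟨1, 0, by rw [h3, h, pow_one, pow_zero, mul_one, map_one]⟩
    · exact ⟨0, 1, by rw [h3, h, pow_one, pow_zero, one_mul]⟩
  · exact continuous_pi fun _ => hcc
  · intro σ τ
    funext i
    fin_cases i
    show c (σ * τ) = c σ + (ρ σ).mulVec (fun _ => c τ) 0
    rw [hρ, hc]
    simp [Matrix.mulVec, dotProduct]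
  · intro σ hσ
    funext i
    exact hcI σ hσ
  · intro σ hσ
    funext i
    exact hcD σ hσ

end Pool.Agent.H517.E
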