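import Pool.Agent.H517.E.Quad
import Pool.Agent.H517.E.Mid
import Pool.Agent.H517.E.PExt
import Pool.Agent.H517.E.PAbs

/-!
# Control by one place over the towers above a quadratic field of `p`-th roots of unity
-/

set_option autoImplicit false
set_option linter.unusedSectionVars false

namespace Pool.Agent.H517.E

open NumberField IsDedekindDomain Module Pool.Agent.W401.Cheb Pool.Agent.NH7.Sch

theorem two_ne_zero2 {p : ℕ} [hp : Fact p.Prime] (hp2 : p ≠ 2) : (2 : ZMod p) ≠ 0 := by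
  intro h
  have h1 : ((2 : ℕ) : ZMod p) = 0 := by exact_mod_cast h
  rw [ZMod.natCast_eq_zero_iff] at h1
  exact hp2 ((Nat.prime_dvd_prime_iff_eq hp.out Nat.prime_two).1 h1)

theorem two_zero2 {p : ℕ} [hp : Fact p.Prime] (hp2 : p ≠ 2) :
    ∀ x y : ZMod p, x + y = 0 → x - y = 0 → x = 0 := by
  intro x y h1 h2
  have h3 : (2 : ZMod p) * x = 0 := by linear_combination h1 + h2
  exact (mul_eq_zero.1 h3).resolve_left (two_ne_zero2 hp2)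

theorem add_self2 {p : ℕ} [hp : Fact p.Prime] (hp2 : p ≠ 2) :
    ∀ x : ZMod p, x + x = 0 → x = 0 := by
  intro x h1
  have h3 : (2 : ZMod p) * x = 0 := by linear_combination h1
  exact (mul_eq_zero.1 h3).resolve_left (two_ne_zero2 hp2)

theorem t_two2 {p : ℕ} [hp : Fact p.Prime] (hp2 : p ≠ 2) (h : T_ext)
    (G : Type) [Group G] [TopologicalSpace G] [IsTopologicalGroup G]
    (M D : Subgroup G) (I : Set G) (ε : G →* (ZMod p)ˣ) (hε2 : ∀ σ, ε σ = 1 ∨ ε σ = -1)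
    (hop : IsOpen (M : Set G)) (hM : ∀ σ, σ ∈ M ↔ ε σ = 1) (hδ : ∃ δ ∈ D, δ ∉ M)
    (hI : ∀ σ ∈ I, σ ∈ M) (hIc : ∀ g, ∀ σ ∈ I, g * σ * g⁻¹ ∈ I)
    (hC1 : Ctl (1 : G →* (ZMod p)ˣ) I (D : Set G)) (hCε : Ctl ε I (D : Set G)) :
    Ctl (1 : M →* (ZMod p)ˣ) {σ : M | (σ : G) ∈ I} {σ : M | (σ : G) ∈ D} := by
  obtain ⟨δ₀, hδD, hδM⟩ := hδ
  have hN : M.Normal := ⟨fun n hn g => by
    rw [hM] at hn ⊢
    rw [map_mul, map_mul, hn, mul_one, map_inv, mul_inv_cancel]⟩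
  have hεδ : ε δ₀ = -1 := (hε2 _).resolve_left fun h1 => hδM ((hM _).2 h1)
  have hε1 : ∀ g, g ∉ M → ε g = -1 := fun g hg =>
    (hε2 _).resolve_left fun h1 => hg ((hM _).2 h1)
  have hcov : ∀ g, ∃ δ ∈ D, δ⁻¹ * g ∈ M := by
    intro g
    by_cases hg : g ∈ M
    · exact ⟨1, D.one_mem, by rwa [inv_one, one_mul]⟩
    · refine ⟨δ₀, hδD, ?_⟩
      rw [hM, map_mul, map_inv, hεδ, hε1 g hg, inv_mul_cancel]
  intro f hf hfI hfD
  obtain ⟨hfc, hfh⟩ := hf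
  have hfh' : ∀ σ τ : M, f (σ * τ) = f σ + f τ := by
    intro σ τ
    rw [hfh, MonoidHom.one_apply, Units.val_one, one_mul]
  have hf1 : f 1 = 0 := hfD 1 D.one_mem
  have hfinv : ∀ σ : M, f σ⁻¹ = - f σ := by
    intro σ
    have h1 := hfh' σ σ⁻¹
    rw [mul_inv_cancel, hf1] at h1
    exact (neg_eq_of_add_eq_zero_right h1.symm).symm
  have hconjM : ∀ (σ τ m : M), (τ : G) = (m : G)⁻¹ * σ * m → f τ = f σ := by
    intro σ τ m hτ
    have e1 : τ = m⁻¹ * σ * m := Subtype.ext hτ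
    rw [e1, hfh', hfh', hfinv]
    ring
  -- the conjugate
  have hcj : ∀ σ : M, δ₀⁻¹ * (σ : G) * δ₀ ∈ M := by
    intro σ
    have := hN.conj_mem _ σ.2 δ₀⁻¹
    rwa [inv_inv] at this
  obtain ⟨k, hk⟩ : ∃ k : M → M, ∀ σ : M, ((k σ : M) : G) = δ₀⁻¹ * (σ : G) * δ₀ :=
    ⟨fun σ => ⟨_, hcj σ⟩, fun σ => rfl⟩
  have hkc : Continuous k := by
    rw [continuous_induced_rng]
    have : (Subtype.val ∘ k : M → G) = fun σ : M => δ₀⁻¹ * (σ : G) * δ₀ := funext hk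
    rw [this]
    exact (continuous_const.mul continuous_subtype_val).mul continuous_const
  have hkm : ∀ σ τ : M, k (σ * τ) = k σ * k τ := by
    intro σ τ
    apply Subtype.ext
    rw [hk, Subgroup.coe_mul, Subgroup.coe_mul, hk, hk]
    group
  have hkD : ∀ σ : M, (σ : G) ∈ D → ((k σ : M) : G) ∈ D := by
    intro σ hσ
    rw [hk]
    exact D.mul_mem (D.mul_mem (D.inv_mem hδD) hσ) hδD
  have hkI : ∀ σ : M, (σ : G) ∈ I → ((k σ : M) : G) ∈ I := by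
    intro σ hσ
    rw [hk]
    have := hIc δ₀⁻¹ _ hσ
    rwa [inv_inv] at this
  -- conjugation by an element of `M`
  have hin : ∀ δ ∈ M, ∀ σ τ : M, (τ : G) = δ⁻¹ * σ * δ → f τ = f σ ∧ f (k τ) = f (k σ) := by
    intro δ hδ σ τ hτ
    refine ⟨hconjM σ τ ⟨δ, hδ⟩ hτ, hconjM (k σ) (k τ) ⟨_, hcj ⟨δ, hδ⟩⟩ ?_⟩
    change ((k τ : M) : G) = (δ₀⁻¹ * δ * δ₀)⁻¹ * (k σ : M) * (δ₀⁻¹ * δ * δ₀)
    rw [hk, hk, hτ]
    group
  have hout : ∀ δ, δ ∉ M → ∀ σ τ : M, (τ : G) = δ⁻¹ * σ * δ → f τ = f (k σ) ∧ f (k τ) = f σ := by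
    intro δ hδ σ τ hτ
    have h1 : δ₀⁻¹ * δ ∈ M := by
      rw [hM, map_mul, map_inv, hεδ, hε1 δ hδ, inv_mul_cancel]
    have h2 : δ * δ₀ ∈ M := by
      rw [hM, map_mul, hεδ, hε1 δ hδ, neg_mul_neg, one_mul]
    refine ⟨hconjM (k σ) τ ⟨_, h1⟩ ?_, hconjM σ (k τ) ⟨_, h2⟩ ?_⟩
    · change (τ : G) = (δ₀⁻¹ * δ)⁻¹ * (k σ : M) * (δ₀⁻¹ * δ)
      rw [hk, hτ]
      group
    · change ((k τ : M) : G) = (δ * δ₀)⁻¹ * (σ : G) * (δ * δ₀)
      rw [hk, hτ]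
      group
  -- the sum
  have hsum : ∀ σ : M, f σ + f (k σ) = 0 := by
    obtain ⟨c, hc1, hc2, hc3⟩ := h p G M D 1 hN hop hcov (fun σ => f σ + f (k σ))
      ⟨hfc.add (hfc.comp hkc), by
        intro σ τ
        have : ((1 : G →* (ZMod p)ˣ).comp M.subtype) σ = 1 := rfl
        rw [this, Units.val_one, one_mul]
        beta_reduce
        rw [hkm, hfh', hfh']
        ring⟩
      (by
        intro σ hσ
        beta_reduce
        rw [hfD σ hσ, hfD (k σ) (hkD σ hσ), add_zero])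
      (by
        intro δ hδ σ τ hτ
        rw [MonoidHom.one_apply, Units.val_one, one_mul]
        by_cases hm : δ ∈ M
        · obtain ⟨h1, h2⟩ := hin δ hm σ τ hτ
          rw [h1, h2]
        · obtain ⟨h1, h2⟩ := hout δ hm σ τ hτ
          rw [h1, h2, add_comm])
    have hz := hC1 c hc1 (by
      intro σ hσ
      have := hc3 ⟨σ, hI σ hσ⟩
      rw [hfI ⟨σ, hI σ hσ⟩ hσ, hfI (k ⟨σ, hI σ hσ⟩) (hkI ⟨σ, hI σ hσ⟩ hσ), add_zero] at this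
      exact this) hc2
    intro σ
    rw [← hc3 σ]
    exact hz σ
  have hdif : ∀ σ : M, f σ - f (k σ) = 0 := by
    obtain ⟨c, hc1, hc2, hc3⟩ := h p G M D ε hN hop hcov (fun σ => f σ - f (k σ))
      ⟨hfc.sub (hfc.comp hkc), by
        intro σ τ
        have : (ε.comp M.subtype) σ = 1 := (hM σ).1 σ.2
        rw [this, Units.val_one, one_mul]
        beta_reduce
        rw [hkm, hfh', hfh']
        ring⟩
      (by
        intro σ hσ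
        beta_reduce
        rw [hfD σ hσ, hfD (k σ) (hkD σ hσ), sub_zero])
      (by
        intro δ hδ σ τ hτ
        by_cases hm : δ ∈ M
        · obtain ⟨h1, h2⟩ := hin δ hm σ τ hτ
          rw [(hM δ).1 hm, Units.val_one, one_mul, h1, h2]
        · obtain ⟨h1, h2⟩ := hout δ hm σ τ hτ
          rw [hε1 δ hm, h1, h2, Units.val_neg, Units.val_one]
          ring)
    have hz := hCε c hc1 (by
      intro σ hσ
      have := hc3 ⟨σ, hI σ hσ⟩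
      rw [hfI ⟨σ, hI σ hσ⟩ hσ, hfI (k ⟨σ, hI σ hσ⟩) (hkI ⟨σ, hI σ hσ⟩ hσ), sub_zero] at this
      exact this) hc2
    intro σ
    rw [← hc3 σ]
    exact hz σ
  intro σ
  exact two_zero2 hp2 _ _ (hsum σ) (hdif σ)

section mid

variable {G : Type} [Group G] [TopologicalSpace G] [IsTopologicalGroup G]
variable {p : ℕ} [hp : Fact p.Prime]

/-- **Control over the towers.** -/
theorem ctl_mid2 (hp2 : p ≠ 2) {I : Set G} (hIc : ∀ g, ∀ σ ∈ I, g * σ * g⁻¹ ∈ I) {D : Subgroup G}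
    {ε : G →* (ZMod p)ˣ} (hε2 : ∀ σ, ε σ = 1 ∨ ε σ = -1) (h1 : Ctl (1 : G →* (ZMod p)ˣ) I D) (h2 : Ctl ε I D)
    (hε : ∃ δ ∈ D, ε δ ≠ 1) (hεo : IsOpen (ε.ker : Set G)) {H M : Subgroup G} (hMH : M ≤ H)
    (hMn : M.Normal) (hMε : M ≤ ε.ker) (hMi : ∃ a : ℕ, M.relIndex ε.ker = p ^ a)
    (hMo : IsOpen (M : Set G)) (hIM : ∀ x ∈ I, x ∈ M) :
    (∀ g : G, ∃ δ ∈ D, δ⁻¹ * g ∈ M) ∧
    (Ctl (1 : (ε.ker : Subgroup G) →* (ZMod p)ˣ) {σ : ε.ker | (σ : G) ∈ I} {σ : ε.ker | (σ : G) ∈ D}) ∧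
    Ctl (1 : H →* (ZMod p)ˣ) {σ : H | (σ : G) ∈ I} {σ : H | (σ : G) ∈ D} ∧
    Ctl (ε.comp H.subtype) {σ : H | (σ : G) ∈ I} {σ : H | (σ : G) ∈ D} := by
  obtain ⟨B, hB⟩ : ∃ B, B = ε.ker := ⟨_, rfl⟩
  rw [← hB] at hεo hMε hMi ⊢
  have hBε : ∀ σ, σ ∈ B ↔ ε σ = 1 := fun σ => by rw [hB, MonoidHom.mem_ker]
  obtain ⟨δ₀, hδ₀, hδ₀ε⟩ := hε
  have hδ₀B : δ₀ ∉ B := fun h => hδ₀ε ((hBε _).1 h)
  have hBctl := t_two2 hp2 t_ext G B D I ε hε2 hεo hBε ⟨δ₀, hδ₀, hδ₀B⟩ (fun σ hσ => hMε (hIM σ hσ)) hIc h1 h2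
  have hBn : B.Normal := by rw [hB]; infer_instance
  -- homomorphisms on `B`
  have hkeyB : ∀ h : B → ZMod p, Continuous h → (∀ σ τ, h (σ * τ) = h σ + h τ) →
      (∀ σ ∈ {σ : B | (σ : G) ∈ I}, h σ = 0) → (∀ σ ∈ D.subgroupOf B, h σ = 0) → ∀ σ, h σ = 0 :=
    fun h hc hm hI hD => hBctl h (cy_one.2 ⟨hc, hm⟩) hI fun σ hσ => hD σ hσ
  have hMn' : (M.subgroupOf B).Normal := inferInstance
  have hMo' : IsOpen ((M.subgroupOf B : Subgroup B) : Set B) :=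
    hMo.preimage continuous_subtype_val
  have hMi' : ∃ a : ℕ, (M.subgroupOf B).index = p ^ a := hMi
  have hdB : ∀ g ∈ B, ∃ δ ∈ D, δ⁻¹ * g ∈ M := by
    intro g hg
    obtain ⟨δ, hδ, hδg⟩ := S.dense_of (p := p) hkeyB hMn' hMo' hMi' (fun x hx => hIM _ hx) ⟨g, hg⟩
    exact ⟨δ, hδ, hδg⟩
  have hBB : ∀ g, g ∉ B → δ₀⁻¹ * g ∈ B := by
    intro g hg
    rw [hBε] at hg hδ₀B ⊢
    rw [map_mul, map_inv]
    rcases hε2 g with h | h
    · exact absurd h hg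
    · rcases hε2 δ₀ with h' | h'
      · exact absurd h' hδ₀B
      · rw [h, h', inv_mul_cancel]
  have hd : ∀ g : G, ∃ δ ∈ D, δ⁻¹ * g ∈ M := by
    intro g
    by_cases hg : g ∈ B
    · exact hdB g hg
    · obtain ⟨δ, hδ, hδg⟩ := hdB _ (hBB g hg)
      exact ⟨δ₀ * δ, D.mul_mem hδ₀ hδ, by rwa [mul_inv_rev, mul_assoc]⟩
  refine ⟨hd, hBctl, ?_⟩
  -- homomorphisms on the intersection of `H` and `B`
  have hHB : ∀ c : H → ZMod p, Continuous c →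
      (∀ σ τ : H, (σ : G) ∈ B → (τ : G) ∈ B → c (σ * τ) = c σ + c τ) →
      (∀ σ : H, (σ : G) ∈ I → c σ = 0) → (∀ σ : H, (σ : G) ∈ D → c σ = 0) →
      ∀ σ : H, (σ : G) ∈ B → c σ = 0 := by
    intro c hc hm hI hD σ hσ
    have hctl : Ctl (1 : (H.subgroupOf B) →* (ZMod p)ˣ) {σ : H.subgroupOf B | ((σ : B) : G) ∈ I}
        {σ : H.subgroupOf B | ((σ : B) : G) ∈ D} := by
      refine ctl_of_tower fun N hN hNo hNi hIN => ?_
      obtain ⟨σ, hσ, hσ'⟩ := S.tower (p := p) (G := B) (I := {σ : B | (σ : G) ∈ I})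
        (fun g x hx => hIc g x hx) (D := D.subgroupOf B) hkeyB (H := H.subgroupOf B)
        (M := M.subgroupOf B) (fun x hx => hMH hx) hMn' hMi' hMo' (fun x hx => hIM _ hx) hN hNo hNi
        fun x hx => hIN x hx
      exact ⟨σ, hσ, hσ'⟩
    refine hctl (fun τ => c ⟨((τ : B) : G), τ.2⟩) (cy_one.2 ⟨?_, fun τ τ' => ?_⟩) ?_ ?_ ⟨⟨σ, hσ⟩, σ.2⟩
    · exact hc.comp ((continuous_subtype_val.comp continuous_subtype_val).subtype_mk _)
    · exact hm ⟨((τ : B) : G), τ.2⟩ ⟨((τ' : B) : G), τ'.2⟩ τ.1.2 τ'.1.2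
    · exact fun τ hτ => hI ⟨((τ : B) : G), τ.2⟩ hτ
    · exact fun τ hτ => hD ⟨((τ : B) : G), τ.2⟩ hτ
  refine ⟨?_, ?_⟩
  · intro c hc hI hD
    obtain ⟨hcc, hm⟩ := cy_one.1 hc
    have h3 := hHB c hcc (fun σ τ _ _ => hm σ τ) hI hD
    intro σ
    have h4 : c (σ * σ) = 0 := by
      apply h3
      rw [hBε]
      show ε ((σ : G) * σ) = 1
      rw [map_mul]
      rcases hε2 (σ : G) with h | h <;> rw [h] <;> simp
    rw [hm] at h4
    exact add_self2 hp2 _ h4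
  · intro c ⟨hcc, hm⟩ hI hD
    have h3 := hHB c hcc (fun σ τ hσ _ => by
      rw [hm]
      have : (ε.comp H.subtype) σ = 1 := (hBε _).1 hσ
      rw [this, Units.val_one, one_mul]) hI hD
    intro σ
    obtain ⟨δ, hδ, hδσ⟩ := hd (σ : G)
    have hδH : δ ∈ H := by
      have h4 := H.mul_mem σ.2 (H.inv_mem (hMH hδσ))
      have e : (σ : G) * (δ⁻¹ * σ)⁻¹ = δ := by group
      rwa [e] at h4
    have e : σ = ⟨δ, hδH⟩ * ⟨δ⁻¹ * σ, hMH hδσ⟩ := by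
      apply Subtype.ext
      show (σ : G) = δ * (δ⁻¹ * σ)
      group
    rw [e, hm, hD ⟨δ, hδH⟩ hδ, h3 ⟨δ⁻¹ * σ, hMH hδσ⟩ (hMε hδσ), mul_zero, add_zero]

end mid

variable {K : Type} [Field K] [NumberField K] {p : ℕ} [hp : Fact p.Prime]

/-- the character has values `1`, `-1` if a group of index `2 p ^ a` is contained in its kernel -/
theorem sq_one {G : Type} [Group G] {ε : G →* (ZMod p)ˣ} {M : Subgroup G} (hMn : M.Normal)
    (hMε : M ≤ ε.ker) (hMi : ∃ a : ℕ, M.index = 2 * p ^ a) (σ : G) : ε σ = 1 ∨ ε σ = -1 := by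
  obtain ⟨a, ha⟩ := hMi
  have h1 : ε (σ ^ (2 * p ^ a)) = 1 := by
    rw [← MonoidHom.mem_ker]
    exact hMε (ha ▸ M.pow_index_mem σ)
  rw [map_pow, pow_mul] at h1
  have h2 : ((ε σ) ^ 2) = 1 := by
    have h3 : ∀ (u : (ZMod p)ˣ) (a : ℕ), u ^ p ^ a = u := by
      intro u a
      induction a with
      | zero => rw [pow_zero, pow_one]
      | succ a ih =>
        rw [pow_succ, pow_mul, ih]
        exact Units.ext (by rw [Units.val_pow_eq_pow_val, ZMod.pow_card])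
    rwa [h3] at h1
  have h4 : ((ε σ : (ZMod p)ˣ) : ZMod p) ^ 2 = 1 := by
    rw [← Units.val_pow_eq_pow_val, h2, Units.val_one]
  rw [sq] at h4
  rcases mul_self_eq_one_iff.1 h4 with h5 | h5
  · exact Or.inl (Units.ext h5)
  · exact Or.inr (Units.ext (by rw [h5, Units.val_neg, Units.val_one]))

theorem ctl_quad {T : Set (HeightOneSpectrum (𝓞 K))}
    {w : HeightOneSpectrum (𝓞 K)} (hrc : S.RC p T w) (hi : Ind p T w) {ζ : AlgebraicClosure K}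
    (hζ : IsPrimitiveRoot ζ p) {ε : GK K →* (ZMod p)ˣ}
    (hε : ∀ σ : GK K, σ ζ = ζ ^ (ε σ : ZMod p).val)
    {H M : Subgroup (GK K)} (hMH : M ≤ H) (hMn : M.Normal) (hMζ : ∀ σ ∈ M, σ ζ = ζ)
    (hMi : ∃ a : ℕ, M.index = 2 * p ^ a) (hMo : IsOpen (M : Set (GK K)))
    (hIM : ∀ x ∈ S.IS T w, x ∈ M) {Q : Ideal (OO K)}
    (hQ : Q.IsMaximal) (hQw : Q.comap (algebraMap (𝓞 K) (OO K)) = w.asIdeal) :
    (∀ g : GK K, ∃ δ ∈ Dec Q, δ⁻¹ * g ∈ M) ∧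
    (Ctl (1 : (ε.ker : Subgroup (GK K)) →* (ZMod p)ˣ) {σ : ε.ker | (σ : GK K) ∈ S.IS T w}
      {σ : ε.ker | (σ : GK K) ∈ Dec Q}) ∧
    Ctl (1 : H →* (ZMod p)ˣ) {σ : H | (σ : GK K) ∈ S.IS T w} {σ : H | (σ : GK K) ∈ Dec Q} ∧
    Ctl (ε.comp H.subtype) {σ : H | (σ : GK K) ∈ S.IS T w} {σ : H | (σ : GK K) ∈ Dec Q} := by
  obtain ⟨h4, h5⟩ := ctl_cyc t_hil (t_ord t_plc) hi hζ hε hQ hQw
  have hMε : M ≤ ε.ker := by
    intro σ hσ
    rw [MonoidHom.mem_ker]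
    have h6 : ζ ^ (ε σ : ZMod p).val = ζ ^ 1 := by rw [← hε, hMζ σ hσ, pow_one]
    have h7 := zpow_cast_eq hζ h6
    rw [ZMod.natCast_zmod_val, Nat.cast_one] at h7
    exact Units.ext h7
  have hε2 := sq_one hMn hMε hMi
  have hp2 : p ≠ 2 := by
    rintro rfl
    obtain ⟨δ, -, hδ⟩ := h5
    exact hδ (Subsingleton.elim _ _)
  have hidx : ε.ker.index = 2 := by
    rw [Subgroup.index_ker]
    have h6 : (ε.range : Set (ZMod p)ˣ) = {1, -1} := by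
      ext u
      constructor
      · rintro ⟨σ, rfl⟩
        exact hε2 σ
      · rintro (rfl | rfl)
        · exact ε.range.one_mem
        · obtain ⟨δ, -, hδ⟩ := h5
          exact ⟨δ, (hε2 δ).resolve_left hδ⟩
    have h7 : (1 : (ZMod p)ˣ) ≠ -1 := by
      intro h
      have h8 : (1 : ZMod p) = -1 := by
        have := congrArg Units.val h
        rwa [Units.val_neg, Units.val_one] at this
      exact two_ne_zero2 hp2 (by linear_combination h8)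
    have h9 : Nat.card ε.range = (ε.range : Set (ZMod p)ˣ).ncard := rfl
    rw [h9, h6, Set.ncard_pair h7]
  have hrel : ∃ a : ℕ, M.relIndex ε.ker = p ^ a := by
    obtain ⟨a, ha⟩ := hMi
    have h6 := Subgroup.relIndex_mul_index hMε
    rw [hidx, ha, mul_comm] at h6
    exact ⟨a, Nat.eq_of_mul_eq_mul_left two_pos h6⟩
  exact ctl_mid2 hp2 (fun g σ hσ => S.IS_conj g σ hσ) hε2 (ctl_one hrc hQ hQw) h4 h5
    (Subgroup.isOpen_mono hMε hMo) hMH hMn hMε hrel hMo hIM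

end Pool.Agent.H517.E
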