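import Pool.Agent.H517.E.Om

/-!
# Units which are close to one at a place: definitions and statements of the parts
-/

set_option autoImplicit false

namespace Pool.Agent.H517.E

open NumberField IsDedekindDomain Module Pool.Agent.W401.Cheb Pool.Agent.NH7.Sch

/-- HEN. Elements which are close to `1` at `w` have roots fixed by the decomposition group. -/
def U_hen : Prop :=
  ∀ (p : ℕ) [Fact p.Prime] (K : Type) [Field K] [NumberField K]
    (L : IntermediateField K (AlgebraicClosure K)) [NumberField L]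
    (w : HeightOneSpectrum (𝓞 K)) (Q : Ideal (OO K)), Q.IsMaximal →
    Q.comap (algebraMap (𝓞 K) (OO K)) = w.asIdeal → (p : 𝓞 K) ∈ w.asIdeal →
    ∀ m : ℕ, ∃ N : ℕ, ∀ x : 𝓞 L, x - 1 ∈ (Ideal.map (algebraMap (𝓞 K) (𝓞 L)) w.asIdeal) ^ N →
      ∃ y : AlgebraicClosure K, y ^ p ^ m = ((x : L) : AlgebraicClosure K) ∧
        ∀ σ ∈ Dec Q, (∀ z ∈ L, σ z = z) → σ y = y

/-- GRP. Powers in finitely generated abelian groups. -/
def U_grp : Prop :=
  ∀ (p : ℕ) [Fact p.Prime] (E : Type) [CommGroup E] [Group.FG E] (n : ℕ) (ε : Fin n → E),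
    (∀ c : Fin n → ℤ, ∏ i, ε i ^ c i = 1 → c = 0) →
    ∃ c₀ : ℕ, ∀ (m : ℕ) (b : Fin n → ℤ) (u : E), ∏ i, ε i ^ b i = u ^ p ^ (m + c₀) →
      ∀ i, (p : ℤ) ^ m ∣ b i

end Pool.Agent.H517.E
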